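import Mathlib

/-! # Sets which are covered by countably many C¹ submanifolds of small dimension -/

open Filter Topology

namespace Pool.Agent.Q34.CSDThin

section gen

variable {V : Type*} [NormedAddCommGroup V] [NormedSpace ℝ V]

/-- a C¹ submanifold of dimension at most `n`, given by independent equations in an open set -/
def Piece (n : ℕ) (S : Set V) : Prop :=
  ∃ (r : ℕ) (W : Set V) (φ : V → Fin r → ℝ), Module.finrank ℝ V ≤ n + r ∧ IsOpen W ∧
    ContDiffOn ℝ 1 φ W ∧ (∀ x ∈ W, Function.Surjective (fderiv ℝ φ x)) ∧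
    S = {x | x ∈ W ∧ φ x = 0}

/-- countable unions of C¹ submanifolds of dimension at most `n` -/
def Thin (n : ℕ) (E : Set V) : Prop :=
  ∃ S : ℕ → Set V, (∀ k, Piece n (S k)) ∧ E ⊆ ⋃ k, S k

lemma Thin.subset {n : ℕ} {E E' : Set V} (h : Thin n E) (hE : E' ⊆ E) : Thin n E' := by
  obtain ⟨S, h1, h2⟩ := h
  exact ⟨S, h1, hE.trans h2⟩

lemma Piece.mono {n n' : ℕ} (hn : n ≤ n') {S : Set V} (h : Piece n S) : Piece n' S := by
  obtain ⟨r, W, φ, h1, h2⟩ := h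
  exact ⟨r, W, φ, by omega, h2⟩

lemma Thin.mono {n n' : ℕ} (hn : n ≤ n') {E : Set V} (h : Thin n E) : Thin n' E := by
  obtain ⟨S, h1, h2⟩ := h
  exact ⟨S, fun k => (h1 k).mono hn, h2⟩

/-- a piece is a countable union of closed sets -/
lemma Piece.closed {n : ℕ} {S : Set V} (h : Piece n S) :
    ∃ Z : ℕ → Set V, (∀ k, IsClosed (Z k)) ∧ S = ⋃ k, Z k := by
  obtain ⟨r, W, φ, -, hW, hφ, -, rfl⟩ := h
  obtain ⟨F, hF, hFW, hFU, -⟩ := hW.exists_iUnion_isClosed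
  refine ⟨fun k => F k ∩ φ ⁻¹' {0}, fun k => ?_, ?_⟩
  · exact (hφ.continuousOn.mono (hFW k)).preimage_isClosed_of_isClosed (hF k) isClosed_singleton
  · ext x
    simp only [Set.mem_ofPred_eq, Set.mem_iUnion, Set.mem_inter_iff, Set.mem_preimage,
      Set.mem_singleton_iff]
    constructor
    · rintro ⟨hx, hx0⟩
      rw [← hFU] at hx
      obtain ⟨k, hk⟩ := Set.mem_iUnion.1 hx
      exact ⟨k, hk, hx0⟩
    · rintro ⟨k, hk, hx0⟩
      exact ⟨hFW k hk, hx0⟩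

/-- **Baire.** -/
lemma exists_piece {X : Type*} [TopologicalSpace X] [BaireSpace X] [Nonempty X] {v : X → V}
    (hv : Continuous v) {n : ℕ} (h : Thin n (Set.range v)) :
    ∃ S : Set V, Piece n S ∧ ∃ O : Set X, IsOpen O ∧ O.Nonempty ∧ ∀ x ∈ O, v x ∈ S := by
  obtain ⟨S, hS, hE⟩ := h
  choose Z hZ hSZ using fun k => (hS k).closed
  have h1 : ∀ p : ℕ × ℕ, IsClosed (v ⁻¹' Z p.1 p.2) := fun p => (hZ p.1 p.2).preimage hv
  have h2 : ⋃ p : ℕ × ℕ, v ⁻¹' Z p.1 p.2 = Set.univ := by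
    refine Set.eq_univ_of_forall fun x => ?_
    have h3 := hE (Set.mem_range_self x)
    obtain ⟨k, hk⟩ := Set.mem_iUnion.1 h3
    rw [hSZ k] at hk
    obtain ⟨l, hl⟩ := Set.mem_iUnion.1 hk
    exact Set.mem_iUnion.2 ⟨(k, l), hl⟩
  obtain ⟨p, hp⟩ := nonempty_interior_of_iUnion_of_closed h1 h2
  refine ⟨S p.1, hS p.1, _, isOpen_interior, hp, fun x hx => ?_⟩
  rw [hSZ p.1]
  have h3 : x ∈ v ⁻¹' Z p.1 p.2 := interior_subset hx
  exact Set.mem_iUnion.2 ⟨p.2, h3⟩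

/-- strictly differentiable functions along chords -/
lemma strict_zero {E F : Type*} [NormedAddCommGroup E] [NormedSpace ℝ E] [NormedAddCommGroup F]
    [NormedSpace ℝ F] {f : E → F} {f' : E →L[ℝ] F} {x₀ : E} (hf : HasStrictFDerivAt f f' x₀)
    (X : E →L[ℝ] E) (h : ∀ U ∈ 𝓝 x₀, ∃ x ∈ U, ∃ t : ℝ, t ≠ 0 ∧ x + t • X x ∈ U ∧
      f (x + t • X x) = f x) : f' (X x₀) = 0 := by
  rw [← norm_le_zero_iff]
  refine le_of_forall_pos_le_add fun ε hε => ?_
  rw [zero_add]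
  set η : ℝ := ε / (‖X x₀‖ + 1) with hη
  have hη0 : 0 < η := div_pos hε (by positivity)
  have h1 := hf.isLittleO.def hη0
  rw [nhds_prod_eq, eventually_prod_self_iff'] at h1
  obtain ⟨U, hU, hU1⟩ := h1
  have hcl : x₀ ∈ closure {x : E | ‖f' (X x)‖ ≤ η * ‖X x‖} := by
    rw [mem_closure_iff_nhds]
    intro U' hU'
    obtain ⟨x, hx, t, ht, hx', hfx⟩ := h (U ∩ U') (inter_mem hU hU')
    refine ⟨x, hx.2, ?_⟩
    have h2 := hU1 _ hx'.1 _ hx.1
    simp only [hfx, sub_self, zero_sub, norm_neg, add_sub_cancel_left, map_smul, norm_smul] at h2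
    have h3 : 0 < ‖t‖ := norm_pos_iff.2 ht
    have h4 : ‖t‖ * ‖f' (X x)‖ ≤ ‖t‖ * (η * ‖X x‖) := by
      calc _ ≤ _ := h2
        _ = _ := by ring
    exact le_of_mul_le_mul_left h4 h3
  have hc : IsClosed {x : E | ‖f' (X x)‖ ≤ η * ‖X x‖} :=
    isClosed_le ((f'.continuous.comp X.continuous).norm)
      (continuous_const.mul X.continuous.norm)
  rw [hc.closure_eq] at hcl
  refine le_trans hcl ?_
  rw [hη, div_mul_eq_mul_div, div_le_iff₀ (by positivity)]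
  nlinarith [norm_nonneg (X x₀)]

/-- differentiable functions which are constant along a curve -/
lemma curve_zero {E F : Type*} [NormedAddCommGroup E] [NormedSpace ℝ E] [NormedAddCommGroup F]
    [NormedSpace ℝ F] {f : E → F} {f' : E →L[ℝ] F} {x₀ : E} (hf : HasFDerivAt f f' x₀)
    {γ : ℝ → E} {γ' : E} {t₀ : ℝ} (hγ0 : γ t₀ = x₀) (hγ : HasDerivAt γ γ' t₀) {z : F}
    (h : ∀ᶠ t in 𝓝 t₀, f (γ t) = z) : f' γ' = 0 := by
  subst hγ0
  have h1 : HasDerivAt (f ∘ γ) (f' γ') t₀ := hf.comp_hasDerivAt t₀ hγ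
  have h2 : HasDerivAt (f ∘ γ) 0 t₀ := by
    refine (hasDerivAt_const t₀ z).congr_of_eventuallyEq ?_
    filter_upwards [h] with t ht
    exact ht
  exact h1.unique h2

/-- zero-dimensional submanifolds -/
lemma piece_singleton [FiniteDimensional ℝ V] (x₀ : V) : Piece 0 ({x₀} : Set V) := by
  have e : V ≃L[ℝ] (Fin (Module.finrank ℝ V) → ℝ) := ContinuousLinearEquiv.ofFinrankEq (by simp)
  refine ⟨Module.finrank ℝ V, Set.univ, fun x => e x - e x₀, by simp, isOpen_univ,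
    (e.contDiff.sub contDiff_const).contDiffOn, fun x _ => ?_, ?_⟩
  · have h1 : fderiv ℝ (fun x => e x - e x₀) x = (e : V →L[ℝ] _) := by
      rw [fderiv_sub_const]
      exact e.fderiv
    rw [h1]
    exact e.surjective
  · ext x
    simp [sub_eq_zero]

lemma thin_countable [FiniteDimensional ℝ V] {E : Set V} (hE : E.Countable) (n : ℕ) :
    Thin n E := by
  rcases E.eq_empty_or_nonempty with h0 | h0
  · exact ⟨fun _ => {0}, fun _ => (piece_singleton 0).mono (Nat.zero_le _), by rw [h0]; simp⟩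
  · obtain ⟨f, hf⟩ := hE.exists_eq_range h0
    refine ⟨fun k => {f k}, fun k => (piece_singleton _).mono (Nat.zero_le _), ?_⟩
    rw [hf]
    rintro _ ⟨k, rfl⟩
    exact Set.mem_iUnion.2 ⟨k, rfl⟩

/-- linear subspaces -/
lemma piece_ker {r n : ℕ} (φ : V →L[ℝ] (Fin r → ℝ)) (hφ : Function.Surjective φ)
    (hn : Module.finrank ℝ V ≤ n + r) : Piece n {x | φ x = 0} := by
  refine ⟨r, Set.univ, φ, hn, isOpen_univ, φ.contDiff.contDiffOn, fun x _ => ?_, by simp⟩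
  rw [φ.fderiv]
  exact hφ

lemma thin_iUnion {ι : Type*} [Countable ι] {n : ℕ} {E : ι → Set V} (h : ∀ i, Thin n (E i)) :
    Thin n (⋃ i, E i) := by
  rcases isEmpty_or_nonempty ι with h0 | h0
  · choose S hS using h
    refine ⟨fun _ => {x | x ∈ (∅ : Set V)}, fun _ => ?_, by simp⟩
    exact ⟨Module.finrank ℝ V, ∅, fun _ => 0, by simp, isOpen_empty, contDiffOn_const,
      fun x hx => absurd hx (Set.notMem_empty x), by simp⟩
  · choose S hS1 hS2 using h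
    obtain ⟨f, hf⟩ := exists_surjective_nat (ι × ℕ)
    refine ⟨fun k => S (f k).1 (f k).2, fun k => hS1 _ _, ?_⟩
    intro x hx
    obtain ⟨i, hi⟩ := Set.mem_iUnion.1 hx
    obtain ⟨k, hk⟩ := Set.mem_iUnion.1 (hS2 i hi)
    obtain ⟨l, hl⟩ := hf (i, k)
    exact Set.mem_iUnion.2 ⟨l, by rw [hl]; exact hk⟩

end gen

end Pool.Agent.Q34.CSDThin
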