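import Mathlib
import Pool.Agent.Q34.CSD.ThinGen
import Pool.Agent.Y327.ZarDer

/-! # C¹ functions on pieces of a minimal set -/

open Filter Topology Matrix

namespace Pool.Agent.Q34.CSDThin

open Y327 H715R2

variable {d : ℕ}

/-- the direction of the root `i, j` -/
noncomputable def XX (i j : Fin d) : (Fin d → Fin d → ℝ) →L[ℝ] (Fin d → Fin d → ℝ) :=
  ContinuousLinearMap.pi fun a => if a = i then ContinuousLinearMap.proj j else 0

lemma XX_apply (i j : Fin d) (h : Fin d → Fin d → ℝ) (a : Fin d) :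
    XX i j h a = if a = i then h j else 0 := by
  rw [XX, ContinuousLinearMap.pi_apply]
  split_ifs <;> rfl

lemma XX_smul (i j : Fin d) (c : ℝ) (h : Fin d → Fin d → ℝ) : XX i j (c • h) = c • XX i j h :=
  map_smul _ _ _

lemma XX_eq (i j : Fin d) (h : Matrix (Fin d) (Fin d) ℝ) :
    XX i j h = (Matrix.single i j (1 : ℝ) * h : Matrix (Fin d) (Fin d) ℝ) := by
  funext a b
  rw [XX_apply]
  by_cases ha : a = i
  · subst ha
    rw [if_pos rfl, Matrix.single_mul_apply_same, one_mul]
  · rw [if_neg ha, Matrix.single_mul_apply_of_ne _ _ _ _ _ ha]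
    rfl

lemma transvection_eq (i j : Fin d) (t : ℝ) (h : Matrix (Fin d) (Fin d) ℝ) :
    (transvection i j t * h : Matrix (Fin d) (Fin d) ℝ) =
      (show Fin d → Fin d → ℝ from h) + t • XX i j h := by
  funext a b
  rw [transvection_mul_entry, Pi.add_apply, Pi.add_apply, Pi.smul_apply, Pi.smul_apply, XX_apply]
  split_ifs
  · rw [smul_eq_mul]
  · simp

/-- there are small pairs in the direction of the root `i, j` near every point -/
def Small (M : Set (Matrix (Fin d) (Fin d) ℝ)) (i j : Fin d) : Prop :=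
  ∀ h₀ ∈ M, ∀ U ∈ 𝓝 h₀, ∀ δ : ℝ, 0 < δ → ∃ h ∈ M, h ∈ U ∧ ∃ t : ℝ, t ≠ 0 ∧ |t| < δ ∧
    transvection i j t * h ∈ M

lemma root_kernel {M O : Set (Matrix (Fin d) (Fin d) ℝ)} (hO : IsOpen O) {i j : Fin d}
    (hS : Small M i j) {F : Type*} [NormedAddCommGroup F] [NormedSpace ℝ F]
    {f : (Fin d → Fin d → ℝ) → F} {z : F} (hf : ∀ h ∈ M, h ∈ O → f h = z)
    {h₁ : Matrix (Fin d) (Fin d) ℝ} (hM : h₁ ∈ M) (hh : h₁ ∈ O)
    {f' : (Fin d → Fin d → ℝ) →L[ℝ] F} (hf' : HasStrictFDerivAt f f' h₁) :
    f' (XX i j h₁) = 0 := by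
  refine strict_zero hf' (XX i j) fun U hU => ?_
  have hU' : U ∈ @nhds (Matrix (Fin d) (Fin d) ℝ) _ h₁ := hU
  have h0 : (transvection i j (0 : ℝ) * h₁ : Matrix (Fin d) (Fin d) ℝ) = h₁ := by
    rw [transvection_zero, Matrix.one_mul]
  have h1 : ∀ᶠ z : ℝ × Matrix (Fin d) (Fin d) ℝ in 𝓝 (0, h₁),
      transvection i j z.1 * z.2 ∈ U ∩ O := by
    refine (continuous_transvection_mul i j).continuousAt.eventually_mem ?_
    dsimp only
    rw [h0]
    exact inter_mem hU' (hO.mem_nhds hh)
  rw [nhds_prod_eq] at h1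
  obtain ⟨A, hA, B, hB, hAB⟩ := (Filter.mem_prod_iff.1 h1)
  obtain ⟨δ, hδ, hδA⟩ := Metric.mem_nhds_iff.1 hA
  obtain ⟨h, hhM, hhB, t, ht, htδ, hth⟩ := hS h₁ hM (B ∩ (U ∩ O))
    (inter_mem hB (inter_mem hU' (hO.mem_nhds hh))) δ hδ
  have h2 : transvection i j t * h ∈ U ∩ O := by
    have h3 : ((t, h) : ℝ × Matrix (Fin d) (Fin d) ℝ) ∈ A ×ˢ B := by
      refine ⟨hδA ?_, hhB.1⟩
      rw [Metric.mem_ball, Real.dist_eq, sub_zero]
      exact htδ
    exact hAB h3
  refine ⟨h, hhB.2.1, t, ht, ?_, ?_⟩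
  · rw [← transvection_eq]
    exact h2.1
  · rw [← transvection_eq, hf h hhM hhB.2.2]
    exact hf _ hth h2.2

lemma diag_kernel {M O : Set (Matrix (Fin d) (Fin d) ℝ)} (hinv : InvB id M) (hO : IsOpen O)
    {F : Type*} [NormedAddCommGroup F] [NormedSpace ℝ F]
    {f : (Fin d → Fin d → ℝ) → F} {z : F} (hf : ∀ h ∈ M, h ∈ O → f h = z)
    {h₁ : Matrix (Fin d) (Fin d) ℝ} (hM : h₁ ∈ M) (hh : h₁ ∈ O)
    {f' : (Fin d → Fin d → ℝ) →L[ℝ] F} (hf' : HasStrictFDerivAt f f' h₁) (i j : Fin d) :
    f' (XX i i h₁) = f' (XX j j h₁) := by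
  rcases eq_or_ne i j with rfl | hij
  · rfl
  rw [← sub_eq_zero, ← map_sub]
  have hpos : ∀ᶠ c in 𝓝 (1 : ℝ), 0 < c := lt_mem_nhds one_pos
  have hγ : HasDerivAt (fun c : ℝ => (fun a b : Fin d =>
      (if a = i then c else if a = j then c⁻¹ else 1) * h₁ a b))
      (XX i i h₁ - XX j j h₁ : Fin d → Fin d → ℝ) 1 := by
    rw [hasDerivAt_pi]
    intro a
    rw [hasDerivAt_pi]
    intro b
    rw [Pi.sub_apply, Pi.sub_apply, XX_apply, XX_apply]
    by_cases ha : a = i
    · subst ha
      simp only [if_true, if_neg hij]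
      have := (hasDerivAt_id (1 : ℝ)).mul_const (h₁ a b)
      simpa using this
    · by_cases ha' : a = j
      · subst ha'
        simp only [if_neg ha, if_true]
        have := (hasDerivAt_inv (one_ne_zero : (1 : ℝ) ≠ 0)).mul_const (h₁ a b)
        simpa using this
      · simp only [if_neg ha, if_neg ha']
        simpa using hasDerivAt_const (1 : ℝ) (h₁ a b)
  refine curve_zero (z := z) (t₀ := 1) hf'.hasFDerivAt ?_ hγ ?_
  · funext a b
    split_ifs <;> simp
  · have hc : ContinuousAt (fun c : ℝ => (fun a b : Fin d =>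
      (if a = i then c else if a = j then c⁻¹ else 1) * h₁ a b)) 1 := hγ.continuousAt
    have hO' : O ∈ 𝓝 ((fun a b : Fin d =>
      (if a = i then (1 : ℝ) else if a = j then (1 : ℝ)⁻¹ else 1) * h₁ a b)) := by
      have h2 : (fun a b : Fin d =>
        (if a = i then (1 : ℝ) else if a = j then (1 : ℝ)⁻¹ else 1) * h₁ a b) = h₁ := by
        funext a b
        split_ifs <;> simp
      rw [h2]
      exact hO.mem_nhds hh
    filter_upwards [hpos, hc.eventually_mem hO'] with c hc0 hcO
    refine hf _ ?_ hcO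
    have h3 := hinv h₁ hM (fun k => if k = i then c else if k = j then c⁻¹ else 1) 1 ⟨fun k => ?_, ?_,
      fun a b hab => by rw [show a = b from hab]⟩ (by simp)
    · have h4 : diagonal (fun k => if k = i then c else if k = j then c⁻¹ else 1) * h₁ *
          zR (1 : Matrix (Fin d) (Fin d) ℤ) = (fun a b : Fin d =>
          (if a = i then c else if a = j then c⁻¹ else 1) * h₁ a b : Matrix (Fin d) (Fin d) ℝ) := by
        rw [zR_one, Matrix.mul_one]
        funext a b
        rw [Matrix.diagonal_mul]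
      rw [h4] at h3
      exact h3
    · dsimp only
      split_ifs
      · exact hc0
      · exact inv_pos.2 hc0
      · exact one_pos
    · rw [← Finset.mul_prod_erase _ _ (Finset.mem_univ i), if_pos rfl,
        ← Finset.mul_prod_erase _ _ (Finset.mem_erase.2 ⟨hij.symm, Finset.mem_univ j⟩),
        if_neg hij.symm, if_pos rfl, Finset.prod_eq_one, mul_one, mul_inv_cancel₀ hc0.ne']
      intro k hk
      rw [Finset.mem_erase, Finset.mem_erase] at hk
      rw [if_neg hk.2.1, if_neg hk.1]

/-- the directions inside the classes are independent -/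
lemma linInd_XX (R : Fin d → Fin d → Prop) {h : Matrix (Fin d) (Fin d) ℝ} (hu : IsUnit h.det) :
    LinearIndependent ℝ (fun q : {p : Fin d × Fin d // R p.1 p.2} => XX q.1.1 q.1.2 h) := by
  classical
  let L : (Fin d → Fin d → ℝ) →ₗ[ℝ] ({p : Fin d × Fin d // R p.1 p.2} → ℝ) :=
    { toFun := fun x p => (Matrix.of x * h⁻¹) p.1.1 p.1.2
      map_add' := fun x y => by
        funext p
        rw [← Matrix.of_add_of, Matrix.add_mul]
        rfl
      map_smul' := fun c x => by
        funext p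
        rw [← Matrix.smul_of, Matrix.smul_mul]
        rfl }
  refine LinearIndependent.of_comp L ?_
  have h1 : (L ∘ fun q : {p : Fin d × Fin d // R p.1 p.2} => XX q.1.1 q.1.2 h) =
      fun q => Pi.single q (1 : ℝ) := by
    funext q p
    have h2 : L (XX q.1.1 q.1.2 h) p = ((Matrix.single q.1.1 q.1.2 (1 : ℝ) * h) * h⁻¹) p.1.1 p.1.2 := by
      rw [XX_eq]
      rfl
    rw [Function.comp_apply, h2, Matrix.mul_assoc, Matrix.mul_nonsing_inv _ hu, Matrix.mul_one,
      Matrix.single_apply, Pi.single_apply]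
    by_cases hqp : p = q
    · subst hqp
      simp
    · rw [if_neg hqp, if_neg]
      rintro ⟨h3, h4⟩
      exact hqp (Subtype.ext (Prod.ext h3.symm h4.symm))
  rw [h1]
  exact Pi.linearIndependent_single_one _ ℝ

/-- the dimension count -/
lemma count_dim (hd : 0 < d) (R : Fin d → Fin d → Prop) {h : Matrix (Fin d) (Fin d) ℝ}
    (hu : IsUnit h.det) {r s : ℕ} (hR : ∀ i, Nat.card {j // R i j} = s)
    (f' : (Fin d → Fin d → ℝ) →L[ℝ] (Fin r → ℝ)) (hf : Function.Surjective f')
    (h1 : ∀ i j, i ≠ j → R i j → f' (XX i j h) = 0)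
    (h2 : ∀ i j, f' (XX i i h) = f' (XX j j h)) :
    r + d * s ≤ d * d + 1 ∧ (f' h = 0 → r + d * s ≤ d * d) := by
  classical
  set v : {p : Fin d × Fin d // R p.1 p.2} → (Fin d → Fin d → ℝ) :=
    fun q => XX q.1.1 q.1.2 h with hv
  have hli : LinearIndependent ℝ v := linInd_XX R hu
  set Ψ := Fintype.linearCombination ℝ v with hΨ
  have hinj : Function.Injective Ψ := hli.fintypeLinearCombination_injective
  set Θ := f'.toLinearMap ∘ₗ Ψ with hΘ
  set i₀ : Fin d := ⟨0, hd⟩ with hi₀
  set u : Fin r → ℝ := f' (XX i₀ i₀ h) with hu'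
  have hcard : Fintype.card {p : Fin d × Fin d // R p.1 p.2} = d * s := by
    have e : {p : Fin d × Fin d // R p.1 p.2} ≃ Σ i : Fin d, {j // R i j} :=
      { toFun := fun p => ⟨p.1.1, p.1.2, p.2⟩
        invFun := fun p => ⟨(p.1, p.2.1), p.2.2⟩
        left_inv := fun p => rfl
        right_inv := fun p => rfl }
    rw [Fintype.card_congr e, Fintype.card_sigma]
    rw [Finset.sum_congr rfl (fun i _ => by rw [← Nat.card_eq_fintype_card, hR i])]
    simp
  have hrange : LinearMap.range Θ ≤ Submodule.span ℝ {u} := by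
    rintro _ ⟨b, rfl⟩
    rw [hΘ, LinearMap.comp_apply, hΨ, Fintype.linearCombination_apply, map_sum]
    refine Submodule.sum_mem _ fun q _ => ?_
    rw [map_smul]
    refine Submodule.smul_mem _ _ ?_
    by_cases hq : q.1.1 = q.1.2
    · have : f'.toLinearMap (v q) = u := by
        rw [hu', hv]
        dsimp only
        rw [← hq]
        exact h2 _ _
      rw [this]
      exact Submodule.mem_span_singleton_self u
    · have : f'.toLinearMap (v q) = 0 := h1 _ _ hq q.2
      rw [this]
      exact Submodule.zero_mem _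
  have hker : Module.finrank ℝ (LinearMap.ker Θ) ≤
      Module.finrank ℝ (LinearMap.ker f'.toLinearMap) := by
    let e : LinearMap.ker Θ →ₗ[ℝ] LinearMap.ker f'.toLinearMap :=
      LinearMap.codRestrict _ (Ψ.domRestrict _) fun b => b.2
    refine LinearMap.finrank_le_finrank_of_injective (f := e) ?_
    intro b b' hbb
    exact Subtype.ext (hinj (congrArg Subtype.val hbb))
  have e1 := LinearMap.finrank_range_add_finrank_ker Θ
  have e2 := LinearMap.finrank_range_add_finrank_ker f'.toLinearMap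
  rw [LinearMap.range_eq_top.2 hf, finrank_top] at e2
  rw [Module.finrank_fintype_fun_eq_card, hcard] at e1
  have e3 : Module.finrank ℝ (Fin r → ℝ) = r := by simp
  have e4 : Module.finrank ℝ (Fin d → Fin d → ℝ) = d * d := by
    rw [Module.finrank_pi_fintype]
    simp
  rw [e3, e4] at e2
  have e5 := Submodule.finrank_mono hrange
  constructor
  · have e6 : Module.finrank ℝ (Submodule.span ℝ {u}) ≤ 1 := by
      refine (finrank_span_le_card _).trans ?_
      simp
    omega
  · intro h0
    have hu0 : u = 0 := by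
      have h3 : (h : Fin d → Fin d → ℝ) = ∑ i, XX i i h := by
        funext a b
        rw [Finset.sum_apply, Finset.sum_apply]
        simp only [XX_apply]
        rw [Finset.sum_eq_single a]
        · rw [if_pos rfl]
        · intro b' _ hb'
          rw [if_neg hb'.symm]
          rfl
        · intro ha
          exact absurd (Finset.mem_univ a) ha
      have h4 : f' h = (d : ℝ) • u := by
        conv_lhs => rw [h3]
        rw [map_sum, Finset.sum_congr rfl (fun i _ => h2 i i₀), Finset.sum_const, Finset.card_univ,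
          Fintype.card_fin, ← Nat.cast_smul_eq_nsmul ℝ]
      rw [h0] at h4
      exact (smul_eq_zero.1 h4.symm).resolve_left (by exact_mod_cast hd.ne')
    rw [hu0, Submodule.span_zero_singleton, finrank_bot] at e5
    omega

end Pool.Agent.Q34.CSDThin
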