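import Mathlib
import Pool.Agent.Q34.CSD.ThinMat
import Pool.Agent.Y327.Full

/-! # Minimal sets and values are not thin -/

open Filter Topology Matrix

namespace Pool.Agent.Q34.CSDThin

open Y327 H715R2

variable {d : ℕ}

/-- a minimal set with the small pairs inside the classes of the relation `R` -/
structure Rich (M : Set (Matrix (Fin d) (Fin d) ℝ)) (R : Fin d → Fin d → Prop) (s : ℕ) : Prop where
  min : MinB id M
  small : ∀ i j, i ≠ j → R i j → Small M i j
  card : ∀ i, Nat.card {j // R i j} = s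
  det : ∀ h ∈ M, IsUnit h.det
  nz : ∀ h ∈ M, ∀ x : Fin d → ℤ, x ≠ 0 → ∀ i, ∑ j, h i j * (x j : ℝ) ≠ 0

instance : LocallyCompactSpace (Matrix (Fin d) (Fin d) ℝ) :=
  inferInstanceAs (LocallyCompactSpace (Fin d → Fin d → ℝ))

instance : T2Space (Matrix (Fin d) (Fin d) ℝ) :=
  inferInstanceAs (T2Space (Fin d → Fin d → ℝ))

/-- pieces of minimal sets are Baire spaces -/
lemma baire_piece {M O : Set (Matrix (Fin d) (Fin d) ℝ)} (hM : IsClosed M) (hO : IsOpen O) :
    BaireSpace (O ∩ M : Set (Matrix (Fin d) (Fin d) ℝ)) := by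
  have h1 : LocallyCompactSpace (O ∩ M : Set (Matrix (Fin d) (Fin d) ℝ)) :=
    (hO.isLocallyClosed.inter hM.isLocallyClosed).locallyCompactSpace
  infer_instance

lemma finrank_mat : Module.finrank ℝ (Fin d → Fin d → ℝ) = d * d := by
  rw [Module.finrank_pi_fintype]
  simp

/-- **No piece of a minimal set is covered by submanifolds of small dimension.** -/
theorem Rich.not_thin (hd : 0 < d) {M : Set (Matrix (Fin d) (Fin d) ℝ)}
    {R : Fin d → Fin d → Prop} {s : ℕ} (h : Rich M R s) {O : Set (Matrix (Fin d) (Fin d) ℝ)}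
    (hO : IsOpen O) (hne : (O ∩ M).Nonempty) {n : ℕ} (hn : n + 2 ≤ d * s) :
    ¬ Thin n (show Set (Fin d → Fin d → ℝ) from O ∩ M) := by
  intro hthin
  have := baire_piece h.min.closed hO
  have : Nonempty (O ∩ M : Set (Matrix (Fin d) (Fin d) ℝ)) := hne.to_subtype
  let v : (O ∩ M : Set (Matrix (Fin d) (Fin d) ℝ)) → (Fin d → Fin d → ℝ) := fun x => x.1
  have hv : Continuous v := continuous_subtype_val
  have hr : Set.range v = O ∩ M := by
    ext x
    constructor
    · rintro ⟨y, rfl⟩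
      exact y.2
    · intro hx
      exact ⟨⟨x, hx⟩, rfl⟩
  obtain ⟨S, hS, Q, hQ, ⟨x₀, hx₀⟩, hQS⟩ := exists_piece hv (n := n) (by rw [hr]; exact hthin)
  obtain ⟨O', hO', hOQ⟩ := isOpen_induced_iff.1 hQ
  obtain ⟨r, W, φ, hr1, hW, hφ, hsurj, rfl⟩ := hS
  have h0 : x₀.1 ∈ O' := by
    have h1 : x₀ ∈ Subtype.val ⁻¹' O' := by rw [hOQ]; exact hx₀
    exact h1
  have hin : ∀ g ∈ M, g ∈ O ∩ O' → (show Fin d → Fin d → ℝ from g) ∈ W ∧ φ g = 0 := by
    intro g hg hgO
    have h1 : (⟨g, hgO.1, hg⟩ : (O ∩ M : Set (Matrix (Fin d) (Fin d) ℝ))) ∈ Q := by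
      rw [← hOQ]
      exact hgO.2
    exact hQS _ h1
  have hx1 : x₀.1 ∈ M := x₀.2.2
  have hx2 : x₀.1 ∈ O ∩ O' := ⟨x₀.2.1, h0⟩
  have hxW := (hin _ hx1 hx2).1
  have hst : HasStrictFDerivAt φ (fderiv ℝ φ x₀.1) x₀.1 :=
    (hφ.contDiffAt (hW.mem_nhds hxW)).hasStrictFDerivAt one_ne_zero
  have hcount := count_dim hd R (h.det _ hx1) h.card _ (hsurj _ hxW)
    (fun i j hij hR => root_kernel (hO.inter hO') (h.small i j hij hR)
      (fun g hg hgO => (hin g hg hgO).2) hx1 hx2 hst)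
    (fun i j => diag_kernel h.min.inv (hO.inter hO') (fun g hg hgO => (hin g hg hgO).2) hx1 hx2
      hst i j)
  rw [finrank_mat] at hr1
  have := hcount.1
  omega

/-- **The cone over a minimal set.** -/
theorem Rich.not_thin_cone (hd : 0 < d) {M : Set (Matrix (Fin d) (Fin d) ℝ)}
    {R : Fin d → Fin d → Prop} {s : ℕ} (h : Rich M R s) {n : ℕ} (hn : n + 1 ≤ d * s)
    {E : Set (Fin d → Fin d → ℝ)} (hE : ∀ c : ℝ, 0 < c → ∀ g ∈ M,
      c • (show Fin d → Fin d → ℝ from g) ∈ E) : ¬ Thin n E := by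
  intro hthin
  have : LocallyCompactSpace M := h.min.closed.locallyCompactSpace
  have : Nonempty M := h.min.ne.to_subtype
  let v : ℝ × M → (Fin d → Fin d → ℝ) := fun p =>
    Real.exp p.1 • (show Fin d → Fin d → ℝ from p.2.1)
  have hval : Continuous (fun p : ℝ × M => (show Fin d → Fin d → ℝ from p.2.1)) :=
    continuous_subtype_val.comp continuous_snd
  have hv : Continuous v := (Real.continuous_exp.comp continuous_fst).smul hval
  have hr : Set.range v ⊆ E := by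
    rintro _ ⟨p, rfl⟩
    exact hE _ (Real.exp_pos _) _ p.2.2
  obtain ⟨S, hS, Q, hQ, ⟨x₀, hx₀⟩, hQS⟩ := exists_piece hv (hthin.subset hr)
  obtain ⟨r, W, φ, hr1, hW, hφ, hsurj, rfl⟩ := hS
  have hQn : Q ∈ 𝓝 x₀ := hQ.mem_nhds hx₀
  rw [show x₀ = (x₀.1, x₀.2) from rfl, nhds_prod_eq] at hQn
  obtain ⟨A, hA, B, hB, hAB⟩ := Filter.mem_prod_iff.1 hQn
  obtain ⟨B', hB', hBO, hB1⟩ := mem_nhds_iff.1 hB
  obtain ⟨O', hO', hOQ⟩ := isOpen_induced_iff.1 hBO
  set c : ℝ := Real.exp x₀.1 with hc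
  have hc0 : 0 < c := Real.exp_pos _
  have h0 : x₀.2.1 ∈ O' := by
    have h1 : x₀.2 ∈ Subtype.val ⁻¹' O' := by rw [hOQ]; exact hB1
    exact h1
  have hin : ∀ t ∈ A, ∀ g ∈ M, g ∈ O' → (Real.exp t • (show Fin d → Fin d → ℝ from g)) ∈ W ∧
      φ (Real.exp t • (show Fin d → Fin d → ℝ from g)) = 0 := by
    intro t ht g hg hgO
    have h1 : (t, (⟨g, hg⟩ : M)) ∈ Q := by
      refine hAB ⟨ht, hB' ?_⟩
      rw [← hOQ]
      exact hgO
    exact hQS _ h1
  have hx1 : x₀.2.1 ∈ M := x₀.2.2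
  have hA0 : x₀.1 ∈ A := mem_of_mem_nhds hA
  have hxW := (hin _ hA0 _ hx1 h0).1
  have hst : HasStrictFDerivAt φ (fderiv ℝ φ (c • (show Fin d → Fin d → ℝ from x₀.2.1)))
      (c • (show Fin d → Fin d → ℝ from x₀.2.1)) :=
    (hφ.contDiffAt (hW.mem_nhds hxW)).hasStrictFDerivAt one_ne_zero
  set f' := fderiv ℝ φ (c • (show Fin d → Fin d → ℝ from x₀.2.1)) with hf'
  have hsm : HasStrictFDerivAt (fun g : Fin d → Fin d → ℝ => φ (c • g))
      (f'.comp (c • ContinuousLinearMap.id ℝ (Fin d → Fin d → ℝ)))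
      (show Fin d → Fin d → ℝ from x₀.2.1) :=
    HasStrictFDerivAt.comp (f := fun g : Fin d → Fin d → ℝ => c • g)
      (show Fin d → Fin d → ℝ from x₀.2.1) hst
      ((c • ContinuousLinearMap.id ℝ (Fin d → Fin d → ℝ)).hasStrictFDerivAt)
  have hcomp : ∀ z : Fin d → Fin d → ℝ,
      (f'.comp (c • ContinuousLinearMap.id ℝ (Fin d → Fin d → ℝ))) z = c • f' z := by
    intro z
    simp
  have hsurj' : Function.Surjective
      (f'.comp (c • ContinuousLinearMap.id ℝ (Fin d → Fin d → ℝ))) := by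
    intro y
    obtain ⟨z, hz⟩ := hsurj _ hxW (c⁻¹ • y)
    refine ⟨z, ?_⟩
    rw [hcomp, hz, smul_smul, mul_inv_cancel₀ hc0.ne', one_smul]
  have hcount := count_dim hd R (h.det _ hx1) h.card _ hsurj'
    (fun i j hij hR => root_kernel hO' (h.small i j hij hR)
      (fun g hg hgO => (hin _ hA0 g hg hgO).2) hx1 h0 hsm)
    (fun i j => diag_kernel h.min.inv hO' (fun g hg hgO => (hin _ hA0 g hg hgO).2) hx1 h0
      hsm i j)
  have hzero : (f'.comp (c • ContinuousLinearMap.id ℝ (Fin d → Fin d → ℝ)))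
      (show Fin d → Fin d → ℝ from x₀.2.1) = 0 := by
    have hγ : HasDerivAt (fun t : ℝ => Real.exp t • (show Fin d → Fin d → ℝ from x₀.2.1))
        (Real.exp x₀.1 • (show Fin d → Fin d → ℝ from x₀.2.1)) x₀.1 :=
      (Real.hasDerivAt_exp x₀.1).smul_const _
    have h1 := curve_zero (z := 0) hst.hasFDerivAt rfl hγ (by
      filter_upwards [hA] with t ht
      exact (hin t ht _ hx1 h0).2)
    rw [hcomp, ← map_smul]
    exact h1
  rw [finrank_mat] at hr1
  have := hcount.2 hzero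
  omega

/-- the values at integer points -/
noncomputable def val {m : ℕ} (x : Fin m → Fin d → ℤ) (h : Fin d → Fin d → ℝ) : Fin m → ℝ :=
  fun k => ∏ i, ∑ j, h i j * (x k j : ℝ)

lemma contDiff_val {m : ℕ} (x : Fin m → Fin d → ℤ) : ContDiff ℝ 1 (val (d := d) x) := by
  unfold val
  refine contDiff_pi.2 fun k => contDiff_prod fun i _ => ContDiff.sum fun j _ => ?_
  exact (contDiff_apply_apply ℝ ℝ i j).mul contDiff_const

/-- the values along a root direction -/
lemma val_line {m : ℕ} (x : Fin m → Fin d → ℤ) (h : Fin d → Fin d → ℝ) (i j : Fin d) (t : ℝ)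
    (k : Fin m) : val x (h + t • XX i j h) k = val x h k +
      t * ((∑ l, h j l * (x k l : ℝ)) * ∏ a ∈ Finset.univ.erase i, ∑ l, h a l * (x k l : ℝ)) := by
  unfold val
  rw [← Finset.mul_prod_erase _ _ (Finset.mem_univ i),
    ← Finset.mul_prod_erase _ _ (Finset.mem_univ i)]
  have h1 : ∏ a ∈ Finset.univ.erase i, ∑ l, (h + t • XX i j h) a l * (x k l : ℝ) =
      ∏ a ∈ Finset.univ.erase i, ∑ l, h a l * (x k l : ℝ) := by
    refine Finset.prod_congr rfl fun a ha => Finset.sum_congr rfl fun l _ => ?_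
    rw [Pi.add_apply, Pi.add_apply, Pi.smul_apply, Pi.smul_apply, XX_apply,
      if_neg (Finset.ne_of_mem_erase ha)]
    simp
  have h2 : ∑ l, (h + t • XX i j h) i l * (x k l : ℝ) =
      ∑ l, h i l * (x k l : ℝ) + t * ∑ l, h j l * (x k l : ℝ) := by
    rw [Finset.mul_sum, ← Finset.sum_add_distrib]
    refine Finset.sum_congr rfl fun l _ => ?_
    rw [Pi.add_apply, Pi.add_apply, Pi.smul_apply, Pi.smul_apply, XX_apply, if_pos rfl,
      smul_eq_mul]
    ring
  rw [h1, h2]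
  ring

/-- the derivative of the values in a root direction -/
lemma fderiv_val {m : ℕ} (x : Fin m → Fin d → ℤ) (h : Fin d → Fin d → ℝ) (i j : Fin d)
    (k : Fin m) : fderiv ℝ (val x) h (XX i j h) k =
      (∑ l, h j l * (x k l : ℝ)) * ∏ a ∈ Finset.univ.erase i, ∑ l, h a l * (x k l : ℝ) := by
  have h1 : HasFDerivAt (val x) (fderiv ℝ (val x) h) h :=
    ((contDiff_val x).differentiable one_ne_zero h).hasFDerivAt
  have h2 : HasDerivAt (fun t : ℝ => h + t • XX i j h) (XX i j h) 0 := by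
    have h3 := ((hasDerivAt_id (0 : ℝ)).smul_const (XX i j h)).const_add h
    simpa using h3
  have h3 : HasDerivAt (fun t : ℝ => val x (h + t • XX i j h)) (fderiv ℝ (val x) h (XX i j h)) 0 := by
    have h4 : HasFDerivAt (val x) (fderiv ℝ (val x) h) (h + (0 : ℝ) • XX i j h) := by
      simpa using h1
    exact h4.comp_hasDerivAt 0 h2
  have h5 := (hasDerivAt_pi.1 h3) k
  have h6 : HasDerivAt (fun t : ℝ => val x (h + t • XX i j h) k)
      ((∑ l, h j l * (x k l : ℝ)) * ∏ a ∈ Finset.univ.erase i, ∑ l, h a l * (x k l : ℝ)) 0 := by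
    have h7 : (fun t : ℝ => val x (h + t • XX i j h) k) = fun t => val x h k +
      t * ((∑ l, h j l * (x k l : ℝ)) * ∏ a ∈ Finset.univ.erase i, ∑ l, h a l * (x k l : ℝ)) := by
      funext t
      exact val_line x h i j t k
    rw [h7]
    have h8 := ((hasDerivAt_id (0 : ℝ)).mul_const ((∑ l, h j l * (x k l : ℝ)) *
      ∏ a ∈ Finset.univ.erase i, ∑ l, h a l * (x k l : ℝ))).const_add (val x h k)
    simpa using h8
  exact h5.unique h6

/-- **The linear algebra.** -/
lemma coeff_zero {m : ℕ} {y : Fin m → Fin d → ℝ} (hy : ∀ k i, y k i ≠ 0) {C : Fin d → Prop}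
    (hC : m < Nat.card {j // C j})
    (hli : LinearIndependent ℝ (fun k : Fin m => fun j : {j // C j} => y k j.1)) {c : Fin m → ℝ}
    (h0 : ∀ i j, i ≠ j → C i → C j →
      ∑ k, c k * (y k j * ∏ a ∈ Finset.univ.erase i, y k a) = 0) : ∀ k, c k = 0 := by
  classical
  set b : Fin m → ℝ := fun k => c k * ∏ a, y k a with hb
  have hprod : ∀ k, ∏ a, y k a ≠ 0 := fun k => Finset.prod_ne_zero_iff.2 fun a _ => hy k a
  have h1 : ∀ i j, i ≠ j → C i → C j → ∑ k, b k / y k i * y k j = 0 := by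
    intro i j hij hi hj
    rw [← h0 i j hij hi hj]
    refine Finset.sum_congr rfl fun k _ => ?_
    rw [hb]
    dsimp only
    rw [← Finset.mul_prod_erase _ _ (Finset.mem_univ i)]
    have := hy k i
    field_simp
  have h2 : ∀ i (hi : C i), ∑ k, (b k / y k i) • (fun j : {j // C j} => y k j.1) =
      (∑ k, b k) • (Pi.single ⟨i, hi⟩ (1 : ℝ) : {j // C j} → ℝ) := by
    intro i hi
    funext j
    rw [Finset.sum_apply]
    simp only [Pi.smul_apply, smul_eq_mul]
    by_cases hij : j = ⟨i, hi⟩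
    · subst hij
      rw [Pi.single_eq_same, mul_one]
      refine Finset.sum_congr rfl fun k _ => ?_
      exact div_mul_cancel₀ _ (hy k i)
    · rw [Pi.single_eq_of_ne hij, mul_zero]
      exact h1 i j.1 (fun h => hij (Subtype.ext h.symm)) hi j.2
  have hS : ∑ k, b k = 0 := by
    by_contra hS
    have h3 : Submodule.span ℝ (Set.range (fun k : Fin m => fun j : {j // C j} => y k j.1)) = ⊤ := by
      rw [eq_top_iff]
      intro z _
      have h4 : z = ∑ j, z j • (Pi.single j (1 : ℝ) : {j // C j} → ℝ) := by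
        funext a
        rw [Finset.sum_apply]
        simp [Pi.single_apply]
      rw [h4]
      refine Submodule.sum_mem _ fun j _ => Submodule.smul_mem _ _ ?_
      have h5 : (Pi.single j (1 : ℝ) : {j // C j} → ℝ) = (∑ k, b k)⁻¹ •
          ∑ k, (b k / y k j.1) • (fun j : {j // C j} => y k j.1) := by
        rw [h2 j.1 j.2, smul_smul, inv_mul_cancel₀ hS, one_smul]
      rw [h5]
      exact Submodule.smul_mem _ _ (Submodule.sum_mem _ fun k _ => Submodule.smul_mem _ _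
        (Submodule.subset_span ⟨k, rfl⟩))
    have h4 := finrank_range_le_card (R := ℝ) (fun k : Fin m => fun j : {j // C j} => y k j.1)
    rw [Set.finrank, h3, finrank_top, Module.finrank_fintype_fun_eq_card, Fintype.card_fin,
      ← Nat.card_eq_fintype_card] at h4
    omega
  intro k
  obtain ⟨i⟩ : Nonempty {j // C j} := by
    rw [← not_isEmpty_iff]
    intro h3
    rw [Nat.card_of_isEmpty] at hC
    omega
  have h3 := h2 i.1 i.2
  rw [hS, zero_smul] at h3
  have h4 := Fintype.linearIndependent_iff.1 hli _ h3 k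
  have h5 : b k = 0 := (div_eq_zero_iff.1 h4).resolve_right (hy k i.1)
  exact (mul_eq_zero.1 h5).resolve_right (hprod k)

/-- **The tuples of values are not thin.** -/
theorem Rich.not_thin_val {M : Set (Matrix (Fin d) (Fin d) ℝ)}
    {R : Fin d → Fin d → Prop} (hsymm : ∀ i j, R i j → R j i)
    (htrans : ∀ i j k, R i j → R j k → R i k) {s : ℕ} (h : Rich M R s)
    {O : Set (Matrix (Fin d) (Fin d) ℝ)} (hO : IsOpen O) (hne : (O ∩ M).Nonempty) {m n : ℕ}
    (hm : m < s) (hnm : n < m) {x : Fin m → Fin d → ℤ} (hx : ∀ k, x k ≠ 0) (i₀ : Fin d)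
    (hli : ∀ g ∈ O ∩ M, LinearIndependent ℝ (fun k : Fin m => fun j : {j // R i₀ j} =>
      ∑ l, g j.1 l * (x k l : ℝ))) :
    ¬ Thin n {w : Fin m → ℝ | ∃ g ∈ O ∩ M, w = val x g} := by
  intro hthin
  have := baire_piece h.min.closed hO
  have : Nonempty (O ∩ M : Set (Matrix (Fin d) (Fin d) ℝ)) := hne.to_subtype
  let v : (O ∩ M : Set (Matrix (Fin d) (Fin d) ℝ)) → (Fin m → ℝ) := fun g => val x g.1
  have hv : Continuous v := (contDiff_val x).continuous.comp continuous_subtype_val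
  have hr : Set.range v ⊆ {w : Fin m → ℝ | ∃ g ∈ O ∩ M, w = val x g} := by
    rintro _ ⟨g, rfl⟩
    exact ⟨g.1, g.2, rfl⟩
  obtain ⟨S, hS, Q, hQ, ⟨x₀, hx₀⟩, hQS⟩ := exists_piece hv (hthin.subset hr)
  obtain ⟨O', hO', hOQ⟩ := isOpen_induced_iff.1 hQ
  obtain ⟨r, W, φ, hr1, hW, hφ, hsurj, rfl⟩ := hS
  have h0 : x₀.1 ∈ O' := by
    have h1 : x₀ ∈ Subtype.val ⁻¹' O' := by rw [hOQ]; exact hx₀
    exact h1
  have hin : ∀ g ∈ M, g ∈ O ∩ O' → val x g ∈ W ∧ φ (val x g) = 0 := by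
    intro g hg hgO
    have h1 : (⟨g, hgO.1, hg⟩ : (O ∩ M : Set (Matrix (Fin d) (Fin d) ℝ))) ∈ Q := by
      rw [← hOQ]
      exact hgO.2
    exact hQS _ h1
  have hx1 : x₀.1 ∈ M := x₀.2.2
  have hx2 : x₀.1 ∈ O ∩ O' := ⟨x₀.2.1, h0⟩
  have hxW := (hin _ hx1 hx2).1
  have hst : HasStrictFDerivAt φ (fderiv ℝ φ (val x x₀.1)) (val x x₀.1) :=
    (hφ.contDiffAt (hW.mem_nhds hxW)).hasStrictFDerivAt one_ne_zero
  have hst2 : HasStrictFDerivAt (val x) (fderiv ℝ (val x) x₀.1)
      (show Fin d → Fin d → ℝ from x₀.1) :=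
    (contDiff_val x).contDiffAt.hasStrictFDerivAt one_ne_zero
  have hst3 := HasStrictFDerivAt.comp (show Fin d → Fin d → ℝ from x₀.1) hst hst2
  have hrpos : 0 < r := by
    rw [Module.finrank_fintype_fun_eq_card, Fintype.card_fin] at hr1
    omega
  -- a linear functional
  set e₀ : Fin r := ⟨0, hrpos⟩ with he₀
  set f' := fderiv ℝ φ (val x x₀.1) with hf'
  set c : Fin m → ℝ := fun k => f' (Pi.single k 1) e₀ with hc
  have hcf : ∀ w : Fin m → ℝ, f' w e₀ = ∑ k, c k * w k := by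
    intro w
    have h1 : w = ∑ k, w k • (Pi.single k (1 : ℝ) : Fin m → ℝ) := by
      funext a
      rw [Finset.sum_apply]
      simp [Pi.single_apply]
    conv_lhs => rw [h1]
    rw [map_sum, Finset.sum_apply]
    refine Finset.sum_congr rfl fun k _ => ?_
    rw [map_smul, Pi.smul_apply, smul_eq_mul, mul_comm]
  have hkey : ∀ i j, i ≠ j → R i₀ i → R i₀ j →
      ∑ k, c k * ((∑ l, x₀.1 j l * (x k l : ℝ)) *
        ∏ a ∈ Finset.univ.erase i, ∑ l, x₀.1 a l * (x k l : ℝ)) = 0 := by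
    intro i j hij hi hj
    have h1 := root_kernel (hO.inter hO') (h.small i j hij (htrans _ _ _ (hsymm _ _ hi) hj))
      (f := φ ∘ val x) (z := 0)
      (fun g hg hgO => (hin g hg hgO).2) hx1 hx2 hst3
    rw [ContinuousLinearMap.comp_apply] at h1
    have h2 := congrFun h1 e₀
    rw [hcf] at h2
    simp only [fderiv_val] at h2
    exact h2
  have hcz := coeff_zero (y := fun k i => ∑ l, x₀.1 i l * (x k l : ℝ))
    (fun k i => h.nz _ hx1 _ (hx k) i) (C := R i₀) (by rw [h.card]; exact hm) (hli _ x₀.2) hkey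
  obtain ⟨w, hw⟩ := hsurj _ hxW (fun _ => 1)
  have h1 := congrFun hw e₀
  rw [hcf] at h1
  simp only [hcz, zero_mul, Finset.sum_const_zero] at h1
  exact zero_ne_one h1

end Pool.Agent.Q34.CSDThin
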