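import Mathlib
import Pool.Agent.Q34.CSD.ThinThm

/-! # The minimal sets of a counterexample are rich -/

open Filter Topology Matrix

namespace Pool.Agent.Q34.CSDThin

open Y327 H715R2

variable {d : ℕ}

lemma FF_val {m : ℕ} (x : Fin m → Fin d → ℤ) (h : Matrix (Fin d) (Fin d) ℝ) (k : Fin m) :
    val x h k = FF h (iR (x k)) := rfl

/-- **Minimal sets of a counterexample.** -/
theorem exists_rich (hd : 3 ≤ d) {g : Matrix (Fin d) (Fin d) ℝ} (hg : g.det ≠ 0)
    (hint : ¬ H715R2.PropInt g) {ν : ℝ} (hν : 0 < ν) (hnu : HasNu g ν)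
    {M : Set (Matrix (Fin d) (Fin d) ℝ)}
    (hMg : M ⊆ closure (Orb g)) (hM : MinB id M) {h₀ : Matrix (Fin d) (Fin d) ℝ} (hh₀ : h₀ ∈ M) :
    ∃ s : ℕ, 1 < s ∧ s ∣ d ∧ Rich M (Sam h₀) s := by
  classical
  have hd0 : 0 < d := by omega
  have hMdet : ∀ h ∈ M, |h.det| = |g.det| := fun h hh => abs_det_closure (hMg hh)
  have hMnu : ∀ h ∈ M, HasNu h ν := fun h hh => hasNu_closure hnu (hMg hh)
  have hu : ∀ h ∈ M, IsUnit h.det := fun h hh => by
    rw [isUnit_iff_ne_zero, ← abs_ne_zero, hMdet h hh, abs_ne_zero]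
    exact hg
  obtain ⟨s, hs1, hs2⟩ := class_sizes hd hg hν hnu hMg hM hh₀ (hu h₀ hh₀)
  refine ⟨s, ?_, ⟨_, hs1.symm⟩, hM, fun i j hij hs => ?_, hs2, hu, fun h hh x hx i h0 => ?_⟩
  · set i₀ : Fin d := ⟨0, hd0⟩ with hi₀
    obtain ⟨j, hji, hj⟩ := class_nontrivial hd hg hν hnu hint hMg hM hh₀ i₀
    rw [← hs2 i₀, Nat.card_eq_fintype_card, Fintype.one_lt_card_iff]
    exact ⟨⟨i₀, Sam.refl _ _⟩, ⟨j, hj⟩, fun h => hji (congrArg Subtype.val h).symm⟩
  · obtain ⟨h₂, hh₂, hw₂⟩ := root_dir hd hg hν hnu hMg hM hh₀ hij hs 1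
    exact small_pairs hd0 (abs_pos.2 hg) hν hMdet hMnu hM hij one_ne_zero hh₂ hw₂
  · have h1 := hMnu h hh x hx
    have h2 : FF h (iR x) = 0 := Finset.prod_eq_zero (Finset.mem_univ i) h0
    rw [h2, abs_zero] at h1
    exact absurd h1 (not_le.2 hν)

/-- columns which are independent on a class -/
lemma exists_columns {h : Matrix (Fin d) (Fin d) ℝ} (hu : IsUnit h.det) (C : Fin d → Prop)
    {m : ℕ} (hm : m ≤ Nat.card {j // C j}) : ∃ c : Fin m → Fin d, Function.Injective c ∧
      LinearIndependent ℝ (fun k : Fin m => fun j : {j // C j} => h j.1 (c k)) := by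
  classical
  set w : Fin d → ({j // C j} → ℝ) := fun l j => h j.1 l with hw
  have hspan : Submodule.span ℝ (Set.range w) = ⊤ := by
    rw [eq_top_iff]
    intro z _
    set z' : Fin d → ℝ := fun i => if hi : C i then z ⟨i, hi⟩ else 0 with hz'
    set x : Fin d → ℝ := h⁻¹ *ᵥ z' with hx
    have h1 : h *ᵥ x = z' := by
      rw [hx, Matrix.mulVec_mulVec, Matrix.mul_nonsing_inv _ hu, Matrix.one_mulVec]
    have h2 : z = ∑ l, x l • w l := by
      funext j
      rw [Finset.sum_apply]
      have h3 := congrFun h1 j.1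
      rw [hz'] at h3
      dsimp only at h3
      rw [dif_pos j.2] at h3
      rw [← h3]
      simp only [Matrix.mulVec, dotProduct, Pi.smul_apply, smul_eq_mul, hw]
      exact Finset.sum_congr rfl fun l _ => mul_comm _ _
    rw [h2]
    exact Submodule.sum_mem _ fun l _ => Submodule.smul_mem _ _ (Submodule.subset_span ⟨l, rfl⟩)
  obtain ⟨κ, a, ha, ha1, ha2⟩ := exists_linearIndependent' ℝ w
  have : Finite κ := Finite.of_injective a ha
  have : Fintype κ := Fintype.ofFinite κ
  have h1 := finrank_range_le_card (R := ℝ) (w ∘ a)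
  rw [Set.finrank, ha1, hspan, finrank_top, Module.finrank_fintype_fun_eq_card,
    ← Nat.card_eq_fintype_card] at h1
  obtain ⟨e⟩ : Nonempty (Fin m ↪ κ) := by
    refine Function.Embedding.nonempty_of_card_le ?_
    rw [Fintype.card_fin]
    omega
  exact ⟨a ∘ e, ha.comp e.injective, ha2.comp e e.injective⟩

/-- the columns stay independent nearby -/
lemma isOpen_columns (C : Fin d → Prop) {m : ℕ} (x : Fin m → Fin d → ℤ) :
    IsOpen {h : Matrix (Fin d) (Fin d) ℝ | LinearIndependent ℝ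
      (fun k : Fin m => fun j : {j // C j} => ∑ l, h j.1 l * (x k l : ℝ))} := by
  classical
  have h1 : Continuous (fun h : Matrix (Fin d) (Fin d) ℝ =>
      (fun k : Fin m => fun j : {j // C j} => ∑ l, h j.1 l * (x k l : ℝ))) := by
    refine continuous_pi fun k => continuous_pi fun j => continuous_finsetSum _ fun l _ => ?_
    exact (continuous_apply_apply j.1 l).mul continuous_const
  exact (isOpen_setOfPred_linearIndependent (𝕜 := ℝ) (E := {j // C j} → ℝ) (ι := Fin m)).preimage h1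

/-- the values at the members of a basis -/
def Tuples (m : ℕ) (g : Matrix (Fin d) (Fin d) ℝ) : Set (Fin m → ℝ) :=
  {w | ∃ (γ : Matrix (Fin d) (Fin d) ℤ) (c : Fin m → Fin d), IsUnit γ.det ∧
    Function.Injective c ∧ ∀ k, w k = FF g (iR (fun i => γ i (c k)))}

lemma val_mem {g h : Matrix (Fin d) (Fin d) ℝ} (hh : h ∈ closure (Orb g)) {m : ℕ}
    {c : Fin m → Fin d} (hc : Function.Injective c) :
    val (fun k => Pi.single (c k) 1) h ∈ closure (Tuples m g) := by
  have hcont : Continuous (fun h : Matrix (Fin d) (Fin d) ℝ =>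
      val (fun k => Pi.single (c k) 1) h) := (contDiff_val _).continuous
  refine map_mem_closure hcont hh ?_
  rintro _ ⟨a, γ, ha0, ha1, hγ, rfl⟩
  refine ⟨γ, c, hγ, hc, fun k => ?_⟩
  rw [FF_val, FF, FF]
  have h1 : ∀ i, ∑ j, (diagonal a * g * zR γ) i j * iR (Pi.single (c k) 1) j =
      a i * ∑ j, g i j * iR (fun i => γ i (c k)) j := by
    intro i
    rw [Finset.sum_eq_single (c k)]
    · rw [Matrix.mul_assoc, Matrix.diagonal_mul, Matrix.mul_apply]
      simp [iR, zR]
    · intro j _ hj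
      simp [iR, Pi.single_eq_of_ne hj]
    · intro h2
      exact absurd (Finset.mem_univ _) h2
  rw [Finset.prod_congr rfl fun i _ => h1 i, Finset.prod_mul_distrib, ha1, one_mul]

/-- monomial matrices -/
lemma monomial_rows {B : Matrix (Fin d) (Fin d) ℝ} {c : ℝ} (hc : c ≠ 0)
    (hB : ∀ y : Fin d → ℝ, ∏ i, (B *ᵥ y) i = c * ∏ i, y i) :
    ∃ σ : Fin d → Fin d, ∀ i j, j ≠ σ i → B i j = 0 := by
  classical
  have h1 : ∀ i, ∃ j, ∀ k, k ≠ j → B i k = 0 := by
    intro i
    by_contra hcon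
    push Not at hcon
    obtain ⟨j, hj, hBj⟩ := hcon i
    obtain ⟨k, hk, hBk⟩ := hcon j
    -- a point on the hyperplane with nonzero coordinates
    set q : ℝ := ∑ l ∈ (Finset.univ.erase j).erase k, B i l with hq
    obtain ⟨t, ht0, ht1⟩ : ∃ t : ℝ, t ≠ 0 ∧ q + t * B i k ≠ 0 := by
      by_cases h2 : q + 1 * B i k = 0
      · refine ⟨2, two_ne_zero, fun h3 => hBk ?_⟩
        linarith
      · exact ⟨1, one_ne_zero, h2⟩
    set y : Fin d → ℝ := fun l => if l = j then -(q + t * B i k) / B i j else if l = k then t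
      else 1 with hy
    have hy0 : ∀ l, y l ≠ 0 := by
      intro l
      rw [hy]
      dsimp only
      split_ifs
      · exact div_ne_zero (neg_ne_zero.2 ht1) hBj
      · exact ht0
      · exact one_ne_zero
    have h2 : (B *ᵥ y) i = 0 := by
      rw [Matrix.mulVec, dotProduct, ← Finset.add_sum_erase _ _ (Finset.mem_univ j),
        ← Finset.add_sum_erase _ _ (Finset.mem_erase.2 ⟨hk, Finset.mem_univ k⟩)]
      have h3 : ∑ l ∈ (Finset.univ.erase j).erase k, B i l * y l = q := by
        rw [hq]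
        refine Finset.sum_congr rfl fun l hl => ?_
        rw [Finset.mem_erase, Finset.mem_erase] at hl
        rw [hy]
        dsimp only
        rw [if_neg hl.2.1, if_neg hl.1, mul_one]
      rw [h3]
      simp only [hy, if_true, if_neg hk]
      field_simp
      ring
    have h3 := hB y
    rw [Finset.prod_eq_zero (Finset.mem_univ i) h2] at h3
    exact (mul_ne_zero hc (Finset.prod_ne_zero_iff.2 fun l _ => hy0 l)) h3.symm
  choose σ hσ using h1
  exact ⟨σ, fun i j hj => hσ i j hj⟩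

/-- linear subspaces given by zero entries -/
lemma thin_monomial {h : Matrix (Fin d) (Fin d) ℝ} (hu : IsUnit h.det) (σ : Fin d → Fin d) :
    Thin d {x : Fin d → Fin d → ℝ | ∀ i j, j ≠ σ i → (Matrix.of x * h⁻¹) i j = 0} := by
  classical
  set T := {p : Fin d × Fin d // p.2 ≠ σ p.1} with hT
  have hcard : d * d ≤ d + Fintype.card T := by
    have h1 : Fintype.card {p : Fin d × Fin d // ¬ p.2 ≠ σ p.1} ≤ d := by
      have h3 : Function.Injective (fun p : {p : Fin d × Fin d // ¬ p.2 ≠ σ p.1} => p.1.1) := by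
        rintro ⟨⟨a, b⟩, hp⟩ ⟨⟨a', b'⟩, hp'⟩ h4
        dsimp only at h4 hp hp'
        subst h4
        rw [not_not] at hp hp'
        subst hp hp'
        rfl
      exact (Fintype.card_le_of_injective _ h3).trans (by simp)
    have h2 := Fintype.card_subtype_compl (fun p : Fin d × Fin d => p.2 ≠ σ p.1)
    rw [Fintype.card_prod, Fintype.card_fin] at h2
    have h5 : Fintype.card T = Fintype.card {p : Fin d × Fin d // p.2 ≠ σ p.1} := rfl
    have h6 : Fintype.card {p : Fin d × Fin d // p.2 ≠ σ p.1} ≤ Fintype.card (Fin d × Fin d) :=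
      Fintype.card_subtype_le _
    rw [Fintype.card_prod, Fintype.card_fin] at h6
    rw [h5]
    have h7 : d * d - Fintype.card {p : Fin d × Fin d // p.2 ≠ σ p.1} ≤ d := by
      rw [← h2]
      exact h1
    omega
  let e := Fintype.equivFin T
  let φ : (Fin d → Fin d → ℝ) →ₗ[ℝ] (Fin (Fintype.card T) → ℝ) :=
    { toFun := fun x k => (Matrix.of x * h⁻¹) (e.symm k).1.1 (e.symm k).1.2
      map_add' := fun x y => by
        funext p
        rw [← Matrix.of_add_of, Matrix.add_mul]
        rfl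
      map_smul' := fun c x => by
        funext p
        rw [← Matrix.smul_of, Matrix.smul_mul]
        rfl }
  have hsurj : Function.Surjective φ := by
    intro b
    set B : Matrix (Fin d) (Fin d) ℝ := fun i j => if hij : j ≠ σ i then b (e ⟨(i, j), hij⟩) else 0
      with hB
    refine ⟨fun i j => (B * h) i j, ?_⟩
    funext k
    have h1 : φ (fun i j => (B * h) i j) k = (B * h * h⁻¹) (e.symm k).1.1 (e.symm k).1.2 := rfl
    rw [h1, Matrix.mul_assoc, Matrix.mul_nonsing_inv _ hu, Matrix.mul_one, hB]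
    dsimp only
    rw [dif_pos (e.symm k).2]
    congr 1
    exact e.apply_symm_apply k
  have h1 := piece_ker (n := d) (LinearMap.toContinuousLinearMap φ) hsurj
    (by rw [finrank_mat]; exact hcard)
  refine ⟨fun _ => _, fun _ => h1, ?_⟩
  intro x hx
  refine Set.mem_iUnion.2 ⟨0, ?_⟩
  have h2 : φ x = 0 := by
    funext k
    exact hx _ _ (e.symm k).2
  exact h2

lemma countable_mvpoly' (d : ℕ) : Countable (MvPolynomial (Fin d) ℤ) := by
  rw [← Cardinal.mk_le_aleph0_iff]
  refine MvPolynomial.cardinalMk_le_max.trans ?_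
  simp only [max_le_iff, Cardinal.mk_le_aleph0_iff, le_refl, and_true]
  exact ⟨inferInstance, inferInstance⟩

/-- **The forms which are proportional to integral forms are thin.** -/
theorem thin_propInt : Thin d {x : Fin d → Fin d → ℝ | (Matrix.of x).det ≠ 0 ∧
    H715R2.PropInt (Matrix.of x)} := by
  classical
  set EG : MvPolynomial (Fin d) ℤ → Set (Fin d → Fin d → ℝ) := fun G =>
    {x | (Matrix.of x).det ≠ 0 ∧ ∃ c : ℝ, c ≠ 0 ∧
      MvPolynomial.map (Int.castRingHom ℝ) G = c • polyF (Matrix.of x)} with hEG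
  have h1 : ∀ G, Thin d (EG G) := by
    intro G
    rcases (EG G).eq_empty_or_nonempty with h0 | ⟨x₀, hx₀, c₀, hc₀, hG₀⟩
    · rw [h0]
      exact thin_countable Set.countable_empty d
    have hu : IsUnit (Matrix.of x₀).det := isUnit_iff_ne_zero.2 hx₀
    refine (thin_iUnion (fun σ : Fin d → Fin d => thin_monomial hu σ)).subset ?_
    rintro x ⟨-, c, hc, hG⟩
    have h2 : ∀ y : Fin d → ℝ, ∏ i, ((Matrix.of x * (Matrix.of x₀)⁻¹) *ᵥ y) i =
        (c₀ / c) * ∏ i, y i := by
      intro y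
      set z : Fin d → ℝ := (Matrix.of x₀)⁻¹ *ᵥ y with hz
      have h3 : ∀ g : Matrix (Fin d) (Fin d) ℝ, MvPolynomial.eval z (polyF g) =
          ∏ i, (g *ᵥ z) i := fun g => eval_polyF g z
      have h4 : c * ∏ i, (Matrix.of x *ᵥ z) i = c₀ * ∏ i, (Matrix.of x₀ *ᵥ z) i := by
        rw [← h3, ← h3, ← MvPolynomial.smul_eval, ← MvPolynomial.smul_eval, ← hG, ← hG₀]
      rw [← Matrix.mulVec_mulVec, ← hz]
      have h5 : Matrix.of x₀ *ᵥ z = y := by
        rw [hz, Matrix.mulVec_mulVec, Matrix.mul_nonsing_inv _ hu, Matrix.one_mulVec]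
      rw [h5] at h4
      field_simp
      rw [mul_comm]
      exact h4
    obtain ⟨σ, hσ⟩ := monomial_rows (div_ne_zero hc₀ hc) h2
    exact Set.mem_iUnion.2 ⟨σ, hσ⟩
  have : Countable (MvPolynomial (Fin d) ℤ) := countable_mvpoly' d
  refine (thin_iUnion h1).subset ?_
  rintro x ⟨hx, c, hc, hcoef⟩
  have h2 : c • polyF (Matrix.of x) ∈
      Set.range (MvPolynomial.map (σ := Fin d) (Int.castRingHom ℝ)) := by
    rw [MvPolynomial.mem_range_map_iff_coeffs_subset]
    intro z hz
    rw [Finset.mem_coe, MvPolynomial.mem_coeffs_iff] at hz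
    obtain ⟨m, -, rfl⟩ := hz
    obtain ⟨z, hz⟩ := hcoef m
    exact ⟨z, by rw [hz]; rfl⟩
  obtain ⟨G, hG⟩ := h2
  exact Set.mem_iUnion.2 ⟨G, hx, c, hc, hG⟩

/-- the values of an integral form -/
theorem countable_tuples {m : ℕ} {g : Matrix (Fin d) (Fin d) ℝ} (hP : H715R2.PropInt g) :
    (closure (Tuples m g)).Countable := by
  obtain ⟨c, hc, hcoef⟩ := hP
  have h2 : c • polyF g ∈ Set.range (MvPolynomial.map (σ := Fin d) (Int.castRingHom ℝ)) := by
    rw [MvPolynomial.mem_range_map_iff_coeffs_subset]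
    intro z hz
    rw [Finset.mem_coe, MvPolynomial.mem_coeffs_iff] at hz
    obtain ⟨m, -, rfl⟩ := hz
    obtain ⟨z, hz⟩ := hcoef m
    exact ⟨z, by rw [hz]; rfl⟩
  obtain ⟨G, hG⟩ := h2
  have h3 : ∀ x : Fin d → ℤ, ∃ z : ℤ, c * FF g (iR x) = (z : ℝ) := by
    intro x
    refine ⟨MvPolynomial.eval x G, ?_⟩
    have h4 : c * FF g (iR x) = MvPolynomial.eval (iR x) (c • polyF g) := by
      rw [MvPolynomial.smul_eval, eval_polyF]
      rfl
    rw [h4, ← hG, MvPolynomial.eval_map]
    have h5 : (Int.castRingHom ℝ) (MvPolynomial.eval x G) = MvPolynomial.eval₂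
        ((Int.castRingHom ℝ).comp (RingHom.id ℤ)) ((Int.castRingHom ℝ) ∘ x) G := by
      rw [MvPolynomial.eval]
      exact MvPolynomial.eval₂_comp_left _ _ _ _
    rw [RingHom.comp_id] at h5
    exact h5.symm
  have h4 : closure (Tuples m g) ⊆ {w : Fin m → ℝ | ∀ k, c * w k ∈ Set.range (Int.cast : ℤ → ℝ)} := by
    refine closure_minimal ?_ ?_
    · rintro w ⟨γ, b, -, -, hw⟩ k
      obtain ⟨z, hz⟩ := h3 (fun i => γ i (b k))
      exact ⟨z, by rw [hw k, hz]⟩
    · rw [Set.ofPred_forall]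
      refine isClosed_iInter fun k => ?_
      exact Int.isClosedEmbedding_coe_real.isClosed_range.preimage
        (continuous_const.mul (continuous_apply k))
  refine Set.Countable.mono h4 ?_
  have h5 : {w : Fin m → ℝ | ∀ k, c * w k ∈ Set.range (Int.cast : ℤ → ℝ)} ⊆
      Set.range (fun z : Fin m → ℤ => fun k => (z k : ℝ) / c) := by
    intro w hw
    choose z hz using hw
    refine ⟨z, ?_⟩
    funext k
    dsimp only
    rw [hz k]
    field_simp
  exact (Set.countable_range _).mono h5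

end Pool.Agent.Q34.CSDThin
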