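import Mathlib
import Pool.Agent.Q34.CSD.ThinRich

/-! # Smooth images of minimal sets are not thin -/

open Filter Topology Matrix

namespace Pool.Agent.Q34.CSDThin

open Y327 H715R2

variable {d : ℕ}

/-- **Smooth images.** -/
theorem Rich.not_thin_map {M : Set (Matrix (Fin d) (Fin d) ℝ)}
    {R : Fin d → Fin d → Prop} {s : ℕ} (h : Rich M R s)
    {V : Type*} [NormedAddCommGroup V] [NormedSpace ℝ V] [FiniteDimensional ℝ V]
    {O : Set (Matrix (Fin d) (Fin d) ℝ)} (hO : IsOpen O) (hne : (O ∩ M).Nonempty)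
    {v : (Fin d → Fin d → ℝ) → V} (hv : ∀ g ∈ O ∩ M, ContDiffAt ℝ 1 v g) {n : ℕ}
    (hspan : ∀ g ∈ O ∩ M, ∀ W' : Submodule ℝ V,
      (∀ i j, i ≠ j → R i j → fderiv ℝ v g (XX i j g) ∈ W') →
      (∀ i j, fderiv ℝ v g (XX i i g) - fderiv ℝ v g (XX j j g) ∈ W') →
      n < Module.finrank ℝ W') :
    ¬ Thin n {w : V | ∃ g ∈ O ∩ M, w = v g} := by
  intro hthin
  have := baire_piece h.min.closed hO
  have : Nonempty (O ∩ M : Set (Matrix (Fin d) (Fin d) ℝ)) := hne.to_subtype
  let v' : (O ∩ M : Set (Matrix (Fin d) (Fin d) ℝ)) → V := fun g => v g.1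
  let ι : (O ∩ M : Set (Matrix (Fin d) (Fin d) ℝ)) → (Fin d → Fin d → ℝ) := fun x => x.1
  have hι : Continuous ι := continuous_subtype_val
  have hv' : Continuous v' := by
    rw [continuous_iff_continuousAt]
    intro g
    exact ContinuousAt.comp (g := v) (f := ι) (hv g.1 g.2).continuousAt hι.continuousAt
  have hr : Set.range v' ⊆ {w : V | ∃ g ∈ O ∩ M, w = v g} := by
    rintro _ ⟨g, rfl⟩
    exact ⟨g.1, g.2, rfl⟩
  obtain ⟨S, hS, Q, hQ, ⟨x₀, hx₀⟩, hQS⟩ := exists_piece hv' (hthin.subset hr)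
  obtain ⟨O', hO', hOQ⟩ := isOpen_induced_iff.1 hQ
  obtain ⟨r, W, φ, hr1, hW, hφ, hsurj, rfl⟩ := hS
  have h0 : x₀.1 ∈ O' := by
    have h1 : x₀ ∈ Subtype.val ⁻¹' O' := by rw [hOQ]; exact hx₀
    exact h1
  have hin : ∀ g ∈ M, g ∈ O ∩ O' → v g ∈ W ∧ φ (v g) = 0 := by
    intro g hg hgO
    have h1 : (⟨g, hgO.1, hg⟩ : (O ∩ M : Set (Matrix (Fin d) (Fin d) ℝ))) ∈ Q := by
      rw [← hOQ]
      exact hgO.2
    exact hQS _ h1
  have hx1 : x₀.1 ∈ M := x₀.2.2
  have hx2 : x₀.1 ∈ O ∩ O' := ⟨x₀.2.1, h0⟩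
  have hxW := (hin _ hx1 hx2).1
  have hst : HasStrictFDerivAt φ (fderiv ℝ φ (v x₀.1)) (v x₀.1) :=
    (hφ.contDiffAt (hW.mem_nhds hxW)).hasStrictFDerivAt one_ne_zero
  have hst2 : HasStrictFDerivAt v (fderiv ℝ v x₀.1) (show Fin d → Fin d → ℝ from x₀.1) :=
    (hv _ x₀.2).hasStrictFDerivAt one_ne_zero
  have hst3 := HasStrictFDerivAt.comp (show Fin d → Fin d → ℝ from x₀.1) hst hst2
  set f' := fderiv ℝ φ (v x₀.1) with hf'
  have h1 := hspan _ x₀.2 (LinearMap.ker f'.toLinearMap)
    (fun i j hij hR => by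
      have h1 := root_kernel (hO.inter hO') (h.small i j hij hR)
        (f := φ ∘ v) (z := 0)
        (fun g hg hgO => (hin g hg hgO).2) hx1 hx2 hst3
      rw [ContinuousLinearMap.comp_apply] at h1
      exact h1)
    (fun i j => by
      have h1 := diag_kernel h.min.inv (hO.inter hO')
        (f := φ ∘ v) (z := 0)
        (fun g hg hgO => (hin g hg hgO).2) hx1 hx2 hst3 i j
      rw [ContinuousLinearMap.comp_apply, ContinuousLinearMap.comp_apply] at h1
      rw [LinearMap.mem_ker]
      show f' _ = 0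
      rw [map_sub, h1, sub_self])
  have e2 := LinearMap.finrank_range_add_finrank_ker f'.toLinearMap
  rw [LinearMap.range_eq_top.2 (hsurj _ hxW), finrank_top] at e2
  have e3 : Module.finrank ℝ (Fin r → ℝ) = r := by simp
  rw [e3] at e2
  omega

/-- the images of the points `x k`, as a linear map of the matrix -/
noncomputable def cols {m : ℕ} (x : Fin m → Fin d → ℤ) :
    (Fin d → Fin d → ℝ) →L[ℝ] (Fin m → Fin d → ℝ) :=
  ContinuousLinearMap.pi fun k => ContinuousLinearMap.pi fun i =>
    ∑ l, ((x k l : ℝ)) • ((ContinuousLinearMap.proj (R := ℝ) (φ := fun _ : Fin d => ℝ) l).comp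
      (ContinuousLinearMap.proj (R := ℝ) (φ := fun _ : Fin d => Fin d → ℝ) i))

lemma cols_apply {m : ℕ} (x : Fin m → Fin d → ℤ) (h : Fin d → Fin d → ℝ) (k : Fin m)
    (i : Fin d) : cols x h k i = ∑ l, h i l * (x k l : ℝ) := by
  rw [cols, ContinuousLinearMap.pi_apply, ContinuousLinearMap.pi_apply,
    ContinuousLinearMap.sum_apply]
  refine Finset.sum_congr rfl fun l _ => ?_
  rw [ContinuousLinearMap.smul_apply, ContinuousLinearMap.comp_apply]
  simp [mul_comm]

lemma cols_XX {m : ℕ} (x : Fin m → Fin d → ℤ) (h : Fin d → Fin d → ℝ) (i j : Fin d)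
    (k : Fin m) (a : Fin d) : cols x (XX i j h) k a = if a = i then cols x h k j else 0 := by
  rw [cols_apply, cols_apply]
  simp only [XX_apply]
  split_ifs
  · rfl
  · simp

/-- subspaces which contain the images of the root directions and of the diagonal directions -/
lemma top_of_cols {m : ℕ} (hm : m < d) {x : Fin m → Fin d → ℤ} {h : Fin d → Fin d → ℝ}
    (hli : LinearIndependent ℝ (cols x h))
    {W' : Submodule ℝ (Fin m → Fin d → ℝ)}
    (h1 : ∀ i j, i ≠ j → cols x (XX i j h) ∈ W')
    (h2 : ∀ i j, cols x (XX i i h) - cols x (XX j j h) ∈ W') : W' = ⊤ := by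
  classical
  by_contra hne
  obtain ⟨f, hf0, hfW⟩ : ∃ f : Module.Dual ℝ (Fin m → Fin d → ℝ), f ≠ 0 ∧ ∀ w ∈ W', f w = 0 := by
    obtain ⟨f, hf, hW⟩ := Submodule.exists_le_ker_of_lt_top W' (lt_top_iff_ne_top.2 hne)
    exact ⟨f, hf, fun w hw => hW hw⟩
  -- coordinates of the functional
  set c : Fin m → Fin d → ℝ := fun k a => f (Pi.single k (Pi.single a 1)) with hc
  have hfc : ∀ z : Fin m → Fin d → ℝ, f z = ∑ k, ∑ a, c k a * z k a := by
    intro z
    have e1 : z = ∑ k, ∑ a, z k a • (Pi.single k (Pi.single a (1 : ℝ)) : Fin m → Fin d → ℝ) := by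
      funext k' a'
      simp only [Finset.sum_apply, Pi.smul_apply, smul_eq_mul]
      rw [Finset.sum_eq_single k']
      · rw [Finset.sum_eq_single a']
        · simp
        · intro b _ hb
          simp [Pi.single_eq_of_ne hb.symm]
        · intro h0
          exact absurd (Finset.mem_univ _) h0
      · intro b _ hb
        refine Finset.sum_eq_zero fun a _ => ?_
        rw [Pi.single_eq_of_ne hb.symm]
        simp
      · intro h0
        exact absurd (Finset.mem_univ _) h0
    conv_lhs => rw [e1]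
    rw [map_sum]
    refine Finset.sum_congr rfl fun k _ => ?_
    rw [map_sum]
    refine Finset.sum_congr rfl fun a _ => ?_
    rw [map_smul, smul_eq_mul, mul_comm]
  set y := cols x h with hy
  have hXX : ∀ i j, f (cols x (XX i j h)) = ∑ k, c k i * y k j := by
    intro i j
    rw [hfc]
    refine Finset.sum_congr rfl fun k _ => ?_
    rw [Finset.sum_eq_single i]
    · rw [cols_XX, if_pos rfl]
    · intro a _ ha
      rw [cols_XX, if_neg ha, mul_zero]
    · intro h0
      exact absurd (Finset.mem_univ _) h0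
  have h3 : ∀ i j, i ≠ j → ∑ k, c k i * y k j = 0 := by
    intro i j hij
    rw [← hXX]
    exact hfW _ (h1 i j hij)
  have hd0 : 0 < d := by omega
  set i₀ : Fin d := ⟨0, hd0⟩ with hi₀
  set S := ∑ k, c k i₀ * y k i₀ with hS
  have h4 : ∀ i, ∑ k, c k i * y k i = S := by
    intro i
    have := hfW _ (h2 i i₀)
    rw [map_sub, hXX, hXX] at this
    linarith
  have h5 : ∀ i, ∑ k, c k i • y k = S • (Pi.single i (1 : ℝ) : Fin d → ℝ) := by
    intro i
    funext j
    rw [Finset.sum_apply]
    simp only [Pi.smul_apply, smul_eq_mul]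
    by_cases hij : j = i
    · subst hij
      rw [Pi.single_eq_same, mul_one]
      exact h4 _
    · rw [Pi.single_eq_of_ne hij, mul_zero]
      exact h3 i j (Ne.symm hij)
  have hS0 : S = 0 := by
    by_contra hS0
    have h6 : Submodule.span ℝ (Set.range y) = ⊤ := by
      rw [eq_top_iff]
      intro z _
      have h7 : z = ∑ j, z j • (Pi.single j (1 : ℝ) : Fin d → ℝ) := by
        funext a
        rw [Finset.sum_apply]
        simp [Pi.single_apply]
      rw [h7]
      refine Submodule.sum_mem _ fun j _ => Submodule.smul_mem _ _ ?_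
      have h8 : (Pi.single j (1 : ℝ) : Fin d → ℝ) = S⁻¹ • ∑ k, c k j • y k := by
        rw [h5, smul_smul, inv_mul_cancel₀ hS0, one_smul]
      rw [h8]
      exact Submodule.smul_mem _ _ (Submodule.sum_mem _ fun k _ => Submodule.smul_mem _ _
        (Submodule.subset_span ⟨k, rfl⟩))
    have h7 := finrank_range_le_card (R := ℝ) y
    rw [Set.finrank, h6, finrank_top, Module.finrank_fintype_fun_eq_card, Fintype.card_fin,
      Fintype.card_fin] at h7
    omega
  apply hf0
  have hc0 : ∀ k i, c k i = 0 := by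
    intro k i
    have h6 := h5 i
    rw [hS0, zero_smul] at h6
    exact Fintype.linearIndependent_iff.1 hli _ h6 k
  refine LinearMap.ext fun z => ?_
  rw [hfc]
  simp [hc0]

/-- **Smooth functions of less than `d` columns.** -/
theorem Rich.not_thin_cols {M : Set (Matrix (Fin d) (Fin d) ℝ)}
    {R : Fin d → Fin d → Prop} (hR : ∀ i j, R i j) {s : ℕ} (h : Rich M R s)
    {V : Type*} [NormedAddCommGroup V] [NormedSpace ℝ V] [FiniteDimensional ℝ V]
    {O : Set (Matrix (Fin d) (Fin d) ℝ)} (hO : IsOpen O) (hne : (O ∩ M).Nonempty) {m n : ℕ}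
    (hm : m < d) {x : Fin m → Fin d → ℤ}
    (hx : LinearIndependent ℝ (fun (k : Fin m) (j : Fin d) => (x k j : ℝ)))
    {u : (Fin m → Fin d → ℝ) → V} (hu : ∀ g ∈ O ∩ M, ContDiffAt ℝ 1 u (cols x g))
    (hrank : ∀ g ∈ O ∩ M, n < Module.finrank ℝ (LinearMap.range (fderiv ℝ u (cols x g)).toLinearMap)) :
    ¬ Thin n {w : V | ∃ g ∈ O ∩ M, w = u (cols x g)} := by
  have hder : ∀ g ∈ O ∩ M, HasFDerivAt (fun g : Fin d → Fin d → ℝ => u (cols x g))
      ((fderiv ℝ u (cols x g)).comp (cols x)) (show Fin d → Fin d → ℝ from g) := by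
    intro g hg
    have h1 : HasFDerivAt u (fderiv ℝ u (cols x g)) (cols x g) :=
      ((hu g hg).differentiableAt one_ne_zero).hasFDerivAt
    exact HasFDerivAt.comp (show Fin d → Fin d → ℝ from g) h1 (cols x).hasFDerivAt
  refine h.not_thin_map hO hne (v := fun g => u (cols x g)) (fun g hg => ?_) (fun g hg W' h1 h2 => ?_)
  · exact ContDiffAt.comp (show Fin d → Fin d → ℝ from g) (hu g hg)
      (cols x).contDiff.contDiffAt
  · have hfd : fderiv ℝ (fun g : Fin d → Fin d → ℝ => u (cols x g))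
        (show Fin d → Fin d → ℝ from g) = (fderiv ℝ u (cols x g)).comp (cols x) :=
      (hder g hg).fderiv
    have hli : LinearIndependent ℝ (cols x g) := by
      rw [Fintype.linearIndependent_iff]
      intro b hb
      refine Fintype.linearIndependent_iff.1 hx b ?_
      have hud := h.det g hg.2
      have h3 : g *ᵥ (∑ k, b k • (fun j : Fin d => (x k j : ℝ))) = 0 := by
        funext j
        have h4 : ∑ k, b k * (cols x) g k j = 0 := by
          have h5 := congrFun hb j
          rw [Finset.sum_apply] at h5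
          exact h5
        have e1 : (g *ᵥ (∑ k, b k • (fun j : Fin d => (x k j : ℝ)))) j =
            ∑ l, g j l * ∑ k, b k * (x k l : ℝ) := by
          rw [Matrix.mulVec, dotProduct]
          refine Finset.sum_congr rfl fun l _ => ?_
          rw [Finset.sum_apply]
          rfl
        have e2 : ∀ k, (cols x) g k j = ∑ l, g j l * (x k l : ℝ) := fun k => cols_apply x g k j
        rw [e1, Pi.zero_apply, ← h4, Finset.sum_congr rfl fun k _ => congrArg (b k * ·) (e2 k)]
        have e3 : ∀ w : Fin d → ℝ, ∑ l, w l * ∑ k, b k * (x k l : ℝ) =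
            ∑ k, b k * ∑ l, w l * (x k l : ℝ) := by
          intro w
          simp only [Finset.mul_sum]
          rw [Finset.sum_comm]
          refine Finset.sum_congr rfl fun k _ => Finset.sum_congr rfl fun l _ => ?_
          ring
        exact e3 (g j)
      have h4 := congrArg (fun z => g⁻¹ *ᵥ z) h3
      simp only [Matrix.mulVec_mulVec, Matrix.nonsing_inv_mul _ hud, Matrix.one_mulVec,
        Matrix.mulVec_zero] at h4
      exact h4
    have htop := top_of_cols hm hli (W' := W'.comap (fderiv ℝ u (cols x g)).toLinearMap)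
      (fun i j hij => by
        have h3 := h1 i j hij (hR i j)
        rw [hfd] at h3
        exact h3)
      (fun i j => by
        have h3 := h2 i j
        rw [hfd] at h3
        rw [Submodule.mem_comap, map_sub]
        exact h3)
    refine (hrank g hg).trans_le (Submodule.finrank_mono ?_)
    rintro _ ⟨z, rfl⟩
    have h3 : z ∈ W'.comap (fderiv ℝ u (cols x g)).toLinearMap := by
      rw [htop]
      exact Submodule.mem_top
    exact h3

end Pool.Agent.Q34.CSDThin
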