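import Mathlib
import Pool.Agent.Q34.CSD.ThinMap
import Pool.Agent.Y327.Full
import Pool.Agent.Y327.Meet
import Pool.Agent.H715R2.Littlewood

/-! # Limits of linked approximations of a counterexample to Littlewood's conjecture -/

open Filter Topology Matrix

namespace Pool.Agent.Q34.CSDThin

open Y327 H715R2

/-- bases of `ℤ ^ 3` formed by the points `(q, p, r)`, `q ≥ N`, `p`, `r` nearest to `qα`, `qβ` -/
def Bases (α β : ℝ) (N : ℕ) : Set (Matrix (Fin 3) (Fin 3) ℤ) :=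
  {γ | |γ.det| = 1 ∧ ∀ k, 0 < γ 0 k ∧ (N : ℤ) ≤ γ 0 k ∧ γ 1 k = round ((γ 0 k : ℝ) * α) ∧
    γ 2 k = round ((γ 0 k : ℝ) * β)}

lemma orb_entry (α β : ℝ) (a : Fin 3 → ℝ) (γ : Matrix (Fin 3) (Fin 3) ℤ) (k : Fin 3) :
    (diagonal a * LLm α β * zR γ) 0 k = a 0 * (γ 0 k : ℝ) ∧
    (diagonal a * LLm α β * zR γ) 1 k = a 1 * ((γ 0 k : ℝ) * α - (γ 1 k : ℝ)) ∧
    (diagonal a * LLm α β * zR γ) 2 k = a 2 * ((γ 0 k : ℝ) * β - (γ 2 k : ℝ)) := by
  have h1 : ∀ i, (diagonal a * LLm α β * zR γ) i k = a i * ∑ l, LLm α β i l * (γ l k : ℝ) := by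
    intro i
    rw [Matrix.mul_assoc, Matrix.diagonal_mul, Matrix.mul_apply]
    rfl
  refine ⟨?_, ?_, ?_⟩
  · rw [h1, Fin.sum_univ_three]; simp [LLm]
  · rw [h1, Fin.sum_univ_three]; simp [LLm]; left; ring
  · rw [h1, Fin.sum_univ_three]; simp [LLm]; left; ring

lemma round_of_near {x : ℝ} {p : ℤ} (h : |x - p| < 1 / 2) : p = round x := by
  have h1 := abs_sub_round x
  have h2 : |((round x : ℤ) : ℝ) - p| < 1 := by
    have h3 := abs_sub_le ((round x : ℤ) : ℝ) x p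
    rw [abs_sub_comm ((round x : ℤ) : ℝ) x] at h3
    linarith
  have h4 : |round x - p| < 1 := by
    have : ((|round x - p| : ℤ) : ℝ) < 1 := by
      push_cast
      exact h2
    exact_mod_cast this
  have h5 := Int.abs_lt_one_iff.1 h4
  omega

/-- **Approximation of the limits.** -/
theorem near {α β : ℝ} {h : Matrix (Fin 3) (Fin 3) ℝ} (hh : h ∈ YY (LLm α β))
    (hpos : ∀ k, 0 < h 0 k) (N₀ : ℕ) {s : Set (Matrix (Fin 3) (Fin 3) ℝ)} (hs : s ∈ 𝓝 h) :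
    ∃ (a : Fin 3 → ℝ) (γ : Matrix (Fin 3) (Fin 3) ℤ), (∀ i, 0 < a i) ∧ ∏ i, a i = 1 ∧
      γ ∈ Bases α β N₀ ∧ diagonal a * LLm α β * zR γ ∈ s := by
  obtain ⟨δ, hδ, hδk⟩ : ∃ δ : ℝ, 0 < δ ∧ ∀ k, δ < h 0 k := by
    obtain ⟨k₀, hk₀⟩ := Finite.exists_min (fun k : Fin 3 => h 0 k)
    exact ⟨h 0 k₀ / 2, half_pos (hpos k₀), fun k => (half_lt_self (hpos k₀)).trans_le (hk₀ k)⟩
  set ρ : ℝ := ∑ i, ∑ k, |h i k| + 1 with hρ
  have hρ0 : 0 < ρ := by
    have : 0 ≤ ∑ i, ∑ k, |h i k| :=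
      Finset.sum_nonneg fun i _ => Finset.sum_nonneg fun k _ => abs_nonneg _
    linarith
  have hopen : ∀ᶠ h' in 𝓝 h, h' ∈ s ∧ (∀ i k, |h' i k| < ρ) ∧ ∀ k, δ < h' 0 k := by
    refine (show ∀ᶠ h' in 𝓝 h, h' ∈ s from hs).and
      ((Filter.eventually_all.2 fun i => Filter.eventually_all.2 fun k => ?_).and
      (Filter.eventually_all.2 fun k => ?_))
    · refine ((continuous_abs.comp (continuous_apply_apply i k)).tendsto h).eventually
        (gt_mem_nhds ?_)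
      have h1 : |h i k| ≤ ∑ k, |h i k| := Finset.single_le_sum
        (f := fun k => |h i k|) (fun i _ => abs_nonneg _) (Finset.mem_univ k)
      have h2 : ∑ k, |h i k| ≤ ∑ i, ∑ k, |h i k| := Finset.single_le_sum
        (f := fun i => ∑ k, |h i k|) (fun i _ => Finset.sum_nonneg fun k _ => abs_nonneg _)
        (Finset.mem_univ i)
      show |h i k| < ρ
      rw [hρ]; linarith
    · exact ((continuous_apply_apply 0 k).tendsto h).eventually (lt_mem_nhds (hδk k))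
  obtain ⟨N, hN⟩ := exists_nat_gt (2 * ρ + (N₀ : ℝ) / δ + 1)
  have hN0 : (0 : ℝ) ≤ (N₀ : ℝ) / δ := by positivity
  have hN1 : 1 < (N : ℝ) := by linarith
  have hmem : h ∈ closure (OrbN (LLm α β) N) := Set.mem_iInter.1 hh N
  obtain ⟨h', ⟨h1, h2, h3⟩, ⟨a, γ, ha0, ha1, haN1, haN2, hγ, rfl⟩⟩ :=
    mem_closure_iff_nhds.1 hmem _ hopen
  refine ⟨a, γ, ha0, ha1, ⟨Int.isUnit_iff_abs_eq.1 hγ, fun k => ?_⟩, h1⟩
  obtain ⟨e0, e1, e2⟩ := orb_entry α β a γ k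
  have hq : δ < a 0 * (γ 0 k : ℝ) := by rw [← e0]; exact h3 k
  have hq0 : (0 : ℝ) < (γ 0 k : ℝ) := by
    by_contra hcon
    push Not at hcon
    have := mul_nonpos_of_nonneg_of_nonpos (ha0 0).le hcon
    linarith
  have h5 : a 0 * (a 1 * a 2) = 1 := by
    rw [← mul_assoc, ← Fin.prod_univ_three]; exact ha1
  have h6 : (N : ℝ) ≤ a 1 * a 2 := by
    have : (N : ℝ) * 1 ≤ a 1 * a 2 := mul_le_mul haN1 (by linarith) zero_le_one (ha0 1).le
    linarith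
  have h7 : a 0 * N ≤ 1 := by
    rw [← h5]; exact mul_le_mul_of_nonneg_left h6 (ha0 0).le
  have hd1 : |(γ 0 k : ℝ) * α - (γ 1 k : ℝ)| < 1 / 2 := by
    have h4 := h2 1 k
    rw [e1, abs_mul, abs_of_pos (ha0 1)] at h4
    have h5 : 2 * ρ < a 1 := by linarith
    by_contra hcon
    push Not at hcon
    nlinarith [ha0 1]
  have hd2 : |(γ 0 k : ℝ) * β - (γ 2 k : ℝ)| < 1 / 2 := by
    have h4 := h2 2 k
    rw [e2, abs_mul, abs_of_pos (ha0 2)] at h4
    have h5 : 2 * ρ < a 2 := by linarith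
    by_contra hcon
    push Not at hcon
    nlinarith [ha0 2]
  refine ⟨by exact_mod_cast hq0, ?_, round_of_near hd1, round_of_near hd2⟩
  have h8 : δ * N < (γ 0 k : ℝ) := by
    have h9 : δ * N < a 0 * (γ 0 k : ℝ) * N := mul_lt_mul_of_pos_right hq (by linarith)
    have h10 : a 0 * (γ 0 k : ℝ) * N = (a 0 * N) * (γ 0 k : ℝ) := by ring
    have h11 : (a 0 * N) * (γ 0 k : ℝ) ≤ 1 * (γ 0 k : ℝ) := mul_le_mul_of_nonneg_right h7 hq0.le
    linarith
  have h9 : (N₀ : ℝ) / δ < N := by linarith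
  rw [div_lt_iff₀ hδ] at h9
  have h10 : (N₀ : ℝ) < (γ 0 k : ℝ) := by linarith
  exact_mod_cast h10.le

/-- limit points of invariant functions -/
theorem mem_limit {α β : ℝ} {V : Type*} [TopologicalSpace V]
    {v : Matrix (Fin 3) (Fin 3) ℝ → V} (hinv : ∀ (a : Fin 3 → ℝ) (g : Matrix (Fin 3) (Fin 3) ℝ),
      (∀ i, 0 < a i) → ∏ i, a i = 1 → v (diagonal a * g) = v g)
    {h : Matrix (Fin 3) (Fin 3) ℝ} (hh : h ∈ YY (LLm α β)) (hpos : ∀ k, 0 < h 0 k)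
    (hv : ContinuousAt v h) (N : ℕ) :
    v h ∈ closure {w | ∃ γ ∈ Bases α β N, w = v (LLm α β * zR γ)} := by
  rw [mem_closure_iff_nhds]
  intro s hs
  obtain ⟨a, γ, ha0, ha1, hγ, hmem⟩ := near hh hpos N (hv hs)
  refine ⟨_, hmem, γ, hγ, ?_⟩
  rw [Matrix.mul_assoc, hinv a _ ha0 ha1]

/-- **The minimal sets of a counterexample to Littlewood's conjecture.** -/
theorem exists_littlewood {α β : ℝ} {ε : ℝ} (hε : 0 < ε) {N : ℕ}
    (hN : ∀ q : ℕ, N ≤ q → 0 < q → ε ≤ fL α β q) :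
    ∃ (M : Set (Matrix (Fin 3) (Fin 3) ℝ)) (R : Fin 3 → Fin 3 → Prop), M ⊆ YY (LLm α β) ∧
      (∀ i j, R i j) ∧ Rich M R 3 ∧ ({h | ∀ k, 0 < h 0 k} ∩ M).Nonempty := by
  obtain ⟨ν, hν0, hν⟩ := exists_nu hε (N := N) hN
  obtain ⟨h₁, hh₁⟩ := YY_nonempty hν0 hν
  have hdet1 : h₁.det ≠ 0 := by
    rw [← abs_ne_zero, abs_det_closure (YY_subset _ hh₁), LLm_det]
    exact one_ne_zero
  have hnu1 := YY_nu hν hh₁
  have hint : ¬ PropInt h₁ := by
    intro hP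
    obtain ⟨A, -, hA1, -, hA2⟩ := Pool.Agent.H905R2.Opp.oppA _ (by norm_num) hdet1 hP (by
      intro p hp h0
      have h2 := hnu1 p hp
      rw [h0, abs_zero] at h2
      exact absurd h2 (not_le.2 hν0))
    obtain ⟨lam, hlam, hAg⟩ := Y327.eig_of_opp hdet1 hA1 hA2
    obtain ⟨K, hfin, hrank, s, hs, hmem⟩ := exists_alg_row hdet1 A lam hlam hAg 0
    exact no_alg_point hν0 hν hh₁ 0 s hs K hrank hmem
  have hsub : closure (Orb h₁) ⊆ YY (LLm α β) := by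
    refine closure_minimal ?_ (YY_closed _)
    rintro _ ⟨a, γ, ha0, ha1, hγ, rfl⟩
    exact YY_inv _ h₁ hh₁ a γ ha0 ha1 hγ
  obtain ⟨M, hMg, hM⟩ := Y327.exists_min_closure (by norm_num) hdet1 hν0 hnu1
  obtain ⟨h₀, hh₀⟩ := hM.ne
  have hsam : ∀ i j : Fin 3, Y327.Sam h₀ i j := by
    intro i j
    obtain ⟨j', hj', hs⟩ := Y327.exists_sam_of_card (i := i) (J := {j}) le_rfl hdet1 hν0 hnu1 hint
      hMg hM hh₀ (by rw [Finset.card_singleton]; norm_num)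
    rw [Finset.mem_singleton] at hj'
    rwa [hj'] at hs
  obtain ⟨s, hs1, hs3, hR⟩ := exists_rich le_rfl hdet1 hint hν0 hnu1 hMg hM hh₀
  have hs : s = 3 := by
    have h3 : Nat.Prime 3 := Nat.prime_three
    rcases (Nat.dvd_prime h3).1 hs3 with h | h
    · omega
    · exact h
  subst hs
  refine ⟨M, Y327.Sam h₀, hMg.trans hsub, hsam, hR, ?_⟩
  -- signs
  have hne : ∀ k, h₀ 0 k ≠ 0 := by
    intro k h0
    refine hR.nz h₀ hh₀ (Pi.single k 1) (by simp) 0 ?_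
    rw [Finset.sum_eq_single k]
    · simp [h0]
    · intro b _ hb
      simp [Pi.single_eq_of_ne hb]
    · intro h1
      exact absurd (Finset.mem_univ _) h1
  set γ : Matrix (Fin 3) (Fin 3) ℤ := diagonal fun k => if 0 < h₀ 0 k then 1 else -1 with hγ
  have hγu : IsUnit γ.det := by
    rw [hγ, Matrix.det_diagonal]
    rw [IsUnit.prod_iff]
    intro k _
    split_ifs
    · exact isUnit_one
    · exact isUnit_one.neg
  refine ⟨h₀ * zR γ, fun k => ?_, ?_⟩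
  · have h1 : (h₀ * zR γ) 0 k = h₀ 0 k * (if 0 < h₀ 0 k then 1 else -1) := by
      rw [Matrix.mul_apply, Finset.sum_eq_single k]
      · rw [hγ, zR, Matrix.map_apply, Matrix.diagonal_apply_eq]
        split_ifs <;> simp
      · intro b _ hb
        rw [hγ, zR, Matrix.map_apply, Matrix.diagonal_apply_ne _ hb]
        simp
      · intro h1
        exact absurd (Finset.mem_univ _) h1
    rw [h1]
    split_ifs with h2
    · linarith
    · have := lt_of_le_of_ne (not_lt.1 h2) (hne k)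
      linarith
  · have h1 := hM.inv h₀ hh₀ (fun _ => 1) γ ⟨fun _ => one_pos, by simp, fun _ _ _ => rfl⟩ hγu
    rwa [show (diagonal (fun _ : Fin 3 => (1 : ℝ))) = 1 from Matrix.diagonal_one, Matrix.one_mul]
      at h1

lemma isOpen_pos : IsOpen {h : Matrix (Fin 3) (Fin 3) ℝ | ∀ k, 0 < h 0 k} := by
  rw [Set.ofPred_forall]
  exact isOpen_iInter_of_finite fun k => isOpen_lt continuous_const (continuous_apply_apply 0 k)

end Pool.Agent.Q34.CSDThin
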