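import Mathlib
import Pool.Agent.Q34.CSD.LinkLim

/-! # Ratios of the columns of the forms of a minimal set -/

open Filter Topology Matrix

namespace Pool.Agent.Q34.CSDThin

open Y327 H715R2

/-- the ratios of the columns and the first column -/
noncomputable def ratio {e : ℕ} (h : Fin (e + 1) → Fin (e + 1) → ℝ) : Fin (e + 1) → Fin e → ℝ :=
  fun i k => h i k.succ / h i 0

lemma contDiffAt_ratio {e : ℕ} {h : Fin (e + 1) → Fin (e + 1) → ℝ} (h0 : ∀ i, h i 0 ≠ 0) :
    ContDiffAt ℝ 1 (ratio (e := e)) h := by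
  refine contDiffAt_pi.2 fun i => contDiffAt_pi.2 fun k => ?_
  exact ContDiffAt.div (contDiff_apply_apply ℝ ℝ i k.succ).contDiffAt
    (contDiff_apply_apply ℝ ℝ i 0).contDiffAt (h0 i)

lemma fderiv_ratio {e : ℕ} {h : Fin (e + 1) → Fin (e + 1) → ℝ} (h0 : ∀ i, h i 0 ≠ 0)
    (z : Fin (e + 1) → Fin (e + 1) → ℝ) (i : Fin (e + 1)) (k : Fin e) :
    fderiv ℝ (ratio (e := e)) h z i k =
      (z i k.succ * h i 0 - h i k.succ * z i 0) / (h i 0) ^ 2 := by
  have h1 : HasFDerivAt (ratio (e := e)) (fderiv ℝ (ratio (e := e)) h) h :=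
    ((contDiffAt_ratio h0).differentiableAt one_ne_zero).hasFDerivAt
  have h2 : HasDerivAt (fun t : ℝ => h + t • z) z 0 := by
    have h3 := ((hasDerivAt_id (0 : ℝ)).smul_const z).const_add h
    simpa using h3
  have h3 : HasDerivAt (fun t : ℝ => ratio (h + t • z)) (fderiv ℝ (ratio (e := e)) h z) 0 := by
    have h4 : HasFDerivAt (ratio (e := e)) (fderiv ℝ (ratio (e := e)) h)
        ((fun t : ℝ => h + t • z) 0) := by
      simpa using h1
    exact h4.comp_hasDerivAt (0 : ℝ) h2
  have h5 : HasDerivAt (fun t : ℝ => ratio (h + t • z) i k)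
      (fderiv ℝ (ratio (e := e)) h z i k) 0 := by
    have h6 := hasDerivAt_pi.1 h3 i
    exact hasDerivAt_pi.1 h6 k
  have h7 : ∀ l, HasDerivAt (fun t : ℝ => h i l + t * z i l) (z i l) 0 := by
    intro l
    simpa using ((hasDerivAt_id (0 : ℝ)).mul_const (z i l)).const_add (h i l)
  have h8 := (h7 k.succ).div (h7 0) (by simpa using h0 i)
  have h9 := h5.unique h8
  rw [h9]
  simp

/-- **Ratios of all the columns.** -/
theorem Rich.not_thin_ratio {e : ℕ} {M : Set (Matrix (Fin (e + 1)) (Fin (e + 1)) ℝ)}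
    {R : Fin (e + 1) → Fin (e + 1) → Prop} (hR : ∀ i j, R i j) {s : ℕ} (h : Rich M R s)
    {O : Set (Matrix (Fin (e + 1)) (Fin (e + 1)) ℝ)} (hO : IsOpen O) (hne : (O ∩ M).Nonempty)
    {n : ℕ} (hn : n < (e + 1) * e) :
    ¬ Thin n {w : Fin (e + 1) → Fin e → ℝ | ∃ g ∈ O ∩ M, w = ratio g} := by
  have h0 : ∀ g ∈ O ∩ M, ∀ i, g i 0 ≠ 0 := by
    intro g hg i h0
    refine h.nz g hg.2 (Pi.single 0 1) (by simp) i ?_
    rw [Finset.sum_eq_single 0]
    · simp [h0]
    · intro b _ hb
      simp [Pi.single_eq_of_ne hb]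
    · intro h1
      exact absurd (Finset.mem_univ _) h1
  refine h.not_thin_map hO hne (v := ratio) (fun g hg => contDiffAt_ratio (h0 g hg)) ?_
  intro g hg W' h1 _
  have htop : W' = ⊤ := by
    by_contra hne'
    obtain ⟨f, hf0, hfW⟩ : ∃ f : Module.Dual ℝ (Fin (e + 1) → Fin e → ℝ), f ≠ 0 ∧
        ∀ w ∈ W', f w = 0 := by
      obtain ⟨f, hf, hW⟩ := Submodule.exists_le_ker_of_lt_top W' (lt_top_iff_ne_top.2 hne')
      exact ⟨f, hf, fun w hw => hW hw⟩
    set c : Fin (e + 1) → Fin e → ℝ := fun i k => f (Pi.single i (Pi.single k 1)) with hc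
    have hfc : ∀ z : Fin (e + 1) → Fin e → ℝ, f z = ∑ i, ∑ k, c i k * z i k := by
      intro z
      have e1 : z = ∑ i, ∑ k, z i k •
          (Pi.single i (Pi.single k (1 : ℝ)) : Fin (e + 1) → Fin e → ℝ) := by
        funext i' k'
        simp only [Finset.sum_apply, Pi.smul_apply, smul_eq_mul]
        rw [Finset.sum_eq_single i']
        · rw [Finset.sum_eq_single k']
          · simp
          · intro b _ hb
            simp [Pi.single_eq_of_ne hb.symm]
          · intro h0
            exact absurd (Finset.mem_univ _) h0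
        · intro b _ hb
          refine Finset.sum_eq_zero fun a _ => ?_
          rw [Pi.single_eq_of_ne hb.symm]
          simp
        · intro h0
          exact absurd (Finset.mem_univ _) h0
      conv_lhs => rw [e1]
      rw [map_sum]
      refine Finset.sum_congr rfl fun k _ => ?_
      rw [map_sum]
      refine Finset.sum_congr rfl fun a _ => ?_
      rw [map_smul, smul_eq_mul, mul_comm]
    set g' : Fin (e + 1) → Fin (e + 1) → ℝ := g with hg'
    have h0' : ∀ i, g' i 0 ≠ 0 := h0 g hg
    -- the equations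
    have heq : ∀ i j, i ≠ j → ∑ k, c i k * (g' j k.succ * g' i 0 - g' i k.succ * g' j 0) = 0 := by
      intro i j hij
      have h2 := hfW _ (h1 i j hij (hR i j))
      rw [hfc, Finset.sum_eq_single i] at h2
      · have h3 : ∀ k, fderiv ℝ ratio g (XX i j g) i k =
            (g' j k.succ * g' i 0 - g' i k.succ * g' j 0) / (g' i 0) ^ 2 := by
          intro k
          have h4 := fderiv_ratio h0' (XX i j g') i k
          simp only [XX_apply, if_true] at h4
          exact h4
        have h5 : ∑ k, c i k * (g' j k.succ * g' i 0 - g' i k.succ * g' j 0) =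
            (g' i 0) ^ 2 * ∑ k, c i k * fderiv ℝ ratio g (XX i j g) i k := by
          rw [Finset.mul_sum]
          refine Finset.sum_congr rfl fun k _ => ?_
          rw [h3 k]
          have := h0' i
          field_simp
        rw [h5, h2, mul_zero]
      · intro a _ ha
        refine Finset.sum_eq_zero fun k _ => ?_
        have h4 := fderiv_ratio h0' (XX i j g') a k
        simp only [XX_apply, if_neg ha, Pi.zero_apply] at h4
        have h5 : fderiv ℝ ratio g (XX i j g) a k = 0 := by
          rw [show fderiv ℝ ratio g (XX i j g) a k = _ from h4]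
          simp
        rw [h5, mul_zero]
      · intro h0
        exact absurd (Finset.mem_univ _) h0
    have hc0 : ∀ i k, c i k = 0 := by
      intro i k
      set w : Fin (e + 1) → ℝ := Fin.cons (-∑ k, c i k * g' i k.succ) fun k => c i k * g' i 0
        with hw
      have h2 : g *ᵥ w = 0 := by
        funext j
        have h3 : (g *ᵥ w) j = ∑ l, g' j l * w l := rfl
        rw [h3, Fin.sum_univ_succ, hw, Fin.cons_zero, Pi.zero_apply]
        simp only [Fin.cons_succ]
        by_cases hij : i = j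
        · subst hij
          rw [mul_neg, Finset.mul_sum, neg_add_eq_zero]
          refine Finset.sum_congr rfl fun k _ => ?_
          ring
        · rw [← heq i j hij, mul_neg, Finset.mul_sum, ← Finset.sum_neg_distrib,
            ← Finset.sum_add_distrib]
          refine Finset.sum_congr rfl fun k _ => ?_
          ring
      have hud := h.det g hg.2
      have h3 := congrArg (fun z => g⁻¹ *ᵥ z) h2
      simp only [Matrix.mulVec_mulVec, Matrix.nonsing_inv_mul _ hud, Matrix.one_mulVec,
        Matrix.mulVec_zero] at h3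
      have h4 := congrFun h3 k.succ
      rw [hw, Fin.cons_succ, Pi.zero_apply] at h4
      exact (mul_eq_zero.1 h4).resolve_right (h0' i)
    apply hf0
    refine LinearMap.ext fun z => ?_
    rw [hfc]
    simp [hc0]
  rw [htop, finrank_top, Module.finrank_pi_fintype]
  simpa using hn

/-- a local right inverse -/
lemma finrank_range_of_section {Y V : Type*} [NormedAddCommGroup Y] [NormedSpace ℝ Y]
    [NormedAddCommGroup V] [NormedSpace ℝ V] [FiniteDimensional ℝ V] {u : Y → V} {y : Y}
    (hu : DifferentiableAt ℝ u y) {σ : V → Y} {p : V} (hσp : σ p = y)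
    (hσ : DifferentiableAt ℝ σ p) (hid : ∀ᶠ w in 𝓝 p, u (σ w) = w) :
    Module.finrank ℝ (LinearMap.range (fderiv ℝ u y).toLinearMap) = Module.finrank ℝ V := by
  have h1 : (fderiv ℝ u y).comp (fderiv ℝ σ p) = ContinuousLinearMap.id ℝ V := by
    have h2 : fderiv ℝ (u ∘ σ) p = (fderiv ℝ u (σ p)).comp (fderiv ℝ σ p) :=
      fderiv_comp p (by rw [hσp]; exact hu) hσ
    rw [hσp] at h2
    rw [← h2]
    have h3 : (u ∘ σ) =ᶠ[𝓝 p] id := hid
    rw [h3.fderiv_eq, fderiv_id]
  have h2 : LinearMap.range (fderiv ℝ u y).toLinearMap = ⊤ := by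
    rw [LinearMap.range_eq_top]
    intro w
    refine ⟨fderiv ℝ σ p w, ?_⟩
    have h3 := congrArg (fun f => f w) h1
    exact h3
  rw [h2, finrank_top]

/-- the product of the first column and the ratios of the first two columns -/
noncomputable def uu (y : Fin 2 → Fin 3 → ℝ) : Fin 4 → ℝ :=
  ![y 0 0 * y 0 1 * y 0 2, y 1 0 / y 0 0, y 1 1 / y 0 1, y 1 2 / y 0 2]

lemma contDiffAt_uu {y : Fin 2 → Fin 3 → ℝ} (h0 : ∀ i, y 0 i ≠ 0) : ContDiffAt ℝ 1 uu y := by
  refine contDiffAt_pi.2 fun k => ?_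
  have hc : ∀ (a : Fin 2) (b : Fin 3), ContDiffAt ℝ 1 (fun y : Fin 2 → Fin 3 → ℝ => y a b) y :=
    fun a b => (contDiff_apply_apply ℝ ℝ a b).contDiffAt
  fin_cases k
  · exact ((hc 0 0).mul (hc 0 1)).mul (hc 0 2)
  · exact (hc 1 0).div (hc 0 0) (h0 0)
  · exact (hc 1 1).div (hc 0 1) (h0 1)
  · exact (hc 1 2).div (hc 0 2) (h0 2)

lemma rank_uu {y : Fin 2 → Fin 3 → ℝ} (h0 : ∀ i, y 0 i ≠ 0) :
    Module.finrank ℝ (LinearMap.range (fderiv ℝ uu y).toLinearMap) = 4 := by
  have h00 := h0 0
  have h01 := h0 1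
  have h02 := h0 2
  let σ : (Fin 4 → ℝ) → (Fin 2 → Fin 3 → ℝ) := fun w =>
    ![![w 0 / (y 0 1 * y 0 2), y 0 1, y 0 2],
      ![w 1 * (w 0 / (y 0 1 * y 0 2)), w 2 * y 0 1, w 3 * y 0 2]]
  have hσp : σ (uu y) = y := by
    funext a b
    fin_cases a <;> fin_cases b <;> simp [σ, uu] <;> field_simp
  have hσ : DifferentiableAt ℝ σ (uu y) := by
    have hp : ∀ k : Fin 4, DifferentiableAt ℝ (fun w : Fin 4 → ℝ => w k) (uu y) := fun k =>
      (differentiable_apply k).differentiableAt
    refine differentiableAt_pi.2 fun a => differentiableAt_pi.2 fun b => ?_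
    have hd : DifferentiableAt ℝ (fun w : Fin 4 → ℝ => w 0 / (y 0 1 * y 0 2)) (uu y) := by
      simp only [div_eq_mul_inv]
      exact (hp 0).mul_const _
    fin_cases a <;> fin_cases b
    · exact hd
    · exact differentiableAt_const _
    · exact differentiableAt_const _
    · exact (hp 1).mul hd
    · exact (hp 2).mul_const _
    · exact (hp 3).mul_const _
  have hid : ∀ᶠ w in 𝓝 (uu y), uu (σ w) = w := by
    have h1 : uu y 0 ≠ 0 := by
      simp only [uu, Matrix.cons_val_zero]
      exact mul_ne_zero (mul_ne_zero h00 h01) h02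
    have h2 : ∀ᶠ w in 𝓝 (uu y), w 0 ≠ 0 :=
      ((continuous_apply (0 : Fin 4)).tendsto (uu y)).eventually (isOpen_ne.mem_nhds h1)
    filter_upwards [h2] with w hw
    funext k
    fin_cases k <;> simp [σ, uu] <;> field_simp
  rw [finrank_range_of_section ((contDiffAt_uu h0).differentiableAt one_ne_zero) hσp hσ hid]
  simp

/-- the products of the first two columns -/
noncomputable def uv (y : Fin 2 → Fin 3 → ℝ) : Fin 2 → ℝ := fun k => y k 0 * y k 1 * y k 2

lemma contDiffAt_uv {y : Fin 2 → Fin 3 → ℝ} : ContDiffAt ℝ 1 uv y := by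
  refine contDiffAt_pi.2 fun k => ?_
  have hc : ∀ (a : Fin 2) (b : Fin 3), ContDiffAt ℝ 1 (fun y : Fin 2 → Fin 3 → ℝ => y a b) y :=
    fun a b => (contDiff_apply_apply ℝ ℝ a b).contDiffAt
  exact ((hc k 0).mul (hc k 1)).mul (hc k 2)

lemma rank_uv {y : Fin 2 → Fin 3 → ℝ} (h0 : ∀ k i, y k i ≠ 0) :
    Module.finrank ℝ (LinearMap.range (fderiv ℝ uv y).toLinearMap) = 2 := by
  let σ : (Fin 2 → ℝ) → (Fin 2 → Fin 3 → ℝ) := fun w k =>
    ![w k / (y k 1 * y k 2), y k 1, y k 2]
  have hσp : σ (uv y) = y := by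
    funext a b
    have h1 := h0 a 1
    have h2 := h0 a 2
    fin_cases b <;> simp [σ, uv] <;> field_simp
  have hσ : DifferentiableAt ℝ σ (uv y) := by
    have hp : ∀ k : Fin 2, DifferentiableAt ℝ (fun w : Fin 2 → ℝ => w k) (uv y) := fun k =>
      (differentiable_apply k).differentiableAt
    refine differentiableAt_pi.2 fun a => differentiableAt_pi.2 fun b => ?_
    have hd : DifferentiableAt ℝ (fun w : Fin 2 → ℝ => w a / (y a 1 * y a 2)) (uv y) := by
      simp only [div_eq_mul_inv]
      exact (hp a).mul_const _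
    fin_cases b
    · exact hd
    · exact differentiableAt_const _
    · exact differentiableAt_const _
  have hid : ∀ᶠ w in 𝓝 (uv y), uv (σ w) = w := by
    refine Eventually.of_forall fun w => ?_
    funext k
    have h1 := h0 k 1
    have h2 := h0 k 2
    simp [σ, uv]
    field_simp
  rw [finrank_range_of_section (contDiffAt_uv.differentiableAt one_ne_zero) hσp hσ hid]
  simp

end Pool.Agent.Q34.CSDThin
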