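import Mathlib
import Pool.Agent.Q34.CSD.LinkThm

/-! # Restrictions of the product of the linear forms to sublattices -/

open Filter Topology Matrix

namespace Pool.Agent.Q34.CSDThin

open Y327 H715R2

variable {d : ℕ}

/-- the linear form `i` of `g` at an integer point -/
noncomputable def LF (g : Matrix (Fin d) (Fin d) ℝ) (i : Fin d) (x : Fin d → ℤ) : ℝ :=
  ∑ j, g i j * (x j : ℝ)

/-- the section: the value at the first point and the ratios of the forms at the other points -/
noncomputable def sec {e : ℕ} (g : Matrix (Fin d) (Fin d) ℝ) (x : Fin (e + 1) → Fin d → ℤ) :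
    ℝ × (Fin e → Fin d → ℝ) :=
  (∏ i, LF g i (x 0), fun j i => LF g i (x j.succ) / LF g i (x 0))

/-- the section as a function of the values of the forms -/
noncomputable def us {e : ℕ} (y : Fin (e + 1) → Fin d → ℝ) : ℝ × (Fin e → Fin d → ℝ) :=
  (∏ i, y 0 i, fun j i => y j.succ i / y 0 i)

lemma us_cols {e : ℕ} (g : Matrix (Fin d) (Fin d) ℝ) (x : Fin (e + 1) → Fin d → ℤ) :
    us (cols x g) = sec g x := by
  have h1 : ∀ k i, (cols x) g k i = LF g i (x k) := fun k i => cols_apply x g k i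
  unfold us sec
  simp only [h1]

lemma contDiffAt_us {e : ℕ} {y : Fin (e + 1) → Fin d → ℝ} (h0 : ∀ i, y 0 i ≠ 0) :
    ContDiffAt ℝ 1 (us (d := d) (e := e)) y := by
  have hc : ∀ a b, ContDiffAt ℝ 1 (fun y : Fin (e + 1) → Fin d → ℝ => y a b) y :=
    fun a b => (contDiff_apply_apply ℝ ℝ a b).contDiffAt
  refine ContDiffAt.prodMk (contDiffAt_prod fun i _ => hc 0 i) ?_
  exact contDiffAt_pi.2 fun j => contDiffAt_pi.2 fun i => (hc j.succ i).div (hc 0 i) (h0 i)

lemma rank_us (hd : 0 < d) {e : ℕ} {y : Fin (e + 1) → Fin d → ℝ} (h0 : ∀ i, y 0 i ≠ 0) :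
    Module.finrank ℝ (LinearMap.range (fderiv ℝ (us (d := d) (e := e)) y).toLinearMap) =
      e * d + 1 := by
  classical
  set i₀ : Fin d := ⟨0, hd⟩ with hi₀
  set P : ℝ := ∏ i ∈ Finset.univ.erase i₀, y 0 i with hP
  have hP0 : P ≠ 0 := Finset.prod_ne_zero_iff.2 fun i _ => h0 i
  let r : ℝ × (Fin e → Fin d → ℝ) → Fin d → ℝ := fun w i => if i = i₀ then w.1 * P⁻¹ else y 0 i
  let σ : ℝ × (Fin e → Fin d → ℝ) → (Fin (e + 1) → Fin d → ℝ) := fun w =>
    Fin.cons (r w) fun j i => w.2 j i * r w i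
  have hprod : ∀ w, ∏ i, r w i = w.1 := by
    intro w
    rw [← Finset.mul_prod_erase _ _ (Finset.mem_univ i₀)]
    have h1 : ∏ i ∈ Finset.univ.erase i₀, r w i = P :=
      Finset.prod_congr rfl fun i hi => if_neg (Finset.ne_of_mem_erase hi)
    rw [h1]
    simp only [r, if_true]
    rw [mul_assoc, inv_mul_cancel₀ hP0, mul_one]
  have hr0 : r (us y) = y 0 := by
    funext i
    by_cases hi : i = i₀
    · simp only [r, if_pos hi, us]
      rw [← Finset.mul_prod_erase _ _ (Finset.mem_univ i₀), mul_assoc, ← hP,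
        mul_inv_cancel₀ hP0, mul_one, hi]
    · simp only [r, if_neg hi]
  have hσp : σ (us y) = y := by
    funext k i
    refine Fin.cases ?_ (fun j => ?_) k
    · simp only [σ, Fin.cons_zero, hr0]
    · simp only [σ, Fin.cons_succ]
      rw [hr0]
      exact div_mul_cancel₀ _ (h0 i)
  have hr : ∀ i, DifferentiableAt ℝ (fun w : ℝ × (Fin e → Fin d → ℝ) => r w i) (us y) := by
    intro i
    by_cases hi : i = i₀
    · simp only [r, if_pos hi]
      exact differentiableAt_fst.mul_const _
    · simp only [r, if_neg hi]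
      exact differentiableAt_const _
  have hσ : DifferentiableAt ℝ σ (us y) := by
    refine differentiableAt_pi.2 fun k => differentiableAt_pi.2 fun i => ?_
    refine Fin.cases ?_ (fun j => ?_) k
    · simp only [σ, Fin.cons_zero]
      exact hr i
    · simp only [σ, Fin.cons_succ]
      refine DifferentiableAt.mul ?_ (hr i)
      have h1 : DifferentiableAt ℝ (fun w : ℝ × (Fin e → Fin d → ℝ) => w.2) (us y) :=
        differentiableAt_snd
      exact differentiableAt_pi.1 (differentiableAt_pi.1 h1 j) i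
  have hid : ∀ᶠ w in 𝓝 (us y), us (σ w) = w := by
    have h1 : (us y).1 ≠ 0 := by
      show ∏ i, y 0 i ≠ 0
      exact Finset.prod_ne_zero_iff.2 fun i _ => h0 i
    have h2 : ∀ᶠ w in 𝓝 (us y), w.1 ≠ 0 :=
      (continuous_fst.tendsto (us y)).eventually (isOpen_ne.mem_nhds h1)
    filter_upwards [h2] with w hw
    have hrw : ∀ i, r w i ≠ 0 := by
      intro i
      by_cases hi : i = i₀
      · simp only [r, if_pos hi]
        exact mul_ne_zero hw (inv_ne_zero hP0)
      · simp only [r, if_neg hi]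
        exact h0 i
    refine Prod.ext ?_ ?_
    · simp only [us, σ, Fin.cons_zero]
      exact hprod w
    · funext j i
      simp only [us, σ, Fin.cons_zero, Fin.cons_succ]
      exact mul_div_cancel_right₀ _ (hrw i)
  rw [finrank_range_of_section ((contDiffAt_us h0).differentiableAt one_ne_zero) hσp hσ hid,
    Module.finrank_prod, Module.finrank_pi_fintype]
  simp [add_comm]

/-- **Sections of the forms of a piece of a minimal set.** -/
theorem Rich.not_thin_sec (hd : 0 < d) {M : Set (Matrix (Fin d) (Fin d) ℝ)}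
    {R : Fin d → Fin d → Prop} (hR : ∀ i j, R i j) {s : ℕ} (h : Rich M R s)
    {O : Set (Matrix (Fin d) (Fin d) ℝ)} (hO : IsOpen O) (hne : (O ∩ M).Nonempty) {e n : ℕ}
    (he : e + 1 < d) (hn : n ≤ e * d) {x : Fin (e + 1) → Fin d → ℤ}
    (hx : LinearIndependent ℝ (fun (k : Fin (e + 1)) (j : Fin d) => (x k j : ℝ))) :
    ¬ Thin n {w | ∃ g ∈ O ∩ M, w = sec g x} := by
  have hx0 : x 0 ≠ 0 := by
    intro h0
    refine hx.ne_zero 0 ?_
    funext j
    rw [h0]
    simp
  have hc0 : ∀ g ∈ O ∩ M, ∀ i, cols x g 0 i ≠ 0 := by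
    intro g hg i
    rw [show (cols x) g 0 i = ∑ l, g i l * (x 0 l : ℝ) from cols_apply x g 0 i]
    exact h.nz g hg.2 (x 0) hx0 i
  have h1 := h.not_thin_cols hR hO hne he hx (u := us (d := d) (e := e)) (n := n)
    (fun g hg => contDiffAt_us (hc0 g hg)) (fun g hg => by
      rw [rank_us hd (hc0 g hg)]
      omega)
  intro hthin
  refine h1 (hthin.subset ?_)
  rintro w ⟨g, hg, rfl⟩
  exact ⟨g, hg, us_cols g x⟩

/-- the section for the unit vectors -/
noncomputable def pr {e : ℕ} (h : Fin (e + 1) → Fin (e + 1) → ℝ) :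
    ℝ × (Fin (e + 1) → Fin e → ℝ) := (∏ i, h i 0, ratio h)

lemma contDiffAt_pr {e : ℕ} {h : Fin (e + 1) → Fin (e + 1) → ℝ} (h0 : ∀ i, h i 0 ≠ 0) :
    ContDiffAt ℝ 1 (pr (e := e)) h :=
  ContDiffAt.prodMk (contDiffAt_prod fun i _ => (contDiff_apply_apply ℝ ℝ i 0).contDiffAt)
    (contDiffAt_ratio h0)

/-- the values and the ratios of the entries of a basis -/
noncomputable def sw {e d : ℕ} (w : ℝ × (Fin e → Fin d → ℝ)) : ℝ × (Fin d → Fin e → ℝ) :=
  (w.1, fun i j => w.2 j i)

/-- the images of the root directions under the derivative of the ratios -/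
lemma top_of_ratio {e : ℕ} {g : Matrix (Fin (e + 1)) (Fin (e + 1)) ℝ} (hud : IsUnit g.det)
    (h0 : ∀ i, g i 0 ≠ 0) {W' : Submodule ℝ (Fin (e + 1) → Fin e → ℝ)}
    (h1 : ∀ i j, i ≠ j → fderiv ℝ (ratio (e := e)) g (XX i j g) ∈ W') : W' = ⊤ := by
  by_contra hne'
  obtain ⟨f, hf0, hfW⟩ : ∃ f : Module.Dual ℝ (Fin (e + 1) → Fin e → ℝ), f ≠ 0 ∧
      ∀ w ∈ W', f w = 0 := by
    obtain ⟨f, hf, hW⟩ := Submodule.exists_le_ker_of_lt_top W' (lt_top_iff_ne_top.2 hne')
    exact ⟨f, hf, fun w hw => hW hw⟩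
  set c : Fin (e + 1) → Fin e → ℝ := fun i k => f (Pi.single i (Pi.single k 1)) with hc
  have hfc : ∀ z : Fin (e + 1) → Fin e → ℝ, f z = ∑ i, ∑ k, c i k * z i k := by
    intro z
    have e1 : z = ∑ i, ∑ k, z i k •
        (Pi.single i (Pi.single k (1 : ℝ)) : Fin (e + 1) → Fin e → ℝ) := by
      funext i' k'
      simp only [Finset.sum_apply, Pi.smul_apply, smul_eq_mul]
      rw [Finset.sum_eq_single i']
      · rw [Finset.sum_eq_single k']
        · simp
        · intro b _ hb
          simp [Pi.single_eq_of_ne hb.symm]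
        · intro h0
          exact absurd (Finset.mem_univ _) h0
      · intro b _ hb
        refine Finset.sum_eq_zero fun a _ => ?_
        rw [Pi.single_eq_of_ne hb.symm]
        simp
      · intro h0
        exact absurd (Finset.mem_univ _) h0
    conv_lhs => rw [e1]
    rw [map_sum]
    refine Finset.sum_congr rfl fun k _ => ?_
    rw [map_sum]
    refine Finset.sum_congr rfl fun a _ => ?_
    rw [map_smul, smul_eq_mul, mul_comm]
  set g' : Fin (e + 1) → Fin (e + 1) → ℝ := g with hg'
  have h0' : ∀ i, g' i 0 ≠ 0 := h0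
  -- the equations
  have heq : ∀ i j, i ≠ j → ∑ k, c i k * (g' j k.succ * g' i 0 - g' i k.succ * g' j 0) = 0 := by
    intro i j hij
    have h2 := hfW _ (h1 i j hij)
    rw [hfc, Finset.sum_eq_single i] at h2
    · have h3 : ∀ k, fderiv ℝ ratio g (XX i j g) i k =
          (g' j k.succ * g' i 0 - g' i k.succ * g' j 0) / (g' i 0) ^ 2 := by
        intro k
        have h4 := fderiv_ratio h0' (XX i j g') i k
        simp only [XX_apply, if_true] at h4
        exact h4
      have h5 : ∑ k, c i k * (g' j k.succ * g' i 0 - g' i k.succ * g' j 0) =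
          (g' i 0) ^ 2 * ∑ k, c i k * fderiv ℝ ratio g (XX i j g) i k := by
        rw [Finset.mul_sum]
        refine Finset.sum_congr rfl fun k _ => ?_
        rw [h3 k]
        have := h0' i
        field_simp
      rw [h5, h2, mul_zero]
    · intro a _ ha
      refine Finset.sum_eq_zero fun k _ => ?_
      have h4 := fderiv_ratio h0' (XX i j g') a k
      simp only [XX_apply, if_neg ha, Pi.zero_apply] at h4
      have h5 : fderiv ℝ ratio g (XX i j g) a k = 0 := by
        rw [show fderiv ℝ ratio g (XX i j g) a k = _ from h4]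
        simp
      rw [h5, mul_zero]
    · intro h0
      exact absurd (Finset.mem_univ _) h0
  have hc0 : ∀ i k, c i k = 0 := by
    intro i k
    set w : Fin (e + 1) → ℝ := Fin.cons (-∑ k, c i k * g' i k.succ) fun k => c i k * g' i 0
      with hw
    have h2 : g *ᵥ w = 0 := by
      funext j
      have h3 : (g *ᵥ w) j = ∑ l, g' j l * w l := rfl
      rw [h3, Fin.sum_univ_succ, hw, Fin.cons_zero, Pi.zero_apply]
      simp only [Fin.cons_succ]
      by_cases hij : i = j
      · subst hij
        rw [mul_neg, Finset.mul_sum, neg_add_eq_zero]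
        refine Finset.sum_congr rfl fun k _ => ?_
        ring
      · rw [← heq i j hij, mul_neg, Finset.mul_sum, ← Finset.sum_neg_distrib,
          ← Finset.sum_add_distrib]
        refine Finset.sum_congr rfl fun k _ => ?_
        ring
    have h3 := congrArg (fun z => g⁻¹ *ᵥ z) h2
    have e1 : g⁻¹ * g = 1 := Matrix.nonsing_inv_mul g hud
    simp only [Matrix.mulVec_mulVec, e1, Matrix.one_mulVec, Matrix.mulVec_zero] at h3
    have h4 := congrFun h3 k.succ
    rw [hw, Fin.cons_succ, Pi.zero_apply] at h4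
    exact (mul_eq_zero.1 h4).resolve_right (h0' i)
  apply hf0
  refine LinearMap.ext fun z => ?_
  rw [hfc]
  simp [hc0]

/-- **Sections of full rank.** -/
theorem Rich.not_thin_top {e : ℕ} {M : Set (Matrix (Fin (e + 1)) (Fin (e + 1)) ℝ)}
    {R : Fin (e + 1) → Fin (e + 1) → Prop} (hR : ∀ i j, R i j) {s : ℕ} (h : Rich M R s)
    {O : Set (Matrix (Fin (e + 1)) (Fin (e + 1)) ℝ)} (hO : IsOpen O) (hne : (O ∩ M).Nonempty)
    {n : ℕ} (hn : n < e * (e + 1)) :
    ¬ Thin n {w | ∃ g ∈ O ∩ M, w = sec g (fun k : Fin (e + 1) => Pi.single k 1)} := by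
  have h0 : ∀ g ∈ O ∩ M, ∀ i, g i 0 ≠ 0 := by
    intro g hg i h0
    refine h.nz g hg.2 (Pi.single 0 1) (by simp) i ?_
    rw [Finset.sum_eq_single 0]
    · simp [h0]
    · intro b _ hb
      simp [Pi.single_eq_of_ne hb]
    · intro h1
      exact absurd (Finset.mem_univ _) h1
  -- the map in the coordinates of `sec`
  let v : (Fin (e + 1) → Fin (e + 1) → ℝ) → ℝ × (Fin e → Fin (e + 1) → ℝ) := fun g =>
    (∏ i, g i 0, fun j i => ratio g i j)
  have hvd : ∀ g ∈ O ∩ M, ContDiffAt ℝ 1 v g := by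
    intro g hg
    refine ContDiffAt.prodMk (contDiffAt_prod fun i _ =>
      (contDiff_apply_apply ℝ ℝ i 0).contDiffAt) ?_
    refine contDiffAt_pi.2 fun j => contDiffAt_pi.2 fun i => ?_
    exact contDiffAt_pi.1 (contDiffAt_pi.1 (contDiffAt_ratio (h0 g hg)) i) j
  have hvs : ∀ g, sec g (fun k : Fin (e + 1) => Pi.single k 1) = v g := by
    intro g
    have h1 : ∀ i k, LF g i (Pi.single k 1) = g i k := by
      intro i k
      unfold LF
      rw [Finset.sum_eq_single k]
      · simp
      · intro b _ hb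
        simp [Pi.single_eq_of_ne hb]
      · intro h1
        exact absurd (Finset.mem_univ _) h1
    unfold sec
    simp only [h1]
    rfl
  intro hthin
  have hr := h.not_thin_map hO hne (v := v) (n := n) hvd ?_
  · refine hr (hthin.subset ?_)
    rintro w ⟨g, hg, rfl⟩
    exact ⟨g, hg, (hvs g).symm⟩
  intro g hg W' h1 h2
  -- the second coordinates
  let tr : (ℝ × (Fin e → Fin (e + 1) → ℝ)) →L[ℝ] (Fin (e + 1) → Fin e → ℝ) :=
    (ContinuousLinearMap.pi fun i => ContinuousLinearMap.pi fun j =>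
      ((ContinuousLinearMap.proj (R := ℝ) (φ := fun _ : Fin (e + 1) => ℝ) i).comp
        (ContinuousLinearMap.proj (R := ℝ) (φ := fun _ : Fin e => Fin (e + 1) → ℝ) j)).comp
        (ContinuousLinearMap.snd ℝ ℝ (Fin e → Fin (e + 1) → ℝ)))
  have htr : ∀ g : Fin (e + 1) → Fin (e + 1) → ℝ, tr (v g) = ratio g := fun g => rfl
  have hfd : ∀ z, tr (fderiv ℝ v g z) = fderiv ℝ (ratio (e := e)) g z := by
    intro z
    have h3 : HasFDerivAt v (fderiv ℝ v g) (show Fin (e + 1) → Fin (e + 1) → ℝ from g) :=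
      ((hvd g hg).differentiableAt one_ne_zero).hasFDerivAt
    have h4 : HasFDerivAt (fun x => tr (v x)) (tr.comp (fderiv ℝ v g))
        (show Fin (e + 1) → Fin (e + 1) → ℝ from g) := tr.hasFDerivAt.comp _ h3
    have h5 : (fun x => tr (v x)) = ratio (e := e) := funext htr
    rw [h5] at h4
    have h6 := h4.fderiv
    have h7 := congrArg (fun f => f z) h6
    exact h7.symm
  have hspan : n < Module.finrank ℝ (W'.map tr.toLinearMap) := by
    have h3 : W'.map tr.toLinearMap = ⊤ := by
      refine top_of_ratio (h.det g hg.2) (h0 g hg) ?_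
      intro i j hij
      refine ⟨_, h1 i j hij (hR i j), ?_⟩
      exact hfd _
    rw [h3, finrank_top, Module.finrank_pi_fintype]
    simpa [mul_comm] using hn
  exact hspan.trans_le (Submodule.finrank_map_le _ _)

end Pool.Agent.Q34.CSDThin
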