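import Mathlib
import Pool.Agent.Q34.CSD.Sect
import Pool.Agent.Y327.Dual

/-! # The dual forms and the coefficients of the projections onto the coordinate lines -/

open Filter Topology Matrix

namespace Pool.Agent.Q34.CSDThin

open Y327 H715R2

variable {d : ℕ}

/-! ### smoothness of the inverse -/

lemma contDiff_detF {E : Type*} [NormedAddCommGroup E] [NormedSpace ℝ E]
    {M : E → Matrix (Fin d) (Fin d) ℝ} (hM : ∀ i j, ContDiff ℝ 1 fun x => M x i j) :
    ContDiff ℝ 1 fun x => (M x).det := by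
  have h1 : (fun x => (M x).det) = fun x =>
      ∑ σ : Equiv.Perm (Fin d), ((Equiv.Perm.sign σ : ℤ) : ℝ) * ∏ i, M x (σ i) i := by
    funext x
    rw [Matrix.det_apply']
  rw [h1]
  exact ContDiff.sum fun σ _ => contDiff_const.mul (contDiff_prod fun i _ => hM _ _)

/-- the dual form `i` of `g` at a covector -/
noncomputable def DF (g : Matrix (Fin d) (Fin d) ℝ) (i : Fin d) (y : Fin d → ℤ) : ℝ :=
  (iR y ᵥ* g⁻¹) i

lemma DF_eq (g : Matrix (Fin d) (Fin d) ℝ) (i : Fin d) (y : Fin d → ℤ) :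
    DF g i y = ∑ j, (y j : ℝ) * ((g.det)⁻¹ * g.adjugate j i) := by
  unfold DF
  rw [Matrix.inv_def, Ring.inverse_eq_inv']
  rfl

lemma contDiff_adj (i j : Fin d) :
    ContDiff ℝ 1 fun g : Fin d → Fin d → ℝ => (Matrix.of g).adjugate i j := by
  simp only [Matrix.adjugate_apply]
  refine contDiff_detF fun a b => ?_
  by_cases ha : a = j
  · subst ha
    simp only [Matrix.updateRow_self]
    exact contDiff_const
  · simp only [Matrix.updateRow_ne ha]
    exact contDiff_apply_apply ℝ ℝ a b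

lemma contDiffAt_DF {g : Matrix (Fin d) (Fin d) ℝ} (hg : g.det ≠ 0) (i : Fin d)
    (y : Fin d → ℤ) : ContDiffAt ℝ 1 (fun g : Fin d → Fin d → ℝ => DF (Matrix.of g) i y)
      (show Fin d → Fin d → ℝ from g) := by
  have h1 : (fun g : Fin d → Fin d → ℝ => DF (Matrix.of g) i y) = fun g =>
      ∑ j, (y j : ℝ) * (((Matrix.of g).det)⁻¹ * (Matrix.of g).adjugate j i) := by
    funext g
    exact DF_eq _ _ _
  rw [h1]
  refine ContDiffAt.sum fun j _ => contDiffAt_const.mul ?_
  refine ContDiffAt.mul (ContDiffAt.inv ?_ hg) (contDiff_adj j i).contDiffAt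
  exact (contDiff_detF fun a b => contDiff_apply_apply ℝ ℝ a b).contDiffAt

lemma contDiffAt_LF {g : Matrix (Fin d) (Fin d) ℝ} (i : Fin d) (x : Fin d → ℤ) :
    ContDiffAt ℝ 1 (fun g : Fin d → Fin d → ℝ => LF (Matrix.of g) i x)
      (show Fin d → Fin d → ℝ from g) :=
  ContDiffAt.sum fun j _ => (contDiff_apply_apply ℝ ℝ i j).contDiffAt.mul contDiffAt_const

/-! ### root directions -/

lemma LF_line (g : Fin d → Fin d → ℝ) (i j : Fin d) (t : ℝ) (a : Fin d) (x : Fin d → ℤ) :
    LF (Matrix.of (g + t • XX i j g)) a x =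
      LF (Matrix.of g) a x + if a = i then t * LF (Matrix.of g) j x else 0 := by
  unfold LF
  by_cases ha : a = i
  · subst ha
    rw [if_pos rfl, Finset.mul_sum, ← Finset.sum_add_distrib]
    refine Finset.sum_congr rfl fun l _ => ?_
    rw [Matrix.of_apply, Matrix.of_apply, Matrix.of_apply, Pi.add_apply, Pi.add_apply,
      Pi.smul_apply, Pi.smul_apply, XX_apply, if_pos rfl, smul_eq_mul]
    ring
  · rw [if_neg ha, add_zero]
    refine Finset.sum_congr rfl fun l _ => ?_
    rw [Matrix.of_apply, Matrix.of_apply, Pi.add_apply, Pi.add_apply, Pi.smul_apply,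
      Pi.smul_apply, XX_apply, if_neg ha]
    simp

lemma LF_line' (g : Matrix (Fin d) (Fin d) ℝ) (i j : Fin d) (t : ℝ) (a : Fin d)
    (x : Fin d → ℤ) :
    LF (Matrix.of ((show Fin d → Fin d → ℝ from g) + t • XX i j g)) a x =
      LF g a x + if a = i then t * LF g j x else 0 := LF_line g i j t a x

lemma DF_line {g : Matrix (Fin d) (Fin d) ℝ} {i j : Fin d} (hij : i ≠ j) (t : ℝ)
    (a : Fin d) (y : Fin d → ℤ) :
    DF (Matrix.of ((show Fin d → Fin d → ℝ from g) + t • XX i j g)) a y =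
      DF g a y - if a = j then t * DF g i y else 0 := by
  have h1 : (Matrix.of ((show Fin d → Fin d → ℝ from g) + t • XX i j g) :
      Matrix (Fin d) (Fin d) ℝ) = transvection i j t * g := (transvection_eq i j t g).symm
  unfold DF
  have h2 : (transvection i j t : Matrix (Fin d) (Fin d) ℝ)⁻¹ = transvection i j (-t) := by
    refine Matrix.inv_eq_left_inv ?_
    rw [transvection_mul_transvection_same _ _ hij, neg_add_cancel, transvection_zero]
  rw [h1, Matrix.mul_inv_rev, h2, ← Matrix.vecMul_vecMul, transvection, Matrix.vecMul_add,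
    Matrix.vecMul_one, Pi.add_apply, sub_eq_add_neg]
  congr 1
  rw [Matrix.vecMul, dotProduct]
  by_cases ha : a = j
  · subst ha
    rw [if_pos rfl, Finset.sum_eq_single i]
    · rw [Matrix.single_apply_same]
      ring
    · intro b _ hb
      rw [Matrix.single_apply_of_row_ne hb.symm, mul_zero]
    · intro h0
      exact absurd (Finset.mem_univ _) h0
  · rw [if_neg ha, neg_zero]
    refine Finset.sum_eq_zero fun b _ => ?_
    rw [Matrix.single_apply_of_col_ne _ _ (Ne.symm ha), mul_zero]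

/-- the derivative of a function along a root direction from an explicit formula on the line -/
lemma fderiv_root {V : Type*} [NormedAddCommGroup V] [NormedSpace ℝ V]
    {v : (Fin d → Fin d → ℝ) → V} {g : Matrix (Fin d) (Fin d) ℝ}
    (hv : ContDiffAt ℝ 1 v (show Fin d → Fin d → ℝ from g)) (i j : Fin d) {w : V}
    (hw : HasDerivAt (fun t : ℝ => v ((show Fin d → Fin d → ℝ from g) + t • XX i j g)) w 0) :
    fderiv ℝ v g (XX i j g) = w := by
  have h1 : HasFDerivAt v (fderiv ℝ v g) (show Fin d → Fin d → ℝ from g) :=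
    (hv.differentiableAt one_ne_zero).hasFDerivAt
  have h2 : HasDerivAt (fun t : ℝ => (show Fin d → Fin d → ℝ from g) + t • XX i j g)
      (XX i j g) 0 := by
    have h3 := ((hasDerivAt_id (0 : ℝ)).smul_const (XX i j g)).const_add
      (show Fin d → Fin d → ℝ from g)
    simpa using h3
  have h5 : (show Fin d → Fin d → ℝ from g) + (0 : ℝ) • XX i j g =
      (show Fin d → Fin d → ℝ from g) := by
    rw [zero_smul, add_zero]
  have h4 : HasFDerivAt v (fderiv ℝ v g)
      ((show Fin d → Fin d → ℝ from g) + (0 : ℝ) • XX i j g) := by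
    rw [h5]
    exact h1
  exact (h4.comp_hasDerivAt 0 h2).unique hw

/-- the value at `x` and the coefficients of the projections -/
noncomputable def ent (x y : Fin d → ℤ) (g : Matrix (Fin d) (Fin d) ℝ) : ℝ × (Fin d → ℝ) :=
  (∏ i, LF g i x, fun i => LF g i x * DF g i y)

lemma contDiffAt_ent {g : Matrix (Fin d) (Fin d) ℝ} (hg : g.det ≠ 0) (x y : Fin d → ℤ) :
    ContDiffAt ℝ 1 (fun g : Fin d → Fin d → ℝ => ent x y (Matrix.of g))
      (show Fin d → Fin d → ℝ from g) := by
  refine ContDiffAt.prodMk (contDiffAt_prod fun i _ => contDiffAt_LF i x) ?_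
  exact contDiffAt_pi.2 fun i => (contDiffAt_LF i x).mul (contDiffAt_DF hg i y)

lemma fderiv_ent {g : Matrix (Fin d) (Fin d) ℝ} (hg : g.det ≠ 0) (x y : Fin d → ℤ)
    {i j : Fin d} (hij : i ≠ j) :
    fderiv ℝ (fun g : Fin d → Fin d → ℝ => ent x y (Matrix.of g)) g (XX i j g) =
      (LF g j x * ∏ a ∈ Finset.univ.erase i, LF g a x, fun a => if a = i then LF g j x * DF g i y
        else if a = j then -(LF g j x * DF g i y) else 0) := by
  refine fderiv_root (contDiffAt_ent hg x y) i j ?_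
  have h1 : (fun t : ℝ => ent x y (Matrix.of ((show Fin d → Fin d → ℝ from g) + t • XX i j g))) =
      fun t => (∏ i, LF g i x + t * (LF g j x * ∏ a ∈ Finset.univ.erase i, LF g a x),
        fun a => LF g a x * DF g a y + t * (if a = i then LF g j x * DF g i y
        else if a = j then -(LF g j x * DF g i y) else 0)) := by
    funext t
    unfold ent
    refine Prod.ext ?_ ?_
    · show ∏ a, LF _ a x = _
      rw [← Finset.mul_prod_erase _ _ (Finset.mem_univ i), LF_line', if_pos rfl,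
        ← Finset.mul_prod_erase _ (fun a => LF g a x) (Finset.mem_univ i)]
      have h2 : ∏ a ∈ Finset.univ.erase i,
          LF (Matrix.of ((show Fin d → Fin d → ℝ from g) + t • XX i j g)) a x =
          ∏ a ∈ Finset.univ.erase i, LF g a x := by
        refine Finset.prod_congr rfl fun a ha => ?_
        rw [LF_line', if_neg (Finset.ne_of_mem_erase ha), add_zero]
      rw [h2]
      ring
    · funext a
      show LF _ a x * DF _ a y = _
      rw [LF_line', DF_line hij]
      by_cases ha : a = i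
      · subst ha
        simp only [if_true, if_neg hij]
        ring
      · by_cases ha' : a = j
        · subst ha'
          simp only [if_neg ha, if_true]
          ring
        · simp only [if_neg ha, if_neg ha']
          ring
  rw [h1]
  have hlin : ∀ c b : ℝ, HasDerivAt (fun t : ℝ => b + t * c) c 0 := by
    intro c b
    have := ((hasDerivAt_id (0 : ℝ)).mul_const c).const_add b
    simpa using this
  refine HasDerivAt.prodMk (hlin _ _) ?_
  exact hasDerivAt_pi.2 fun a => hlin _ _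

/-- representatives of the classes -/
lemma exists_reps_rel {R : Fin d → Fin d → Prop} (hrefl : ∀ i, R i i)
    (hsymm : ∀ i j, R i j → R j i) (htrans : ∀ i j k, R i j → R j k → R i k) {s : ℕ} (hs : 1 < s)
    (hsd : s ∣ d) (hcard : ∀ i, Nat.card {j // R i j} = s) :
    ∃ (ρ : Fin d → Fin d) (S : Finset (Fin d)), (∀ i, R i (ρ i)) ∧ (∀ i, ρ i ∈ S) ∧
      S.card * s = d ∧ ∀ i, ρ i = i ↔ i ∈ S := by
  classical
  let st : Setoid (Fin d) := ⟨R, fun i => hrefl i, fun h => hsymm _ _ h, fun h h' => htrans _ _ _ h h'⟩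
  set ρ : Fin d → Fin d := fun i => (Quotient.mk st i).out with hρ
  have h1 : ∀ i, R (ρ i) i := fun i => Quotient.mk_out (s := st) i
  have h2 : ∀ i j, R i j → ρ i = ρ j := by
    intro i j hij
    have : Quotient.mk st i = Quotient.mk st j := Quotient.sound hij
    rw [hρ]
    dsimp only
    rw [this]
  have h3 : ∀ i j, ρ i = ρ j ↔ R i j := fun i j =>
    ⟨fun h => htrans _ _ _ (hsymm _ _ (h1 i)) (h ▸ h1 j), h2 i j⟩
  have h4 : ∀ i, ρ (ρ i) = ρ i := fun i => h2 _ _ (h1 i)
  set S : Finset (Fin d) := Finset.univ.filter fun i => ρ i = i with hS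
  refine ⟨ρ, S, fun i => hsymm _ _ (h1 i), fun i => ?_, ?_, fun i => ?_⟩
  · rw [hS, Finset.mem_filter]
    exact ⟨Finset.mem_univ _, h4 i⟩
  · refine card_reps hs hsd (c := ρ) (fun i => ?_) (R := S) fun i => ?_
    · rw [← hcard i]
      refine Nat.card_congr (Equiv.subtypeEquivRight fun j => ?_)
      rw [h3]
      exact ⟨fun h => hsymm _ _ h, fun h => hsymm _ _ h⟩
    · refine ⟨ρ i, ⟨?_, h4 i⟩, ?_⟩
      · rw [hS, Finset.mem_filter]
        exact ⟨Finset.mem_univ _, h4 i⟩
      · rintro k ⟨hk, hki⟩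
        rw [hS, Finset.mem_filter] at hk
        rw [← hki, hk.2]
  · rw [hS, Finset.mem_filter]
    simp

/-- the dimension of the span of the images of the root directions -/
lemma rank_ent {R : Fin d → Fin d → Prop} (hrefl : ∀ i, R i i)
    (hsymm : ∀ i j, R i j → R j i) (htrans : ∀ i j k, R i j → R j k → R i k) {s : ℕ} (hs : 1 < s)
    (hpos : 0 < d) (hsd : s ∣ d) (hcard : ∀ i, Nat.card {j // R i j} = s) {a b : Fin d → ℝ}
    (ha : ∀ i, a i ≠ 0) (hb : ∀ i, b i ≠ 0) (W' : Submodule ℝ (ℝ × (Fin d → ℝ)))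
    (hW : ∀ i j, i ≠ j → R i j → ((a j * ∏ l ∈ Finset.univ.erase i, a l, fun l =>
      if l = i then a j * b i else if l = j then -(a j * b i) else 0) : ℝ × (Fin d → ℝ)) ∈ W') :
    d ≤ Module.finrank ℝ W' + d / s ∧ (3 ≤ s → d + 1 ≤ Module.finrank ℝ W' + d / s) := by
  classical
  obtain ⟨ρ, S, hρ, hρS, hSc, hS⟩ := exists_reps_rel hrefl hsymm htrans hs hsd hcard
  have hs0 : 0 < s := by omega
  have hScard : S.card = d / s := (Nat.div_eq_of_eq_mul_left hs0 hSc.symm).symm
  -- the projection to the coordinates outside `S`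
  let π : (ℝ × (Fin d → ℝ)) →ₗ[ℝ] ({i // i ∉ S} → ℝ) :=
    { toFun := fun w i => w.2 i.1
      map_add' := fun w w' => rfl
      map_smul' := fun c w => rfl }
  have hcomp : Fintype.card {i // i ∉ S} + S.card = d := by
    rw [Fintype.card_subtype_compl, Fintype.card_coe, Fintype.card_fin]
    have := Finset.card_le_univ S
    rw [Fintype.card_fin] at this
    omega
  set ψ : W' →ₗ[ℝ] ({i // i ∉ S} → ℝ) := π.comp W'.subtype with hψ
  have hsurj : LinearMap.range ψ = ⊤ := by
    rw [eq_top_iff]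
    intro z _
    have h1 : z = ∑ i, z i • (Pi.single i (1 : ℝ) : {i // i ∉ S} → ℝ) := by
      funext l
      rw [Finset.sum_apply]
      simp [Pi.single_apply]
    rw [h1]
    refine Submodule.sum_mem _ fun i _ => Submodule.smul_mem _ _ ?_
    have hne : i.1 ≠ ρ i.1 := fun h => i.2 ((hS i.1).1 h.symm)
    have h2 := hW i.1 (ρ i.1) hne (hρ i.1)
    have hc : a (ρ i.1) * b i.1 ≠ 0 := mul_ne_zero (ha _) (hb _)
    refine ⟨(a (ρ i.1) * b i.1)⁻¹ • ⟨_, h2⟩, ?_⟩
    rw [map_smul]
    funext l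
    rw [Pi.smul_apply, smul_eq_mul]
    show (a (ρ i.1) * b i.1)⁻¹ * (if l.1 = i.1 then a (ρ i.1) * b i.1 else
      if l.1 = ρ i.1 then -(a (ρ i.1) * b i.1) else 0) = _
    by_cases hl : l = i
    · subst hl
      rw [if_pos rfl, Pi.single_eq_same, inv_mul_cancel₀ hc]
    · rw [Pi.single_eq_of_ne hl, if_neg (fun h => hl (Subtype.ext h)),
        if_neg (fun h : l.1 = ρ i.1 => l.2 (by rw [h]; exact hρS i.1)), mul_zero]
  have hrn := LinearMap.finrank_range_add_finrank_ker ψ
  rw [hsurj, finrank_top, Module.finrank_fintype_fun_eq_card] at hrn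
  refine ⟨by omega, fun hs3 => ?_⟩
  -- the first coordinate
  set i₀ : Fin d := ⟨0, hpos⟩ with hi₀
  obtain ⟨u, v, w, huv, huw, hvw⟩ : ∃ u v w : {j // R i₀ j}, u ≠ v ∧ u ≠ w ∧ v ≠ w := by
    have h1 : 2 < Fintype.card {j // R i₀ j} := by
      rw [← Nat.card_eq_fintype_card, hcard]
      omega
    exact Fintype.two_lt_card_iff.1 h1
  have hr : ∀ p q : {j // R i₀ j}, R p.1 q.1 := fun p q =>
    htrans _ _ _ (hsymm _ _ p.2) q.2
  have hne : ∀ p q : {j // R i₀ j}, p ≠ q → p.1 ≠ q.1 := fun p q h h' => h (Subtype.ext h')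
  set P : ℝ := ∏ l, a l with hP
  have hP0 : P ≠ 0 := Finset.prod_ne_zero_iff.2 fun l _ => ha l
  have herase : ∀ i, ∏ l ∈ Finset.univ.erase i, a l = P / a i := by
    intro i
    rw [eq_div_iff (ha i), mul_comm, hP]
    exact Finset.mul_prod_erase _ _ (Finset.mem_univ i)
  -- normalised vectors
  have hnorm : ∀ p q : {j // R i₀ j}, p ≠ q → ((P / (a p.1 * b p.1), fun l =>
      (if l = p.1 then (1 : ℝ) else 0) - (if l = q.1 then (1 : ℝ) else 0)) :
      ℝ × (Fin d → ℝ)) ∈ W' := by
    intro p q hpq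
    have h1 := hW p.1 q.1 (hne p q hpq) (hr p q)
    have hc : a q.1 * b p.1 ≠ 0 := mul_ne_zero (ha _) (hb _)
    have h2 := W'.smul_mem (a q.1 * b p.1)⁻¹ h1
    convert h2 using 1
    refine Prod.ext ?_ ?_
    · show P / (a p.1 * b p.1) = (a q.1 * b p.1)⁻¹ * (a q.1 * ∏ l ∈ Finset.univ.erase p.1, a l)
      rw [herase]
      have h3 := ha p.1
      have h4 := ha q.1
      have h5 := hb p.1
      field_simp
    · funext l
      show (if l = p.1 then (1 : ℝ) else 0) - (if l = q.1 then (1 : ℝ) else 0) =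
        (a q.1 * b p.1)⁻¹ * (if l = p.1 then a q.1 * b p.1 else
          if l = q.1 then -(a q.1 * b p.1) else 0)
      by_cases hl : l = p.1
      · have hl' : l ≠ q.1 := fun h => hne p q hpq (hl.symm.trans h)
        rw [if_pos hl, if_neg hl', if_pos hl, inv_mul_cancel₀ hc, sub_zero]
      · by_cases hl' : l = q.1
        · rw [if_neg hl, if_pos hl', if_neg hl, if_pos hl', mul_neg, inv_mul_cancel₀ hc, zero_sub]
        · rw [if_neg hl, if_neg hl', if_neg hl, if_neg hl', mul_zero, sub_zero]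
  have hone : ((1, 0) : ℝ × (Fin d → ℝ)) ∈ W' := by
    have h1 := W'.sub_mem (W'.sub_mem (hnorm u w huw) (hnorm v w hvw)) (hnorm u v huv)
    have hc : P / (a v.1 * b v.1) ≠ 0 := div_ne_zero hP0 (mul_ne_zero (ha _) (hb _))
    have h2 := W'.smul_mem (-(P / (a v.1 * b v.1))⁻¹) h1
    convert h2 using 1
    refine Prod.ext ?_ ?_
    · show (1 : ℝ) = -(P / (a v.1 * b v.1))⁻¹ *
        (P / (a u.1 * b u.1) - P / (a v.1 * b v.1) - P / (a u.1 * b u.1))
      have h3 : P / (a u.1 * b u.1) - P / (a v.1 * b v.1) - P / (a u.1 * b u.1) =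
        -(P / (a v.1 * b v.1)) := by ring
      rw [h3, neg_mul_neg, inv_mul_cancel₀ hc]
    · funext l
      show (0 : ℝ) = -(P / (a v.1 * b v.1))⁻¹ * _
      simp only [Prod.snd_sub, Pi.sub_apply]
      ring
  have hker : 0 < Module.finrank ℝ (LinearMap.ker ψ) := by
    have hmem : (⟨(1, 0), hone⟩ : W') ∈ LinearMap.ker ψ := by
      rw [LinearMap.mem_ker]
      funext l
      rfl
    refine Nat.pos_of_ne_zero fun h0 => ?_
    rw [Submodule.finrank_eq_zero.1 h0, Submodule.mem_bot] at hmem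
    have h1 := congrArg (fun z : W' => z.1.1) hmem
    exact one_ne_zero (α := ℝ) h1
  omega

/-- **The coefficients of the projections on a piece of a minimal set.** -/
theorem Rich.not_thin_ent (hd : 2 ≤ d) {V ν : ℝ} (hV : 0 < V) (hν : 0 < ν)
    {M : Set (Matrix (Fin d) (Fin d) ℝ)} (hMdet : ∀ h ∈ M, |h.det| = V)
    (hMnu : ∀ h ∈ M, HasNu h ν) {R : Fin d → Fin d → Prop} (hrefl : ∀ i, R i i)
    (hsymm : ∀ i j, R i j → R j i) (htrans : ∀ i j k, R i j → R j k → R i k) {s : ℕ}
    (hs : 1 < s) (hsd : s ∣ d) (h : Rich M R s) {O : Set (Matrix (Fin d) (Fin d) ℝ)}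
    (hO : IsOpen O) (hne : (O ∩ M).Nonempty) {x y : Fin d → ℤ} (hx : x ≠ 0) (hy : y ≠ 0) {n : ℕ}
    (hn : n + d / s < d ∨ (3 ≤ s ∧ n + d / s ≤ d)) :
    ¬ Thin n {w | ∃ g ∈ O ∩ M, w = ent x y g} := by
  have hdet0 : ∀ g ∈ M, g.det ≠ 0 := fun g hg h0 => by
    have h1 := hMdet g hg
    rw [h0, abs_zero] at h1
    exact hV.ne h1
  refine h.not_thin_map hO hne (v := fun g : Fin d → Fin d → ℝ => ent x y (Matrix.of g))
    (fun g hg => contDiffAt_ent (hdet0 g hg.2) x y) (fun g hg W' h1 _ => ?_)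
  have h2 := rank_ent hrefl hsymm htrans hs (by omega) hsd h.card (a := fun i => LF g i x)
    (b := fun i => DF g i y) (fun i => h.nz g hg.2 x hx i)
    (fun i h0 => hy (dual_ne hd hV hν (hMdet g hg.2) (hMnu g hg.2) i y h0)) W'
    (fun i j hij hR => by
      have h3 := h1 i j hij hR
      rw [fderiv_ent (hdet0 g hg.2) x y hij] at h3
      exact h3)
  rcases hn with hn | ⟨hs3, hn⟩
  · have := h2.1
    omega
  · have := h2.2 hs3
    omega

end Pool.Agent.Q34.CSDThin
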