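import Mathlib
import Pool.Agent.Q34.CSD.Sect

/-! # The sections of integral forms are countable -/

open Filter Topology Matrix

namespace Pool.Agent.Q34.CSDThin

open Y327 H715R2

variable {d : ℕ}

/-- the sections at members of a basis -/
def Sects (e : ℕ) (g : Matrix (Fin d) (Fin d) ℝ) : Set (ℝ × (Fin e → Fin d → ℝ)) :=
  {w | ∃ (γ : Matrix (Fin d) (Fin d) ℤ) (c : Fin (e + 1) → Fin d), IsUnit γ.det ∧
    Function.Injective c ∧ w = sec g (fun k i => γ i (c k))}

lemma LF_add (g : Matrix (Fin d) (Fin d) ℝ) (i : Fin d) (x y : Fin d → ℤ) (s : ℤ) :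
    LF g i (s • x + y) = (s : ℝ) * LF g i x + LF g i y := by
  unfold LF
  rw [Finset.mul_sum, ← Finset.sum_add_distrib]
  refine Finset.sum_congr rfl fun j _ => ?_
  simp only [Pi.add_apply, Pi.smul_apply, smul_eq_mul]
  push_cast
  ring

lemma FF_LF (g : Matrix (Fin d) (Fin d) ℝ) (x : Fin d → ℤ) :
    FF g (iR x) = ∏ i, LF g i x := rfl

/-- two products of `d` monic linear factors which agree at `d + 1` points have the same factors -/
lemma factors_mem {a b : Fin d → ℝ}
    (h : ∀ s : Fin (d + 1), ∏ i, ((s : ℕ) + a i : ℝ) = ∏ i, ((s : ℕ) + b i : ℝ)) (i : Fin d) :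
    a i ∈ Set.range b := by
  classical
  set P : (Fin d → ℝ) → Polynomial ℝ := fun a => ∏ i, (Polynomial.X + Polynomial.C (a i)) with hP
  have hdeg : ∀ a, (P a).natDegree = d := by
    intro a
    rw [hP]
    dsimp only
    rw [Polynomial.natDegree_prod_of_monic _ _ fun i _ => Polynomial.monic_X_add_C _]
    simp [Polynomial.natDegree_X_add_C]
  have hdeg' : ∀ a, (P a).degree < ((d + 1 : ℕ) : WithBot ℕ) := by
    intro a
    refine (Polynomial.degree_le_natDegree).trans_lt ?_
    rw [hdeg]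
    exact_mod_cast Nat.lt_succ_self d
  have hev : ∀ a (t : ℝ), (P a).eval t = ∏ i, (t + a i) := by
    intro a t
    rw [hP]
    dsimp only
    rw [Polynomial.eval_prod]
    simp
  have heq : P a = P b := by
    refine Polynomial.eq_of_degrees_lt_of_eval_index_eq (Finset.univ : Finset (Fin (d + 1)))
      (v := fun s : Fin (d + 1) => ((s : ℕ) : ℝ)) ?_ ?_ ?_ ?_
    · intro s _ t _ hst
      have h1 : ((s : ℕ) : ℝ) = ((t : ℕ) : ℝ) := hst
      exact Fin.ext (by exact_mod_cast h1)
    · rw [Finset.card_univ, Fintype.card_fin]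
      exact hdeg' a
    · rw [Finset.card_univ, Fintype.card_fin]
      exact hdeg' b
    · intro s _
      rw [hev, hev]
      exact h s
  have h1 : (P b).eval (-(a i)) = 0 := by
    rw [← heq, hev]
    exact Finset.prod_eq_zero (Finset.mem_univ i) (by simp)
  rw [hev, Finset.prod_eq_zero_iff] at h1
  obtain ⟨l, -, hl⟩ := h1
  exact ⟨l, by linarith⟩

/-- **The sections of an integral form are countable.** -/
theorem countable_sects {e : ℕ} {g : Matrix (Fin d) (Fin d) ℝ} (hP : H715R2.PropInt g) {ν : ℝ}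
    (hν0 : 0 < ν) (hν : HasNu g ν) : (closure (Sects e g)).Countable := by
  classical
  obtain ⟨c, hc, hcoef⟩ := hP
  have h2 : c • polyF g ∈ Set.range (MvPolynomial.map (σ := Fin d) (Int.castRingHom ℝ)) := by
    rw [MvPolynomial.mem_range_map_iff_coeffs_subset]
    intro z hz
    rw [Finset.mem_coe, MvPolynomial.mem_coeffs_iff] at hz
    obtain ⟨m, -, rfl⟩ := hz
    obtain ⟨z, hz⟩ := hcoef m
    exact ⟨z, by rw [hz]; rfl⟩
  obtain ⟨G, hG⟩ := h2
  have h3 : ∀ x : Fin d → ℤ, ∃ z : ℤ, c * ∏ i, LF g i x = (z : ℝ) := by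
    intro x
    rw [← FF_LF]
    refine ⟨MvPolynomial.eval x G, ?_⟩
    have h4 : c * FF g (iR x) = MvPolynomial.eval (iR x) (c • polyF g) := by
      rw [MvPolynomial.smul_eval, eval_polyF]
      rfl
    rw [h4, ← hG, MvPolynomial.eval_map]
    have h5 : (Int.castRingHom ℝ) (MvPolynomial.eval x G) = MvPolynomial.eval₂
        ((Int.castRingHom ℝ).comp (RingHom.id ℤ)) ((Int.castRingHom ℝ) ∘ x) G := by
      rw [MvPolynomial.eval]
      exact MvPolynomial.eval₂_comp_left _ _ _ _
    rw [RingHom.comp_id] at h5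
    exact h5.symm
  -- the closed set
  set Z : Set (ℝ × (Fin e → Fin d → ℝ)) := {w | ν ≤ |w.1| ∧ c * w.1 ∈ Set.range (Int.cast : ℤ → ℝ) ∧
    ∀ (j : Fin e) (s : Fin (d + 1)), c * (w.1 * ∏ i, (((s : ℕ) : ℝ) + w.2 j i)) ∈
      Set.range (Int.cast : ℤ → ℝ)} with hZ
  have hcl : IsClosed (Set.range (Int.cast : ℤ → ℝ)) := Int.isClosedEmbedding_coe_real.isClosed_range
  have hZc : IsClosed Z := by
    refine IsClosed.inter (isClosed_le continuous_const (continuous_abs.comp continuous_fst)) ?_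
    refine IsClosed.inter (hcl.preimage (continuous_const.mul continuous_fst)) ?_
    show IsClosed {w : ℝ × (Fin e → Fin d → ℝ) | ∀ (j : Fin e) (s : Fin (d + 1)),
      c * (w.1 * ∏ i, (((s : ℕ) : ℝ) + w.2 j i)) ∈ Set.range (Int.cast : ℤ → ℝ)}
    simp only [Set.ofPred_forall]
    refine isClosed_iInter fun j => isClosed_iInter fun s => ?_
    refine hcl.preimage (continuous_const.mul (continuous_fst.mul ?_))
    refine continuous_finsetProd _ fun i _ => continuous_const.add ?_
    exact (continuous_apply_apply j i).comp continuous_snd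
  have hsub : closure (Sects e g) ⊆ Z := by
    refine closure_minimal ?_ hZc
    rintro _ ⟨γ, b, hγ, hb, rfl⟩
    set x : Fin (e + 1) → Fin d → ℤ := fun k i => γ i (b k) with hx
    have hx0 : ∀ k, x k ≠ 0 := by
      intro k h0
      have h4 : γ.det = 0 := by
        refine Matrix.det_eq_zero_of_column_eq_zero (b k) fun i => ?_
        exact congrFun h0 i
      rw [h4] at hγ
      exact not_isUnit_zero hγ
    have hL0 : ∀ i, LF g i (x 0) ≠ 0 := by
      intro i h0
      have h4 := hν (x 0) (hx0 0)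
      rw [FF_LF, Finset.prod_eq_zero (Finset.mem_univ i) h0, abs_zero] at h4
      exact absurd h4 (not_le.2 hν0)
    refine ⟨?_, ?_, fun j s => ?_⟩
    · exact hν (x 0) (hx0 0)
    · obtain ⟨z, hz⟩ := h3 (x 0)
      exact ⟨z, hz.symm⟩
    · obtain ⟨z, hz⟩ := h3 (((s : ℕ) : ℤ) • x 0 + x j.succ)
      refine ⟨z, ?_⟩
      rw [← hz]
      congr 1
      show ∏ i, LF g i (((s : ℕ) : ℤ) • x 0 + x j.succ) =
        (∏ i, LF g i (x 0)) * ∏ i, (((s : ℕ) : ℝ) + LF g i (x j.succ) / LF g i (x 0))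
      rw [← Finset.prod_mul_distrib]
      refine Finset.prod_congr rfl fun i _ => ?_
      rw [LF_add, mul_add, mul_div_cancel₀ _ (hL0 i)]
      push_cast
      ring
  refine Set.Countable.mono hsub ?_
  -- the fibres
  set Zf : ℤ × (Fin e → Fin (d + 1) → ℤ) → Set (ℝ × (Fin e → Fin d → ℝ)) := fun z =>
    {w | ν ≤ |w.1| ∧ c * w.1 = z.1 ∧
      ∀ (j : Fin e) (s : Fin (d + 1)), c * (w.1 * ∏ i, (((s : ℕ) : ℝ) + w.2 j i)) = z.2 j s} with hZf
  have hcover : Z ⊆ ⋃ z, Zf z := by
    rintro w ⟨h4, ⟨z, hz⟩, h5⟩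
    choose z' hz' using h5
    exact Set.mem_iUnion.2 ⟨(z, z'), h4, hz.symm, fun j s => (hz' j s).symm⟩
  refine Set.Countable.mono hcover (Set.countable_iUnion fun z => ?_)
  rcases (Zf z).eq_empty_or_nonempty with h0 | ⟨w₀, hw₀, hw₁, hw₂⟩
  · rw [h0]
    exact Set.countable_empty
  have hw00 : w₀.1 ≠ 0 := by
    intro h0
    rw [h0, abs_zero] at hw₀
    exact absurd hw₀ (not_le.2 hν0)
  have hfin : ({w₀.1} ×ˢ {ρ : Fin e → Fin d → ℝ | ∀ j i, ρ j i ∈ Set.range (w₀.2 j)} :
      Set (ℝ × (Fin e → Fin d → ℝ))).Finite := by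
    refine (Set.finite_singleton _).prod ?_
    exact Set.Finite.pi' (t := fun j => {f : Fin d → ℝ | ∀ i, f i ∈ Set.range (w₀.2 j)})
      fun j => Set.Finite.pi' (t := fun _ => Set.range (w₀.2 j)) fun _ => Set.finite_range _
  refine (hfin.subset ?_).countable
  rintro w ⟨h4, h5, h6⟩
  have h7 : w.1 = w₀.1 := by
    have := h5.trans hw₁.symm
    exact mul_left_cancel₀ hc this
  refine ⟨h7, fun j i => ?_⟩
  refine factors_mem (fun s => ?_) i
  have h8 := (h6 j s).trans (hw₂ j s).symm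
  rw [h7] at h8
  exact mul_left_cancel₀ hw00 (mul_left_cancel₀ hc h8)

/-- the sections of the orbit closure at unit vectors -/
lemma sec_mem {e : ℕ} {g h : Matrix (Fin d) (Fin d) ℝ} (hh : h ∈ closure (Orb g))
    {c : Fin (e + 1) → Fin d} (hc : Function.Injective c) (h0 : ∀ i, h i (c 0) ≠ 0) :
    sec h (fun k => Pi.single (c k) 1) ∈ closure (Sects e g) := by
  have hL : ∀ (h : Matrix (Fin d) (Fin d) ℝ) i k, LF h i (Pi.single k 1) = h i k := by
    intro h i k
    unfold LF
    rw [Finset.sum_eq_single k]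
    · simp
    · intro b _ hb
      simp [Pi.single_eq_of_ne hb]
    · intro h1
      exact absurd (Finset.mem_univ _) h1
  have hcont : ContinuousAt (fun h : Matrix (Fin d) (Fin d) ℝ =>
      sec h (fun k : Fin (e + 1) => Pi.single (c k) 1)) h := by
    have h1 : (fun h : Matrix (Fin d) (Fin d) ℝ =>
        sec h (fun k : Fin (e + 1) => Pi.single (c k) 1)) = fun h =>
        (∏ i, h i (c 0), fun j i => h i (c j.succ) / h i (c 0)) := by
      funext h
      unfold sec
      simp only [hL]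
    rw [h1]
    have hce : ∀ i k, Continuous (fun h : Matrix (Fin d) (Fin d) ℝ => h i k) :=
      fun i k => continuous_apply_apply i k
    refine ContinuousAt.prodMk ?_ ?_
    · exact (continuous_finsetProd _ fun i _ => hce i (c 0)).continuousAt
    · refine continuousAt_pi.2 fun j => continuousAt_pi.2 fun i => ?_
      exact (hce i (c j.succ)).continuousAt.div (hce i (c 0)).continuousAt (h0 i)
  rw [mem_closure_iff_nhds]
  intro s hs
  obtain ⟨h', hmem, a, γ, ha0, ha1, hγ, rfl⟩ := mem_closure_iff_nhds.1 hh _ (hcont hs)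
  refine ⟨_, hmem, γ, c, hγ, hc, ?_⟩
  have h1 : ∀ i k, (diagonal a * g * zR γ) i k = a i * LF g i (fun l => γ l k) := by
    intro i k
    rw [Matrix.mul_assoc, Matrix.diagonal_mul, Matrix.mul_apply]
    rfl
  show sec (diagonal a * g * zR γ) (fun k : Fin (e + 1) => Pi.single (c k) 1) = _
  unfold sec
  simp only [hL, h1]
  refine Prod.ext ?_ ?_
  · show ∏ i, a i * LF g i (fun l => γ l (c 0)) = _
    rw [Finset.prod_mul_distrib, ha1, one_mul]
  · funext j i
    exact mul_div_mul_left _ _ (ha0 i).ne'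

end Pool.Agent.Q34.CSDThin
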