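import Mathlib
import Pool.Agent.Q34.CSD.Proj
import Pool.Agent.Q34.CSD.SectCount
import Pool.Agent.H905R2.OppD

/-! # The coefficients of the projections: closure and countability -/

open Filter Topology Matrix

namespace Pool.Agent.Q34.CSDThin

open Y327 H715R2

variable {d : ℕ}

/-- the images of the pair `(x, y)` under unimodular matrices -/
def Ents (x y : Fin d → ℤ) (g : Matrix (Fin d) (Fin d) ℝ) : Set (ℝ × (Fin d → ℝ)) :=
  {w | ∃ (γ : Matrix (Fin d) (Fin d) ℤ) (y' : Fin d → ℤ), IsUnit γ.det ∧ y' ᵥ* γ = y ∧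
    w = ent (γ *ᵥ x) y' g}

lemma LF_eq_mulVec (g : Matrix (Fin d) (Fin d) ℝ) (i : Fin d) (x : Fin d → ℤ) :
    LF g i x = (g *ᵥ iR x) i := rfl

lemma LF_orb (a : Fin d → ℝ) (g : Matrix (Fin d) (Fin d) ℝ) (γ : Matrix (Fin d) (Fin d) ℤ)
    (i : Fin d) (x : Fin d → ℤ) :
    LF (diagonal a * g * zR γ) i x = a i * LF g i (γ *ᵥ x) := by
  rw [LF_eq_mulVec, LF_eq_mulVec, ← mulVec_mulVec, zR_mulVec_iR, ← mulVec_mulVec,
    mulVec_diagonal]

lemma zR_det_ne {γ : Matrix (Fin d) (Fin d) ℤ} (hγ : IsUnit γ.det) : IsUnit (zR γ).det := by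
  have h1 : (zR γ).det = ((γ.det : ℤ) : ℝ) := by
    have := (Int.castRingHom ℝ).map_det γ
    simpa [zR] using this.symm
  rw [h1]
  exact hγ.map (Int.castRingHom ℝ)

lemma DF_orb {a : Fin d → ℝ} (ha : ∀ i, 0 < a i) (g : Matrix (Fin d) (Fin d) ℝ)
    {γ : Matrix (Fin d) (Fin d) ℤ} (hγ : IsUnit γ.det) (i : Fin d) {y y' : Fin d → ℤ}
    (hy : y' ᵥ* γ = y) : DF (diagonal a * g * zR γ) i y = (a i)⁻¹ * DF g i y' := by
  unfold DF
  have h1 : iR y = iR y' ᵥ* zR γ := by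
    funext j
    rw [← vecMul_cast, hy]
    rfl
  have h2 : (diagonal a)⁻¹ = diagonal fun i => (a i)⁻¹ := by
    refine Matrix.inv_eq_left_inv ?_
    rw [diagonal_mul_diagonal]
    have : (fun i => (a i)⁻¹ * a i) = fun _ => (1 : ℝ) := by
      funext i
      exact inv_mul_cancel₀ (ha i).ne'
    rw [this, diagonal_one]
  have h3 : iR y' ᵥ* zR γ ᵥ* ((zR γ)⁻¹ * (g⁻¹ * (diagonal a)⁻¹)) =
      iR y' ᵥ* g⁻¹ ᵥ* (diagonal a)⁻¹ := by
    rw [Matrix.vecMul_vecMul, ← Matrix.mul_assoc, Matrix.mul_nonsing_inv _ (zR_det_ne hγ),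
      Matrix.one_mul, Matrix.vecMul_vecMul]
  rw [Matrix.mul_inv_rev, Matrix.mul_inv_rev, h1, h3, h2, Matrix.vecMul_diagonal, mul_comm]

lemma ent_orb {a : Fin d → ℝ} (ha : ∀ i, 0 < a i) (ha1 : ∏ i, a i = 1)
    (g : Matrix (Fin d) (Fin d) ℝ) {γ : Matrix (Fin d) (Fin d) ℤ} (hγ : IsUnit γ.det)
    {x y y' : Fin d → ℤ} (hy : y' ᵥ* γ = y) :
    ent x y (diagonal a * g * zR γ) = ent (γ *ᵥ x) y' g := by
  unfold ent
  refine Prod.ext ?_ ?_
  · show ∏ i, LF (diagonal a * g * zR γ) i x = _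
    simp only [LF_orb]
    rw [Finset.prod_mul_distrib, ha1, one_mul]
  · funext i
    show LF (diagonal a * g * zR γ) i x * DF (diagonal a * g * zR γ) i y = _
    rw [LF_orb, DF_orb ha g hγ i hy]
    have := (ha i).ne'
    field_simp

lemma ent_mem {g h : Matrix (Fin d) (Fin d) ℝ} (hh : h ∈ closure (Orb g)) (hdet : h.det ≠ 0)
    (x y : Fin d → ℤ) : ent x y h ∈ closure (Ents x y g) := by
  have hcont : ContinuousAt (fun h : Matrix (Fin d) (Fin d) ℝ => ent x y h) h :=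
    (contDiffAt_ent hdet x y).continuousAt
  rw [mem_closure_iff_nhds]
  intro s hs
  obtain ⟨h', hmem, a, γ, ha0, ha1, hγ, rfl⟩ := mem_closure_iff_nhds.1 hh _ (hcont hs)
  have hy : (y ᵥ* γ⁻¹) ᵥ* γ = y := by
    rw [Matrix.vecMul_vecMul, Matrix.nonsing_inv_mul _ hγ, Matrix.vecMul_one]
  refine ⟨_, hmem, γ, y ᵥ* γ⁻¹, hγ, hy, ?_⟩
  exact ent_orb ha0 ha1 g hγ hy

/-- powers -/
lemma eig_pow {g : Matrix (Fin d) (Fin d) ℝ} {A : Matrix (Fin d) (Fin d) ℤ} {lam : Fin d → ℝ}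
    (hA : g * zR A = diagonal lam * g) (k : ℕ) :
    g * zR (A ^ k) = diagonal (fun i => lam i ^ k) * g := by
  induction k with
  | zero =>
    have h1 : zR (1 : Matrix (Fin d) (Fin d) ℤ) = 1 := by
      ext i j
      simp [zR, Matrix.one_apply]
    simp only [pow_zero]
    rw [h1, Matrix.mul_one, diagonal_one, Matrix.one_mul]
  | succ k ih =>
    rw [pow_succ, zR_mul, ← Matrix.mul_assoc, ih, Matrix.mul_assoc, hA, ← Matrix.mul_assoc,
      diagonal_mul_diagonal]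
    simp only [pow_succ]

lemma dot_int (x y : Fin d → ℤ) : iR y ⬝ᵥ iR x = ((y ⬝ᵥ x : ℤ) : ℝ) := by
  simp [dotProduct, iR]

/-- the moments of the coefficients are integers -/
lemma moment {g : Matrix (Fin d) (Fin d) ℝ} (hg : IsUnit g.det) {A : Matrix (Fin d) (Fin d) ℤ}
    {lam : Fin d → ℝ} (hA : g * zR A = diagonal lam * g) (x y : Fin d → ℤ) (k : ℕ) :
    ∑ i, (LF g i x * DF g i y) * lam i ^ k = ((y ⬝ᵥ (A ^ k *ᵥ x) : ℤ) : ℝ) := by
  rw [← dot_int, ← zR_mulVec_iR]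
  have h1 : iR y ⬝ᵥ (zR (A ^ k) *ᵥ iR x) = (iR y ᵥ* g⁻¹) ⬝ᵥ (diagonal (fun i => lam i ^ k) *ᵥ
      (g *ᵥ iR x)) := by
    rw [Matrix.mulVec_mulVec, ← eig_pow hA, Matrix.dotProduct_mulVec,
      Matrix.dotProduct_mulVec, Matrix.vecMul_vecMul, ← Matrix.mul_assoc,
      Matrix.nonsing_inv_mul _ hg, Matrix.one_mul]
  rw [h1, dotProduct]
  refine Finset.sum_congr rfl fun i _ => ?_
  rw [Matrix.mulVec_diagonal]
  show ((g *ᵥ iR x) i * (iR y ᵥ* g⁻¹) i) * lam i ^ k = _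
  ring

/-- **The coefficients are countable for an integral form with a matrix.** -/
theorem countable_ents {g : Matrix (Fin d) (Fin d) ℝ} (hg : IsUnit g.det)
    (hP : H715R2.PropInt g) {A : Matrix (Fin d) (Fin d) ℤ} {lam : Fin d → ℝ}
    (hlam : Function.Injective lam) (hA : g * zR A = diagonal lam * g) (x y : Fin d → ℤ) :
    (closure (Ents x y g)).Countable := by
  classical
  obtain ⟨c, hc, hcoef⟩ := hP
  have h2 : c • polyF g ∈ Set.range (MvPolynomial.map (σ := Fin d) (Int.castRingHom ℝ)) := by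
    rw [MvPolynomial.mem_range_map_iff_coeffs_subset]
    intro z hz
    rw [Finset.mem_coe, MvPolynomial.mem_coeffs_iff] at hz
    obtain ⟨m, -, rfl⟩ := hz
    obtain ⟨z, hz⟩ := hcoef m
    exact ⟨z, by rw [hz]; rfl⟩
  obtain ⟨G, hG⟩ := h2
  have h3 : ∀ x : Fin d → ℤ, ∃ z : ℤ, c * ∏ i, LF g i x = (z : ℝ) := by
    intro x
    rw [← FF_LF]
    refine ⟨MvPolynomial.eval x G, ?_⟩
    have h4 : c * FF g (iR x) = MvPolynomial.eval (iR x) (c • polyF g) := by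
      rw [MvPolynomial.smul_eval, eval_polyF]
      rfl
    rw [h4, ← hG, MvPolynomial.eval_map]
    have h5 : (Int.castRingHom ℝ) (MvPolynomial.eval x G) = MvPolynomial.eval₂
        ((Int.castRingHom ℝ).comp (RingHom.id ℤ)) ((Int.castRingHom ℝ) ∘ x) G := by
      rw [MvPolynomial.eval]
      exact MvPolynomial.eval₂_comp_left _ _ _ _
    rw [RingHom.comp_id] at h5
    exact h5.symm
  set Z : Set (ℝ × (Fin d → ℝ)) := {w | c * w.1 ∈ Set.range (Int.cast : ℤ → ℝ) ∧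
    ∀ k : Fin d, ∑ i, w.2 i * lam i ^ (k : ℕ) ∈ Set.range (Int.cast : ℤ → ℝ)} with hZ
  have hcl : IsClosed (Set.range (Int.cast : ℤ → ℝ)) := Int.isClosedEmbedding_coe_real.isClosed_range
  have hZc : IsClosed Z := by
    refine IsClosed.inter (hcl.preimage (continuous_const.mul continuous_fst)) ?_
    show IsClosed {w : ℝ × (Fin d → ℝ) | ∀ k : Fin d,
      ∑ i, w.2 i * lam i ^ (k : ℕ) ∈ Set.range (Int.cast : ℤ → ℝ)}
    simp only [Set.ofPred_forall]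
    refine isClosed_iInter fun k => hcl.preimage ?_
    refine continuous_finsetSum _ fun i _ => ?_
    exact ((continuous_apply i).comp continuous_snd).mul continuous_const
  have hsub : closure (Ents x y g) ⊆ Z := by
    refine closure_minimal ?_ hZc
    rintro _ ⟨γ, y', hγ, -, rfl⟩
    refine ⟨?_, fun k => ?_⟩
    · obtain ⟨z, hz⟩ := h3 (γ *ᵥ x)
      exact ⟨z, hz.symm⟩
    · exact ⟨_, (moment hg hA (γ *ᵥ x) y' k).symm⟩
  refine Set.Countable.mono hsub ?_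
  set Zf : ℤ × (Fin d → ℤ) → Set (ℝ × (Fin d → ℝ)) := fun z =>
    {w | c * w.1 = z.1 ∧ ∀ k : Fin d, ∑ i, w.2 i * lam i ^ (k : ℕ) = z.2 k} with hZf
  have hcover : Z ⊆ ⋃ z, Zf z := by
    rintro w ⟨⟨z, hz⟩, h5⟩
    choose z' hz' using h5
    exact Set.mem_iUnion.2 ⟨(z, z'), hz.symm, fun k => (hz' k).symm⟩
  refine Set.Countable.mono hcover (Set.countable_iUnion fun z => ?_)
  refine Set.Subsingleton.countable ?_
  rintro w ⟨h4, h5⟩ w' ⟨h4', h5'⟩
  refine Prod.ext (mul_left_cancel₀ hc (h4.trans h4'.symm)) ?_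
  have h6 : (w.2 - w'.2) ᵥ* Matrix.vandermonde lam = 0 := by
    funext k
    rw [Matrix.sub_vecMul, Pi.sub_apply, Pi.zero_apply, sub_eq_zero]
    show ∑ i, w.2 i * Matrix.vandermonde lam i k = ∑ i, w'.2 i * Matrix.vandermonde lam i k
    simp only [Matrix.vandermonde_apply]
    rw [h5 k, h5' k]
  have h7 := Matrix.eq_zero_of_vecMul_eq_zero (Matrix.det_vandermonde_ne_zero_iff.2 hlam) h6
  exact sub_eq_zero.1 h7

end Pool.Agent.Q34.CSDThin
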