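import Mathlib
import Pool.Agent.Q34.CSD.ProjCount

/-! # The product of the forms and the product of the dual forms -/

open Filter Topology Matrix

namespace Pool.Agent.Q34.CSDThin

open Y327 H715R2

variable {d : ℕ}

/-- the product of the dual forms -/
noncomputable def DP (g : Matrix (Fin d) (Fin d) ℝ) (y : Fin d → ℤ) : ℝ := ∏ i, DF g i y

/-- the values of the product at the points `x` and of the dual product at the covectors `y` -/
noncomputable def jv {m l : ℕ} (x : Fin m → Fin d → ℤ) (y : Fin l → Fin d → ℤ)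
    (g : Matrix (Fin d) (Fin d) ℝ) : (Fin m → ℝ) × (Fin l → ℝ) :=
  (fun k => ∏ i, LF g i (x k), fun k => ∏ i, DF g i (y k))

lemma contDiffAt_jv {m l : ℕ} {g : Matrix (Fin d) (Fin d) ℝ} (hg : g.det ≠ 0)
    (x : Fin m → Fin d → ℤ) (y : Fin l → Fin d → ℤ) :
    ContDiffAt ℝ 1 (fun g : Fin d → Fin d → ℝ => jv x y (Matrix.of g))
      (show Fin d → Fin d → ℝ from g) := by
  refine ContDiffAt.prodMk ?_ ?_
  · exact contDiffAt_pi.2 fun k => contDiffAt_prod fun i _ => contDiffAt_LF i (x k)
  · exact contDiffAt_pi.2 fun k => contDiffAt_prod fun i _ => contDiffAt_DF hg i (y k)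

lemma DF_line' {g : Matrix (Fin d) (Fin d) ℝ} {i j : Fin d} (hij : i ≠ j) (t : ℝ)
    (y : Fin d → ℤ) :
    ∏ a, DF (Matrix.of ((show Fin d → Fin d → ℝ from g) + t • XX i j g)) a y =
      ∏ a, DF g a y + t * -(DF g i y * ∏ a ∈ Finset.univ.erase j, DF g a y) := by
  rw [← Finset.mul_prod_erase _ _ (Finset.mem_univ j), DF_line hij, if_pos rfl,
    ← Finset.mul_prod_erase _ (fun a => DF g a y) (Finset.mem_univ j)]
  have h2 : ∏ a ∈ Finset.univ.erase j,
      DF (Matrix.of ((show Fin d → Fin d → ℝ from g) + t • XX i j g)) a y =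
      ∏ a ∈ Finset.univ.erase j, DF g a y := by
    refine Finset.prod_congr rfl fun a ha => ?_
    rw [DF_line hij, if_neg (Finset.ne_of_mem_erase ha), sub_zero]
  rw [h2]
  ring

lemma LF_prod_line (g : Matrix (Fin d) (Fin d) ℝ) (i j : Fin d) (t : ℝ) (x : Fin d → ℤ) :
    ∏ a, LF (Matrix.of ((show Fin d → Fin d → ℝ from g) + t • XX i j g)) a x =
      ∏ a, LF g a x + t * (LF g j x * ∏ a ∈ Finset.univ.erase i, LF g a x) := by
  rw [← Finset.mul_prod_erase _ _ (Finset.mem_univ i), LF_line', if_pos rfl,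
    ← Finset.mul_prod_erase _ (fun a => LF g a x) (Finset.mem_univ i)]
  have h2 : ∏ a ∈ Finset.univ.erase i,
      LF (Matrix.of ((show Fin d → Fin d → ℝ from g) + t • XX i j g)) a x =
      ∏ a ∈ Finset.univ.erase i, LF g a x := by
    refine Finset.prod_congr rfl fun a ha => ?_
    rw [LF_line', if_neg (Finset.ne_of_mem_erase ha), add_zero]
  rw [h2]
  ring

lemma fderiv_jv {m l : ℕ} {g : Matrix (Fin d) (Fin d) ℝ} (hg : g.det ≠ 0)
    (x : Fin m → Fin d → ℤ) (y : Fin l → Fin d → ℤ) {i j : Fin d} (hij : i ≠ j) :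
    fderiv ℝ (fun g : Fin d → Fin d → ℝ => jv x y (Matrix.of g)) g (XX i j g) =
      (fun k => LF g j (x k) * ∏ a ∈ Finset.univ.erase i, LF g a (x k),
        fun k => -(DF g i (y k) * ∏ a ∈ Finset.univ.erase j, DF g a (y k))) := by
  refine fderiv_root (contDiffAt_jv hg x y) i j ?_
  have h1 : (fun t : ℝ => jv x y (Matrix.of ((show Fin d → Fin d → ℝ from g) + t • XX i j g))) =
      fun t => (fun k => ∏ i, LF g i (x k) +
        t * (LF g j (x k) * ∏ a ∈ Finset.univ.erase i, LF g a (x k)),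
        fun k => ∏ i, DF g i (y k) +
        t * -(DF g i (y k) * ∏ a ∈ Finset.univ.erase j, DF g a (y k))) := by
    funext t
    unfold jv
    refine Prod.ext ?_ ?_
    · funext k
      exact LF_prod_line g i j t (x k)
    · funext k
      exact DF_line' hij t (y k)
  rw [h1]
  have hlin : ∀ c b : ℝ, HasDerivAt (fun t : ℝ => b + t * c) c 0 := by
    intro c b
    have := ((hasDerivAt_id (0 : ℝ)).mul_const c).const_add b
    simpa using this
  exact HasDerivAt.prodMk (hasDerivAt_pi.2 fun k => hlin _ _) (hasDerivAt_pi.2 fun k => hlin _ _)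

/-- **The linear algebra.** -/
lemma joint_zero {m l : ℕ} (hd : 0 < d) (hml : m + l < d) {a : Fin m → Fin d → ℝ}
    {b : Fin l → Fin d → ℝ} (ha : ∀ k i, a k i ≠ 0) (hb : ∀ k i, b k i ≠ 0)
    (hla : LinearIndependent ℝ a) (hlb : LinearIndependent ℝ b)
    (hab : ∀ k k', ∑ i, a k i * b k' i = 0) {lam : Fin m → ℝ} {mu : Fin l → ℝ}
    (h0 : ∀ i j, i ≠ j → ∑ k, lam k * (a k j / a k i) = ∑ k, mu k * (b k i / b k j)) :
    (∀ k, lam k = 0) ∧ ∀ k, mu k = 0 := by
  classical
  set δ : ℝ := ∑ k, lam k - ∑ k, mu k with hδ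
  have hP : ∀ i j, ∑ k, lam k * (a k j / a k i) - ∑ k, mu k * (b k i / b k j) =
      if i = j then δ else 0 := by
    intro i j
    by_cases hij : i = j
    · subst hij
      rw [if_pos rfl, hδ]
      congr 1
      · exact Finset.sum_congr rfl fun k _ => by rw [div_self (ha k i), mul_one]
      · exact Finset.sum_congr rfl fun k _ => by rw [div_self (hb k i), mul_one]
    · rw [if_neg hij, h0 i j hij, sub_self]
  -- the products with vectors on the right
  have hR : ∀ (z : Fin d → ℝ) i, ∑ k, lam k / a k i * (∑ j, a k j * z j) -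
      ∑ k, mu k * b k i * (∑ j, z j / b k j) = δ * z i := by
    intro z i
    have h1 : ∑ j, (∑ k, lam k * (a k j / a k i) - ∑ k, mu k * (b k i / b k j)) * z j =
        δ * z i := by
      rw [Finset.sum_congr rfl fun j _ => by rw [hP i j]]
      simp
    rw [← h1]
    simp only [sub_mul, Finset.sum_sub_distrib, Finset.sum_mul, Finset.mul_sum]
    congr 1
    · rw [Finset.sum_comm]
      refine Finset.sum_congr rfl fun j _ => Finset.sum_congr rfl fun k _ => ?_
      ring
    · rw [Finset.sum_comm]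
      refine Finset.sum_congr rfl fun j _ => Finset.sum_congr rfl fun k _ => ?_
      ring
  have hLft : ∀ (z : Fin d → ℝ) j, ∑ k, lam k * a k j * (∑ i, z i / a k i) -
      ∑ k, mu k / b k j * (∑ i, b k i * z i) = δ * z j := by
    intro z j
    have h1 : ∑ i, (∑ k, lam k * (a k j / a k i) - ∑ k, mu k * (b k i / b k j)) * z i =
        δ * z j := by
      rw [Finset.sum_congr rfl fun i _ => by rw [hP i j]]
      simp
    rw [← h1]
    simp only [sub_mul, Finset.sum_sub_distrib, Finset.sum_mul, Finset.mul_sum]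
    congr 1
    · rw [Finset.sum_comm]
      refine Finset.sum_congr rfl fun j _ => Finset.sum_congr rfl fun k _ => ?_
      ring
    · rw [Finset.sum_comm]
      refine Finset.sum_congr rfl fun j _ => Finset.sum_congr rfl fun k _ => ?_
      ring
  -- `δ = 0`
  have hδ0 : δ = 0 := by
    let T : (Fin d → ℝ) →ₗ[ℝ] (Fin m → ℝ) × (Fin l → ℝ) :=
      { toFun := fun z => (fun k => ∑ j, a k j * z j, fun k => ∑ j, z j / b k j)
        map_add' := fun z z' => by
          refine Prod.ext ?_ ?_
          · funext k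
            simp only [Pi.add_apply, mul_add, Finset.sum_add_distrib, Prod.fst_add]
          · funext k
            simp only [Pi.add_apply, add_div, Finset.sum_add_distrib, Prod.snd_add]
        map_smul' := fun c z => by
          refine Prod.ext ?_ ?_
          · funext k
            simp only [Pi.smul_apply, smul_eq_mul, Prod.smul_fst, RingHom.id_apply,
              Finset.mul_sum]
            exact Finset.sum_congr rfl fun _ _ => by ring
          · funext k
            simp only [Pi.smul_apply, smul_eq_mul, Prod.smul_snd, RingHom.id_apply,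
              Finset.mul_sum]
            exact Finset.sum_congr rfl fun _ _ => by ring }
    have hker : LinearMap.ker T ≠ ⊥ := by
      apply LinearMap.ker_ne_bot_of_finrank_lt
      rw [Module.finrank_prod, Module.finrank_fintype_fun_eq_card,
        Module.finrank_fintype_fun_eq_card, Module.finrank_fintype_fun_eq_card, Fintype.card_fin,
        Fintype.card_fin, Fintype.card_fin]
      exact hml
    obtain ⟨z, hz, hz0⟩ := (Submodule.ne_bot_iff _).1 hker
    obtain ⟨i, hi⟩ : ∃ i, z i ≠ 0 := by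
      by_contra hcon
      push Not at hcon
      exact hz0 (funext hcon)
    have h1 := hR z i
    have h2 : ∀ k, ∑ j, a k j * z j = 0 := fun k => congrFun (congrArg Prod.fst hz) k
    have h3 : ∀ k, ∑ j, z j / b k j = 0 := fun k => congrFun (congrArg Prod.snd hz) k
    simp only [h2, h3, mul_zero, Finset.sum_const_zero, sub_zero] at h1
    exact (mul_eq_zero.1 h1.symm).resolve_right hi
  have hdR : (d : ℝ) ≠ 0 := by exact_mod_cast hd.ne'
  refine ⟨fun k₀ => ?_, fun k₀ => ?_⟩
  · have h1 : ∑ k, (lam k * ∑ i, a k₀ i / a k i) • a k = 0 := by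
      funext j
      have h2 := hLft (a k₀) j
      have h3 : ∀ k, ∑ i, b k i * a k₀ i = 0 := fun k => by
        rw [← hab k₀ k]
        exact Finset.sum_congr rfl fun i _ => mul_comm _ _
      simp only [h3, mul_zero, Finset.sum_const_zero, sub_zero, hδ0, zero_mul] at h2
      rw [Finset.sum_apply, Pi.zero_apply, ← h2]
      refine Finset.sum_congr rfl fun k _ => ?_
      rw [Pi.smul_apply, smul_eq_mul]
      ring
    have h2 := Fintype.linearIndependent_iff.1 hla _ h1 k₀
    have h3 : ∑ i, a k₀ i / a k₀ i = d := by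
      rw [Finset.sum_congr rfl fun i _ => div_self (ha k₀ i)]
      simp
    rw [h3] at h2
    exact (mul_eq_zero.1 h2).resolve_right hdR
  · have h1 : ∑ k, (mu k * ∑ j, b k₀ j / b k j) • b k = 0 := by
      funext i
      have h2 := hR (b k₀) i
      simp only [hab _ k₀, mul_zero, Finset.sum_const_zero, hδ0, zero_mul, zero_sub,
        neg_eq_zero] at h2
      rw [Finset.sum_apply, Pi.zero_apply, ← h2]
      refine Finset.sum_congr rfl fun k _ => ?_
      rw [Pi.smul_apply, smul_eq_mul]
      ring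
    have h2 := Fintype.linearIndependent_iff.1 hlb _ h1 k₀
    have h3 : ∑ i, b k₀ i / b k₀ i = d := by
      rw [Finset.sum_congr rfl fun i _ => div_self (hb k₀ i)]
      simp
    rw [h3] at h2
    exact (mul_eq_zero.1 h2).resolve_right hdR

lemma pairing {g : Matrix (Fin d) (Fin d) ℝ} (hg : IsUnit g.det) (x y : Fin d → ℤ) :
    ∑ i, LF g i x * DF g i y = ((y ⬝ᵥ x : ℤ) : ℝ) := by
  rw [← dot_int]
  have h1 : iR y ⬝ᵥ iR x = (iR y ᵥ* g⁻¹) ⬝ᵥ (g *ᵥ iR x) := by
    rw [Matrix.dotProduct_mulVec, Matrix.vecMul_vecMul, Matrix.nonsing_inv_mul _ hg,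
      Matrix.vecMul_one]
  rw [h1, dotProduct]
  exact Finset.sum_congr rfl fun i _ => mul_comm _ _

lemma indep_LF {m : ℕ} {g : Matrix (Fin d) (Fin d) ℝ} (hg : IsUnit g.det)
    {x : Fin m → Fin d → ℤ}
    (hx : LinearIndependent ℝ (fun (k : Fin m) (j : Fin d) => (x k j : ℝ))) :
    LinearIndependent ℝ (fun (k : Fin m) (i : Fin d) => LF g i (x k)) := by
  have hinj : LinearMap.ker g.mulVecLin = ⊥ := by
    rw [LinearMap.ker_eq_bot']
    intro z hz
    have h1 := congrArg (fun w => g⁻¹ *ᵥ w) (show g *ᵥ z = 0 from hz)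
    simpa [Matrix.mulVec_mulVec, Matrix.nonsing_inv_mul _ hg] using h1
  exact hx.map' g.mulVecLin hinj

lemma indep_DF {m : ℕ} {g : Matrix (Fin d) (Fin d) ℝ} (hg : IsUnit g.det)
    {y : Fin m → Fin d → ℤ}
    (hy : LinearIndependent ℝ (fun (k : Fin m) (j : Fin d) => (y k j : ℝ))) :
    LinearIndependent ℝ (fun (k : Fin m) (i : Fin d) => DF g i (y k)) := by
  have hinj : LinearMap.ker (Matrix.vecMulLinear g⁻¹) = ⊥ := by
    rw [LinearMap.ker_eq_bot']
    intro z hz
    have h1 := congrArg (fun w => w ᵥ* g) (show z ᵥ* g⁻¹ = 0 from hz)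
    simpa [Matrix.vecMul_vecMul, Matrix.nonsing_inv_mul _ hg] using h1
  exact hy.map' (Matrix.vecMulLinear g⁻¹) hinj

/-- **Joint values on a piece of a minimal set.** -/
theorem Rich.not_thin_jv (hd : 2 ≤ d) {V ν : ℝ} (hV : 0 < V) (hν : 0 < ν)
    {M : Set (Matrix (Fin d) (Fin d) ℝ)} (hMdet : ∀ h ∈ M, |h.det| = V)
    (hMnu : ∀ h ∈ M, HasNu h ν) {R : Fin d → Fin d → Prop} (hall : ∀ i j, R i j) {s : ℕ}
    (h : Rich M R s) {O : Set (Matrix (Fin d) (Fin d) ℝ)}
    (hO : IsOpen O) (hne : (O ∩ M).Nonempty) {m l : ℕ} (hml : m + l < d)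
    {x : Fin m → Fin d → ℤ} {y : Fin l → Fin d → ℤ}
    (hx : LinearIndependent ℝ (fun (k : Fin m) (j : Fin d) => (x k j : ℝ)))
    (hy : LinearIndependent ℝ (fun (k : Fin l) (j : Fin d) => (y k j : ℝ)))
    (hxy : ∀ k k', y k' ⬝ᵥ x k = 0) {n : ℕ} (hn : n < m + l) :
    ¬ Thin n {w | ∃ g ∈ O ∩ M, w = jv x y g} := by
  classical
  have hdet0 : ∀ g ∈ M, g.det ≠ 0 := fun g hg h0 => by
    have h1 := hMdet g hg
    rw [h0, abs_zero] at h1
    exact hV.ne h1
  refine h.not_thin_map hO hne (v := fun g : Fin d → Fin d → ℝ => jv x y (Matrix.of g))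
    (fun g hg => contDiffAt_jv (hdet0 g hg.2) x y) (fun g hg W' h1 _ => ?_)
  have hu := h.det g hg.2
  have hx0 : ∀ k, x k ≠ 0 := by
    intro k h0
    refine hx.ne_zero k ?_
    funext j
    show ((x k j : ℤ) : ℝ) = 0
    rw [h0]
    simp
  have hy0 : ∀ k, y k ≠ 0 := by
    intro k h0
    refine hy.ne_zero k ?_
    funext j
    show ((y k j : ℤ) : ℝ) = 0
    rw [h0]
    simp
  have ha : ∀ k i, LF g i (x k) ≠ 0 := fun k i => h.nz g hg.2 (x k) (hx0 k) i
  have hb : ∀ k i, DF g i (y k) ≠ 0 := fun k i h0 =>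
    hy0 k (dual_ne hd hV hν (hMdet g hg.2) (hMnu g hg.2) i (y k) h0)
  have htop : W' = ⊤ := by
    by_contra hne'
    obtain ⟨f, hf0, hfW⟩ : ∃ f : Module.Dual ℝ ((Fin m → ℝ) × (Fin l → ℝ)), f ≠ 0 ∧
        ∀ w ∈ W', f w = 0 := by
      obtain ⟨f, hf, hW⟩ := Submodule.exists_le_ker_of_lt_top W' (lt_top_iff_ne_top.2 hne')
      exact ⟨f, hf, fun w hw => hW hw⟩
    set lam : Fin m → ℝ := fun k => f (Pi.single k 1, 0) with hlam
    set mu : Fin l → ℝ := fun k => f (0, Pi.single k 1) with hmu
    have hf : ∀ w : (Fin m → ℝ) × (Fin l → ℝ), f w = ∑ k, lam k * w.1 k + ∑ k, mu k * w.2 k := by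
      intro w
      have e1 : w = ∑ k, w.1 k • ((Pi.single k (1 : ℝ), 0) : (Fin m → ℝ) × (Fin l → ℝ)) +
          ∑ k, w.2 k • ((0, Pi.single k (1 : ℝ)) : (Fin m → ℝ) × (Fin l → ℝ)) := by
        refine Prod.ext ?_ ?_
        · rw [Prod.fst_add, Prod.fst_sum, Prod.fst_sum]
          funext c
          rw [Pi.add_apply, Finset.sum_apply, Finset.sum_apply]
          simp [Pi.single_apply]
        · rw [Prod.snd_add, Prod.snd_sum, Prod.snd_sum]
          funext c
          rw [Pi.add_apply, Finset.sum_apply, Finset.sum_apply]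
          simp [Pi.single_apply]
      conv_lhs => rw [e1]
      rw [map_add, map_sum, map_sum]
      congr 1
      · refine Finset.sum_congr rfl fun k _ => ?_
        rw [map_smul, smul_eq_mul, mul_comm]
      · refine Finset.sum_congr rfl fun k _ => ?_
        rw [map_smul, smul_eq_mul, mul_comm]
    have hz := joint_zero (by omega) hml (a := fun k i => LF g i (x k))
      (b := fun k i => DF g i (y k)) ha hb (indep_LF hu hx) (indep_DF hu hy)
      (fun k k' => by rw [pairing hu, hxy k k', Int.cast_zero])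
      (lam := fun k => lam k * ∏ i, LF g i (x k)) (mu := fun k => mu k * ∏ i, DF g i (y k))
      (fun i j hij => by
        have h3 := h1 i j hij (hall i j)
        rw [fderiv_jv (hdet0 g hg.2) x y hij] at h3
        have h4 := hfW _ h3
        rw [hf] at h4
        have h5 : ∑ k, lam k * (LF g j (x k) * ∏ a ∈ Finset.univ.erase i, LF g a (x k)) =
            ∑ k, mu k * (DF g i (y k) * ∏ a ∈ Finset.univ.erase j, DF g a (y k)) := by
          have h6 : ∑ k, mu k * -(DF g i (y k) * ∏ a ∈ Finset.univ.erase j, DF g a (y k)) =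
              -∑ k, mu k * (DF g i (y k) * ∏ a ∈ Finset.univ.erase j, DF g a (y k)) := by
            rw [← Finset.sum_neg_distrib]
            exact Finset.sum_congr rfl fun k _ => by ring
          dsimp only at h4
          rw [h6] at h4
          linarith
        have h6 : ∑ k, lam k * (∏ i, LF g i (x k)) * (LF g j (x k) / LF g i (x k)) =
            ∑ k, lam k * (LF g j (x k) * ∏ a ∈ Finset.univ.erase i, LF g a (x k)) := by
          refine Finset.sum_congr rfl fun k _ => ?_
          rw [← Finset.mul_prod_erase _ _ (Finset.mem_univ i)]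
          have := ha k i
          field_simp
        have h7 : ∑ k, mu k * (∏ i, DF g i (y k)) * (DF g i (y k) / DF g j (y k)) =
            ∑ k, mu k * (DF g i (y k) * ∏ a ∈ Finset.univ.erase j, DF g a (y k)) := by
          refine Finset.sum_congr rfl fun k _ => ?_
          rw [← Finset.mul_prod_erase _ _ (Finset.mem_univ j)]
          have := hb k j
          field_simp
        rw [h6, h7]
        exact h5)
    apply hf0
    refine LinearMap.ext fun w => ?_
    rw [hf]
    have h8 : ∀ k, lam k = 0 := fun k => (mul_eq_zero.1 (hz.1 k)).resolve_right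
      (Finset.prod_ne_zero_iff.2 fun i _ => ha k i)
    have h9 : ∀ k, mu k = 0 := fun k => (mul_eq_zero.1 (hz.2 k)).resolve_right
      (Finset.prod_ne_zero_iff.2 fun i _ => hb k i)
    simp [h8, h9]
  rw [htop, finrank_top, Module.finrank_prod, Module.finrank_fintype_fun_eq_card,
    Module.finrank_fintype_fun_eq_card, Fintype.card_fin, Fintype.card_fin]
  exact hn

/-- **The dual product is bounded away from zero.** -/
theorem dual_nu (hd : 2 ≤ d) {V ν : ℝ} (hV : 0 < V) (hν : 0 < ν)
    {h : Matrix (Fin d) (Fin d) ℝ} (hdet : |h.det| = V) (hnu : HasNu h ν) :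
    ∃ ν' : ℝ, 0 < ν' ∧ ∀ y : Fin d → ℤ, y ≠ 0 → ν' ≤ |∏ i, DF h i y| := by
  classical
  have hd0 : 0 < d := by omega
  have hdR : (0 : ℝ) < d := by exact_mod_cast hd0
  obtain ⟨R, hR⟩ := exists_bound hd0 V ν hV hν
  set R' : ℝ := |R| + 1 with hR'
  have hR'0 : 0 < R' := by positivity
  have hdet0 : h.det ≠ 0 := by
    intro h0
    rw [h0, abs_zero] at hdet
    exact hV.ne hdet
  refine ⟨(1 / (d * R')) ^ d, by positivity, fun y hy => ?_⟩
  by_contra hcon
  push Not at hcon
  have hne : ∀ i, DF h i y ≠ 0 := fun i h0 => hy (dual_ne hd hV hν hdet hnu i y h0)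
  set P : ℝ := |∏ i, DF h i y| with hP
  have hP0 : 0 < P := abs_pos.2 (Finset.prod_ne_zero_iff.2 fun i _ => hne i)
  set q : ℝ := P ^ ((1 : ℝ) / d) with hq
  have hq0 : 0 < q := Real.rpow_pos_of_pos hP0 _
  have hqd : q ^ d = P := by
    rw [hq, ← Real.rpow_natCast, ← Real.rpow_mul hP0.le, one_div, inv_mul_cancel₀ hdR.ne',
      Real.rpow_one]
  have hqlt : q < 1 / (d * R') := by
    refine lt_of_pow_lt_pow_left₀ d (by positivity) ?_
    rw [hqd]
    exact hcon
  set b : Fin d → ℝ := fun i => |DF h i y| / q with hb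
  have hb0 : ∀ i, 0 < b i := fun i => div_pos (abs_pos.2 (hne i)) hq0
  have hb1 : ∏ i, b i = 1 := by
    rw [hb, Finset.prod_div_distrib, Finset.prod_const, Finset.card_univ, Fintype.card_fin, hqd,
      hP, Finset.abs_prod]
    exact div_self (Finset.prod_ne_zero_iff.2 fun i _ => abs_ne_zero.2 (hne i))
  have hbdet : |(diagonal b * h).det| = V := by
    rw [det_mul, det_diagonal, hb1, one_mul]; exact hdet
  have hbnu : HasNu (diagonal b * h) ν := by
    intro m hm
    rw [FF_diag_mul, hb1, one_mul]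
    exact hnu m hm
  obtain ⟨γ, hγ, hγR⟩ := hR _ hbdet hbnu
  set z : Fin d → ℝ := iR y ᵥ* h⁻¹ with hz
  have hyh : z ᵥ* h = iR y := by
    rw [hz, Matrix.vecMul_vecMul, Matrix.nonsing_inv_mul _ (isUnit_iff_ne_zero.2 hdet0),
      Matrix.vecMul_one]
  have hrγ : ∀ j, |((y ᵥ* γ) j : ℝ)| < 1 := by
    intro j
    have h1 : ((y ᵥ* γ) j : ℝ) = ∑ l, z l / b l * (diagonal b * h * zR γ) l j := by
      have h2 : (iR y ᵥ* zR γ) j = (z ᵥ* (h * zR γ)) j := by
        rw [← Matrix.vecMul_vecMul, hyh]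
      rw [vecMul_cast, h2]
      show ∑ l, z l * (h * zR γ) l j = _
      refine Finset.sum_congr rfl fun l _ => ?_
      rw [Matrix.mul_assoc (diagonal b), Matrix.diagonal_mul]
      have h3 := (hb0 l).ne'
      rw [div_mul_eq_mul_div, mul_left_comm, mul_div_cancel_left₀ _ h3]
    rw [h1]
    refine (Finset.abs_sum_le_sum_abs _ _).trans_lt ?_
    have h2 : ∀ l ∈ (Finset.univ : Finset (Fin d)),
        |z l / b l * (diagonal b * h * zR γ) l j| ≤ q * R' := by
      intro l _
      have h4 : |(diagonal b * h * zR γ) l j| ≤ R' :=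
        ((hγR l j).trans (le_abs_self R)).trans (by rw [hR']; linarith)
      have h5 : |z l / b l| = q := by
        rw [abs_div, abs_of_pos (hb0 l)]
        show |DF h l y| / (|DF h l y| / q) = q
        have := abs_pos.2 (hne l)
        field_simp
      rw [abs_mul, h5]
      exact mul_le_mul_of_nonneg_left h4 hq0.le
    refine (Finset.sum_le_sum h2).trans_lt ?_
    rw [Finset.sum_const, Finset.card_univ, Fintype.card_fin, nsmul_eq_mul]
    rw [lt_div_iff₀ (by positivity)] at hqlt
    linarith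
  have hrγ0 : y ᵥ* γ = 0 := by
    funext j
    have h1 : |(y ᵥ* γ) j| < 1 := by exact_mod_cast hrγ j
    exact Int.abs_lt_one_iff.1 h1
  have h1 : (y ᵥ* γ) ᵥ* γ⁻¹ = 0 := by rw [hrγ0, Matrix.zero_vecMul]
  rw [Matrix.vecMul_vecMul, Matrix.mul_nonsing_inv _ hγ, Matrix.vecMul_one] at h1
  exact hy h1

end Pool.Agent.Q34.CSDThin
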