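import Mathlib
import Pool.Agent.Q34.CSD.DualProd
import Pool.Agent.Y327.Full

/-! # Joint values: closure and countability -/

open Filter Topology Matrix

namespace Pool.Agent.Q34.CSDThin

open Y327 H715R2

variable {d : ℕ}

/-- the joint values at the images under unimodular matrices -/
def JVs {m l : ℕ} (x : Fin m → Fin d → ℤ) (y : Fin l → Fin d → ℤ)
    (g : Matrix (Fin d) (Fin d) ℝ) : Set ((Fin m → ℝ) × (Fin l → ℝ)) :=
  {w | ∃ (γ : Matrix (Fin d) (Fin d) ℤ) (y' : Fin l → Fin d → ℤ), IsUnit γ.det ∧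
    (∀ k, y' k ᵥ* γ = y k) ∧ w = jv (fun k => γ *ᵥ x k) y' g}

lemma jv_orb {m l : ℕ} {a : Fin d → ℝ} (ha : ∀ i, 0 < a i) (ha1 : ∏ i, a i = 1)
    (g : Matrix (Fin d) (Fin d) ℝ) {γ : Matrix (Fin d) (Fin d) ℤ} (hγ : IsUnit γ.det)
    {x : Fin m → Fin d → ℤ} {y y' : Fin l → Fin d → ℤ} (hy : ∀ k, y' k ᵥ* γ = y k) :
    jv x y (diagonal a * g * zR γ) = jv (fun k => γ *ᵥ x k) y' g := by
  unfold jv
  refine Prod.ext ?_ ?_
  · funext k
    show ∏ i, LF (diagonal a * g * zR γ) i (x k) = _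
    simp only [LF_orb]
    rw [Finset.prod_mul_distrib, ha1, one_mul]
  · funext k
    show ∏ i, DF (diagonal a * g * zR γ) i (y k) = _
    rw [Finset.prod_congr rfl fun i _ => DF_orb ha g hγ i (hy k), Finset.prod_mul_distrib,
      Finset.prod_inv_distrib, ha1, inv_one, one_mul]

lemma jv_mem {m l : ℕ} {g h : Matrix (Fin d) (Fin d) ℝ} (hh : h ∈ closure (Orb g))
    (hdet : h.det ≠ 0) (x : Fin m → Fin d → ℤ) (y : Fin l → Fin d → ℤ) :
    jv x y h ∈ closure (JVs x y g) := by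
  have hcont : ContinuousAt (fun h : Matrix (Fin d) (Fin d) ℝ => jv x y h) h :=
    (contDiffAt_jv hdet x y).continuousAt
  rw [mem_closure_iff_nhds]
  intro s hs
  obtain ⟨h', hmem, a, γ, ha0, ha1, hγ, rfl⟩ := mem_closure_iff_nhds.1 hh _ (hcont hs)
  have hy : ∀ k, (y k ᵥ* γ⁻¹) ᵥ* γ = y k := fun k => by
    rw [Matrix.vecMul_vecMul, Matrix.nonsing_inv_mul _ hγ, Matrix.vecMul_one]
  refine ⟨_, hmem, γ, fun k => y k ᵥ* γ⁻¹, hγ, hy, ?_⟩
  exact jv_orb ha0 ha1 g hγ hy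

/-- the values of an integral form -/
lemma values_int {g : Matrix (Fin d) (Fin d) ℝ} (hP : H715R2.PropInt g) :
    ∃ c : ℝ, c ≠ 0 ∧ ∀ x : Fin d → ℤ, ∃ z : ℤ, c * ∏ i, LF g i x = (z : ℝ) := by
  obtain ⟨c, hc, hcoef⟩ := hP
  have h2 : c • polyF g ∈ Set.range (MvPolynomial.map (σ := Fin d) (Int.castRingHom ℝ)) := by
    rw [MvPolynomial.mem_range_map_iff_coeffs_subset]
    intro z hz
    rw [Finset.mem_coe, MvPolynomial.mem_coeffs_iff] at hz
    obtain ⟨m, -, rfl⟩ := hz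
    obtain ⟨z, hz⟩ := hcoef m
    exact ⟨z, by rw [hz]; rfl⟩
  obtain ⟨G, hG⟩ := h2
  refine ⟨c, hc, fun x => ?_⟩
  rw [← FF_LF]
  refine ⟨MvPolynomial.eval x G, ?_⟩
  have h4 : c * FF g (iR x) = MvPolynomial.eval (iR x) (c • polyF g) := by
    rw [MvPolynomial.smul_eval, eval_polyF]
    rfl
  rw [h4, ← hG, MvPolynomial.eval_map]
  have h5 : (Int.castRingHom ℝ) (MvPolynomial.eval x G) = MvPolynomial.eval₂
      ((Int.castRingHom ℝ).comp (RingHom.id ℤ)) ((Int.castRingHom ℝ) ∘ x) G := by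
    rw [MvPolynomial.eval]
    exact MvPolynomial.eval₂_comp_left _ _ _ _
  rw [RingHom.comp_id] at h5
  exact h5.symm

lemma DF_eq_LF (g : Matrix (Fin d) (Fin d) ℝ) (i : Fin d) (y : Fin d → ℤ) :
    DF g i y = LF (g⁻¹)ᵀ i y := by
  rw [LF_eq_mulVec, Matrix.mulVec_transpose]
  rfl

/-- **The dual of an integral form.** -/
theorem propInt_dual (hd : 3 ≤ d) {g : Matrix (Fin d) (Fin d) ℝ} (hg : g.det ≠ 0) {ν : ℝ}
    (hν : 0 < ν) (hnu : HasNu g ν) (hP : H715R2.PropInt g) : H715R2.PropInt (g⁻¹)ᵀ := by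
  have hu : IsUnit g.det := isUnit_iff_ne_zero.2 hg
  have hnz : ∀ p : Fin d → ℤ, p ≠ 0 → FF g (iR p) ≠ 0 := by
    intro p hp h0
    have h1 := hnu p hp
    rw [h0, abs_zero] at h1
    exact absurd h1 (not_le.2 hν)
  obtain ⟨A, -, hirr, -, hinv⟩ := Pool.Agent.H905R2.Opp.oppA g (by omega) hg hP hnz
  obtain ⟨lam, hlam, hA⟩ := eig_of_opp hg hirr hinv
  obtain ⟨ν', hν', hdual⟩ := dual_nu (by omega) (abs_pos.2 hg) hν rfl hnu
  have hdet : ((g⁻¹)ᵀ).det ≠ 0 := by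
    rw [Matrix.det_transpose]
    exact (Matrix.isUnit_nonsing_inv_det _ hu).ne_zero
  have hcomm : (g⁻¹)ᵀ * zR Aᵀ = diagonal lam * (g⁻¹)ᵀ := by
    have h1 : zR A * g⁻¹ = g⁻¹ * diagonal lam := by
      have h2 : g⁻¹ * (g * zR A) * g⁻¹ = g⁻¹ * (diagonal lam * g) * g⁻¹ := by rw [hA]
      rw [← Matrix.mul_assoc, Matrix.nonsing_inv_mul _ hu, Matrix.one_mul, Matrix.mul_assoc,
        Matrix.mul_assoc (diagonal lam), Matrix.mul_nonsing_inv _ hu, Matrix.mul_one] at h2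
      exact h2
    have h3 := congrArg Matrix.transpose h1
    rw [Matrix.transpose_mul, Matrix.transpose_mul, Matrix.diagonal_transpose] at h3
    have h4 : zR Aᵀ = (zR A)ᵀ := rfl
    rw [h4]
    exact h3
  refine propInt_of_opp hd hdet hν' (fun y hy => ?_) (A := Aᵀ) ?_ ?_
  · have h1 := hdual y hy
    rw [Finset.prod_congr rfl fun i _ => DF_eq_LF g i y] at h1
    exact h1
  · rw [Matrix.charpoly_transpose]
    exact hirr
  · intro i x hx
    have h1 : ((g⁻¹)ᵀ *ᵥ x) i = 0 := hx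
    show ((g⁻¹)ᵀ *ᵥ (zR Aᵀ *ᵥ x)) i = 0
    rw [Matrix.mulVec_mulVec, hcomm, ← Matrix.mulVec_mulVec, Matrix.mulVec_diagonal, h1, mul_zero]

/-- **The joint values of an integral form are countable.** -/
theorem countable_jvs (hd : 3 ≤ d) {m l : ℕ} {g : Matrix (Fin d) (Fin d) ℝ} (hg : g.det ≠ 0)
    {ν : ℝ} (hν : 0 < ν) (hnu : HasNu g ν) (hP : H715R2.PropInt g)
    (x : Fin m → Fin d → ℤ) (y : Fin l → Fin d → ℤ) : (closure (JVs x y g)).Countable := by
  obtain ⟨c, hc, h1⟩ := values_int hP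
  obtain ⟨c', hc', h2⟩ := values_int (propInt_dual hd hg hν hnu hP)
  have hcl : IsClosed (Set.range (Int.cast : ℤ → ℝ)) :=
    Int.isClosedEmbedding_coe_real.isClosed_range
  set Z : Set ((Fin m → ℝ) × (Fin l → ℝ)) := {w | (∀ k, c * w.1 k ∈ Set.range (Int.cast : ℤ → ℝ)) ∧
    ∀ k, c' * w.2 k ∈ Set.range (Int.cast : ℤ → ℝ)} with hZ
  have hZc : IsClosed Z := by
    refine IsClosed.inter ?_ ?_
    · show IsClosed {w : (Fin m → ℝ) × (Fin l → ℝ) | ∀ k, c * w.1 k ∈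
        Set.range (Int.cast : ℤ → ℝ)}
      simp only [Set.ofPred_forall]
      refine isClosed_iInter fun k => hcl.preimage (continuous_const.mul ?_)
      exact (continuous_apply k).comp continuous_fst
    · show IsClosed {w : (Fin m → ℝ) × (Fin l → ℝ) | ∀ k, c' * w.2 k ∈
        Set.range (Int.cast : ℤ → ℝ)}
      simp only [Set.ofPred_forall]
      refine isClosed_iInter fun k => hcl.preimage (continuous_const.mul ?_)
      exact (continuous_apply k).comp continuous_snd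
  have hsub : closure (JVs x y g) ⊆ Z := by
    refine closure_minimal ?_ hZc
    rintro _ ⟨γ, y', hγ, -, rfl⟩
    refine ⟨fun k => ?_, fun k => ?_⟩
    · obtain ⟨z, hz⟩ := h1 (γ *ᵥ x k)
      exact ⟨z, hz.symm⟩
    · obtain ⟨z, hz⟩ := h2 (y' k)
      refine ⟨z, ?_⟩
      rw [← hz]
      show c' * ∏ i, LF (g⁻¹)ᵀ i (y' k) = c' * ∏ i, DF g i (y' k)
      rw [Finset.prod_congr rfl fun i _ => DF_eq_LF g i (y' k)]
  refine Set.Countable.mono hsub ?_
  have h5 : Z ⊆ Set.range (fun z : (Fin m → ℤ) × (Fin l → ℤ) =>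
      ((fun k => (z.1 k : ℝ) / c, fun k => (z.2 k : ℝ) / c') :
        (Fin m → ℝ) × (Fin l → ℝ))) := by
    rintro w ⟨hw, hw'⟩
    choose z hz using hw
    choose z' hz' using hw'
    refine ⟨(z, z'), Prod.ext ?_ ?_⟩
    · funext k
      show (z k : ℝ) / c = w.1 k
      rw [hz k]
      field_simp
    · funext k
      show (z' k : ℝ) / c' = w.2 k
      rw [hz' k]
      field_simp
  exact (Set.countable_range _).mono h5

end Pool.Agent.Q34.CSDThin
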